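import Pool.Agent.Q206.FT.One

/-! # Leading coefficients and congruences of valuations; roots -/

set_option autoImplicit false

open Polynomial Finset

namespace Pool.Agent.Q206.FT

variable {p : ℕ} [hp : Fact p.Prime]

theorem lc_natCast (a : ZMod p) : ((a.val : KK p)).leadingCoeff = a := by
  have h1 : ((a.val : ℕ) : KK p) = HahnSeries.single (0 : ℤ) a := by
    rw [← HahnSeries.C_apply, ← map_natCast (HahnSeries.C : ZMod p →+* KK p), ZMod.natCast_zmod_val]
  rw [h1, HahnSeries.leadingCoeff_of_single]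

theorem lc_tt_pow (j : ℕ) : ((tt : KK p) ^ j).leadingCoeff = 1 := by
  rw [← zpow_natCast, tt_zpow, HahnSeries.leadingCoeff_of_single]

theorem lc_pow (w : KK p) (n : ℕ) : (w ^ n).leadingCoeff = w.leadingCoeff ^ n := by
  induction n with
  | zero =>
    rw [pow_zero, pow_zero]
    have : (1 : KK p) = HahnSeries.single (0 : ℤ) 1 := rfl
    rw [this, HahnSeries.leadingCoeff_of_single]
  | succ n ih => rw [pow_succ, pow_succ, HahnSeries.leadingCoeff_mul, ih]

/-- an element with given leading coefficient is close to a monomial -/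
theorem norm_sub_lead {u : KK p} (hu : u ≠ 0) :
    ‖u - (u.leadingCoeff.val : KK p) * tt ^ u.order‖ < ‖u‖ := by
  rw [norm_eq_of_ne hu]
  refine lt_of_le_of_lt (b := (2 : ℝ) ^ (-(u.order + 1))) ?_ ?_
  · rw [norm_le_iff]
    intro k hk
    have h1 : ((u.leadingCoeff.val : ℕ) : KK p) = HahnSeries.single (0 : ℤ) u.leadingCoeff := by
      rw [← HahnSeries.C_apply, ← map_natCast (HahnSeries.C : ZMod p →+* KK p),
        ZMod.natCast_zmod_val]
    rw [h1, tt_zpow, HahnSeries.single_mul_single, zero_add, mul_one, HahnSeries.coeff_sub,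
      HahnSeries.coeff_single]
    by_cases hk2 : k = u.order
    · rw [if_pos hk2, hk2, HahnSeries.leadingCoeff_eq, sub_self]
    · rw [if_neg hk2, sub_zero]
      exact HahnSeries.coeff_eq_zero_of_lt_order (by omega)
  · exact (zpow_lt_zpow_iff_right₀ (by norm_num : (1 : ℝ) < 2)).2 (by omega)

theorem lc_iff (a : ZMod p) (ha : a ≠ 0) (u : KK p) : u.leadingCoeff = a ↔
    ∃ j : Fin (p - 1), ∃ w : KK p, ‖u - (a.val : KK p) * (tt ^ (j : ℕ) * w ^ (p - 1))‖ < ‖u‖ := by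
  have hp1 : 0 < p - 1 := by have := hp.out.two_le; omega
  have hpz : (0 : ℤ) < (p - 1 : ℕ) := by exact_mod_cast hp1
  constructor
  · intro h
    have hu : u ≠ 0 := by
      rintro rfl
      rw [HahnSeries.leadingCoeff_zero] at h
      exact ha h.symm
    have e1 := Int.emod_nonneg u.order hpz.ne'
    have e2 := Int.emod_lt_of_pos u.order hpz
    have e3 := Int.emod_add_mul_ediv u.order ((p - 1 : ℕ) : ℤ)
    refine ⟨⟨(u.order % ((p - 1 : ℕ) : ℤ)).toNat, by omega⟩,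
      tt ^ (u.order / ((p - 1 : ℕ) : ℤ)), ?_⟩
    have h1 : (tt : KK p) ^ ((u.order % ((p - 1 : ℕ) : ℤ)).toNat) *
        (tt ^ (u.order / ((p - 1 : ℕ) : ℤ))) ^ (p - 1) = tt ^ u.order := by
      rw [← zpow_natCast, ← zpow_natCast (tt ^ (u.order / ((p - 1 : ℕ) : ℤ)) : KK p), ← zpow_mul,
        ← zpow_add₀ tt_ne, Int.toNat_of_nonneg e1]
      congr 1
      rw [mul_comm (u.order / ((p - 1 : ℕ) : ℤ))]
      exact e3
    show ‖u - (a.val : KK p) * ((tt : KK p) ^ ((u.order % ((p - 1 : ℕ) : ℤ)).toNat) *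
      (tt ^ (u.order / ((p - 1 : ℕ) : ℤ))) ^ (p - 1))‖ < ‖u‖
    rw [h1, ← h]
    exact norm_sub_lead hu
  · rintro ⟨j, w, h⟩
    have h1 := (Req.of_lt 1 h).2.1
    have h0 := (Req.of_lt 1 h).1
    have hu : u ≠ 0 := by
      rintro rfl
      rw [norm_zero] at h
      exact absurd h (not_lt.2 (norm_nonneg _))
    have hw : w ≠ 0 := by
      rintro rfl
      apply hu
      rw [h0, zero_pow hp1.ne', mul_zero, mul_zero]
    rw [h1, HahnSeries.leadingCoeff_mul, HahnSeries.leadingCoeff_mul, lc_natCast, lc_tt_pow,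
      lc_pow, one_mul, ZMod.pow_card_sub_one_eq_one (HahnSeries.leadingCoeff_ne_zero.2 hw), mul_one]

theorem dvd_order_iff (N : ℕ) (u : KK p) : (N : ℤ) ∣ u.order ↔
    u = 0 ∨ ∃ w : KK p, w ≠ 0 ∧ ‖u‖ = ‖w ^ N‖ := by
  by_cases hu : u = 0
  · rw [hu, HahnSeries.order_zero]
    simp
  rw [or_iff_right hu]
  constructor
  · rintro ⟨k, hk⟩
    refine ⟨tt ^ k, zpow_ne_zero _ tt_ne, ?_⟩
    rw [norm_eq_of_ne hu, ← zpow_natCast, ← zpow_mul, norm_tzpow, hk, mul_comm]
  · rintro ⟨w, hw, h⟩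
    have hw2 : w ^ N ≠ 0 := pow_ne_zero _ hw
    rw [norm_eq_of_ne hu, norm_eq_of_ne hw2] at h
    have h1 := (zpow_right_inj₀ (by norm_num : (0 : ℝ) < 2) (by norm_num)).1 h
    rw [HahnSeries.order_pow] at h1
    exact ⟨w.order, by
      have h2 : N • w.order = N * w.order := by simp
      omega⟩

theorem not_dvd_order_iff (N : ℕ) (hN : 0 < N) (u : KK p) : ¬ (N : ℤ) ∣ u.order ↔
    u ≠ 0 ∧ ∃ j : Fin N, 1 ≤ (j : ℕ) ∧ ∃ w : KK p, w ≠ 0 ∧ ‖u‖ = ‖tt ^ (j : ℕ) * w ^ N‖ := by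
  have hNz : (0 : ℤ) < N := by exact_mod_cast hN
  constructor
  · intro h
    have hu : u ≠ 0 := by
      rintro rfl
      rw [HahnSeries.order_zero] at h
      exact h (dvd_zero _)
    refine ⟨hu, ?_⟩
    have e1 := Int.emod_nonneg u.order hNz.ne'
    have e2 := Int.emod_lt_of_pos u.order hNz
    have e3 := Int.emod_add_mul_ediv u.order N
    have e4 : u.order % N ≠ 0 := fun h1 => h (Int.dvd_of_emod_eq_zero h1)
    refine ⟨⟨(u.order % N).toNat, by omega⟩, ?_, tt ^ (u.order / N), zpow_ne_zero _ tt_ne, ?_⟩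
    · show 1 ≤ (u.order % N).toNat
      omega
    · show ‖u‖ = ‖(tt : KK p) ^ (u.order % N).toNat * (tt ^ (u.order / N)) ^ N‖
      rw [norm_eq_of_ne hu, ← zpow_natCast, ← zpow_natCast (tt ^ (u.order / (N : ℤ)) : KK p),
        ← zpow_mul, ← zpow_add₀ tt_ne, Int.toNat_of_nonneg e1, norm_tzpow]
      congr 2
      rw [mul_comm (u.order / (N : ℤ))]
      exact e3.symm
  · rintro ⟨hu, j, hj, w, hw, h⟩ ⟨k, hk⟩
    have hj2 := j.2
    have hw2 : w ^ N ≠ 0 := pow_ne_zero _ hw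
    have ht : (tt : KK p) ^ (j : ℕ) ≠ 0 := pow_ne_zero _ tt_ne
    rw [norm_eq_of_ne hu, norm_eq_of_ne (mul_ne_zero ht hw2)] at h
    have h1 := (zpow_right_inj₀ (by norm_num : (0 : ℝ) < 2) (by norm_num)).1 h
    have h0 : (tt : KK p).order = 1 := HahnSeries.order_single one_ne_zero
    rw [HahnSeries.order_mul ht hw2, HahnSeries.order_pow, HahnSeries.order_pow, h0, hk] at h1
    have h2 : N • w.order = N * w.order := by simp
    have h2' : (j : ℕ) • (1 : ℤ) = (j : ℕ) := by simp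
    rw [h2, h2'] at h1
    have h3 : (N : ℤ) ∣ (j : ℕ) := ⟨k - w.order, by linarith⟩
    have h4 := Int.le_of_dvd (by omega) h3
    omega

section

variable {σ : Type}

theorem ED.lc (a : ZMod p) {f : (σ → KK p) → KK p} (hf : IsPo f) :
    ED {x | (f x).leadingCoeff = a} := by
  by_cases ha : a = 0
  · rw [ha]
    refine (ED.eq0 hf).congr fun x => ?_
    exact HahnSeries.leadingCoeff_eq_zero
  · have h1 : ED {x | ∃ j : Fin (p - 1), ∃ w : KK p,
        ‖f x - (a.val : KK p) * (tt ^ (j : ℕ) * w ^ (p - 1))‖ < ‖f x‖} := by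
      refine ED.any fun j => ED.ex (ED.norm_lt ?_ ?_)
      · exact (hf.comp fun i => IsPo.var _).sub ((IsPo.const _).mul ((IsPo.tt.pow _).mul
          ((IsPo.var _).pow _)))
      · exact hf.comp fun i => IsPo.var _
    exact h1.congr fun x => lc_iff a ha (f x)

theorem ED.lc_ne (a : ZMod p) {f : (σ → KK p) → KK p} (hf : IsPo f) :
    ED {x | ¬ (f x).leadingCoeff = a} := by
  have h1 : ED {x | ∃ b : {b : ZMod p // b ≠ a}, (f x).leadingCoeff = b} := ED.any fun b =>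
    ED.lc _ hf
  refine h1.congr fun x => ?_
  constructor
  · intro h
    exact ⟨⟨_, h⟩, rfl⟩
  · rintro ⟨b, hb⟩
    show ¬ (f x).leadingCoeff = a
    rw [hb]
    exact b.2

theorem ED.norm_eq {f g : (σ → KK p) → KK p} (hf : IsPo f) (hg : IsPo g) :
    ED {x | ‖f x‖ = ‖g x‖} :=
  ((ED.norm_le hf hg).and (ED.norm_le hg hf)).congr fun _ => le_antisymm_iff

theorem ED.dvd_order (N : ℕ) {f : (σ → KK p) → KK p} (hf : IsPo f) :
    ED {x | (N : ℤ) ∣ (f x).order} := by
  have h1 : ED {x | f x = 0 ∨ ∃ w : KK p, w ≠ 0 ∧ ‖f x‖ = ‖w ^ N‖} := by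
    refine ED.or (ED.eq0 hf) (ED.ex (ED.and (ED.ne0 (IsPo.var _)) (ED.norm_eq ?_ ?_)))
    · exact hf.comp fun i => IsPo.var _
    · exact (IsPo.var _).pow _
  exact h1.congr fun x => dvd_order_iff N (f x)

theorem ED.not_dvd_order (N : ℕ) (hN : 0 < N) {f : (σ → KK p) → KK p} (hf : IsPo f) :
    ED {x | ¬ (N : ℤ) ∣ (f x).order} := by
  have h1 : ED {x | f x ≠ 0 ∧ ∃ j : Fin N, 1 ≤ (j : ℕ) ∧
      ∃ w : KK p, w ≠ 0 ∧ ‖f x‖ = ‖tt ^ (j : ℕ) * w ^ N‖} := by
    refine ED.and (ED.ne0 hf) (ED.any fun j => ED.and (ED.const _) (ED.ex (ED.and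
      (ED.ne0 (IsPo.var _)) (ED.norm_eq ?_ ?_))))
    · exact hf.comp fun i => IsPo.var _
    · exact (IsPo.tt.pow _).mul ((IsPo.var _).pow _)
  exact h1.congr fun x => not_dvd_order_iff N hN (f x)

/-- **Universal quantification over the roots of a nonzero polynomial** -/
theorem ED.forall_root {F : (σ → KK p) → (KK p)[X]} (hF : IsPP F) {S : Set (σ ⊕ Unit → KK p)}
    (hS : ED S) :
    ED {x | F x ≠ 0 ∧ ∀ y, (F x).eval y = 0 → Sum.elim x (fun _ => y) ∈ S} := by
  obtain ⟨N, hN⟩ := hF.natDegree_le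
  have h1 : ED {x | ∃ (δ : Fin 1 → Fin N → Fin (N + 1)) (v : Va 1 N → KK p),
      (F x = C (v (.inl 0)) * ∏ j, fac δ v 0 j ∧ v (.inl 0) ≠ 0) ∧
      (∀ j, (δ 0 j : ℕ) = 0 ∨ Cert (δ 0 j) (fac δ v 0 j) (v (.inr (.inl (0, j))))) ∧
      ∀ j, (δ 0 j : ℕ) = 0 ∨ (fac δ v 0 j).eval (v (.inr (.inl (0, j)))) ≠ 0 ∨
        Sum.elim x (fun _ => v (.inr (.inl (0, j)))) ∈ S} := by
    refine ED.any fun δ => ED.exs ?_
    have hc : ∀ j, IsPo fun w : σ ⊕ Va 1 N → KK p => w (.inr (.inr (.inl (0, j)))) :=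
      fun j => IsPo.var _
    have hf : ∀ j, IsPP fun w : σ ⊕ Va 1 N → KK p => fac δ (fun i => w (.inr i)) 0 j :=
      fun j => IsPP.gpol _ fun l => IsPo.var _
    have hb : ∀ j, IsPo fun w : σ ⊕ Va 1 N → KK p => (fac δ (fun i => w (.inr i)) 0 j).eval
        (w (.inr (.inr (.inl (0, j))))) := fun j => (hf j).eval (hc j)
    refine ED.and (ED.and (ED.eqP ?_ ?_) (ED.ne0 (IsPo.var _))) (ED.and (ED.all fun j =>
      ED.or (ED.const _) (ED.cert _ (hf j) (hc j))) (ED.all fun j => ED.or (ED.const _)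
        (ED.or (ED.ne0 (hb j)) ?_)))
    · exact hF.comp fun i => IsPo.var _
    · exact (IsPP.C (IsPo.var _)).mul (IsPP.prod _ fun j => hf j)
    · refine (hS.comp (f := Sum.elim (fun i (w : σ ⊕ Va 1 N → KK p) => w (.inl i))
        fun _ (w : σ ⊕ Va 1 N → KK p) => w (.inr (.inr (.inl (0, j))))) ?_).congr fun w => ?_
      · rintro (i | i)
        · exact IsPo.var _
        · exact IsPo.var _
      · show _ ∈ S ↔ _ ∈ S
        have h2 : (Sum.elim (fun i => w (.inl i)) fun _ => w (.inr (.inr (.inl (0, j)))) :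
            σ ⊕ Unit → KK p) = fun i => (Sum.elim (fun i (w : σ ⊕ Va 1 N → KK p) => w (.inl i))
              (fun _ (w : σ ⊕ Va 1 N → KK p) => w (.inr (.inr (.inl (0, j)))))) i w := by
          ext i
          rcases i with i | i <;> rfl
        rw [h2]
  refine h1.congr fun x => ?_
  constructor
  · rintro ⟨hx0, hx⟩
    obtain ⟨A, G, c, h2, h3⟩ := exists_factors N _ hx0 (hN x)
    let δ : Fin 1 → Fin N → Fin (N + 1) := fun _ j => ⟨(G j).natDegree, by
      have := (h3 j).1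
      omega⟩
    let v : Va 1 N → KK p := Sum.elim (fun _ => A) (Sum.elim (fun q => c q.2)
      fun q => (G q.2.1).coeff (q.2.2 : ℕ))
    have hfac : ∀ j, fac δ v 0 j = G j := fun j => gpol_coeff (G j) (h3 j).2.1 (h3 j).1
    refine ⟨δ, v, ⟨?_, ?_⟩, fun j => ?_, fun j => ?_⟩
    · rw [h2]
      congr 1
      exact prod_congr rfl fun j _ => (hfac j).symm
    · show A ≠ 0
      rintro rfl
      rw [C_0, zero_mul] at h2
      exact hx0 h2
    · rw [hfac]
      exact (h3 j).2.2.2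
    · by_cases h4 : (fac δ v 0 j).eval (v (.inr (.inl (0, j)))) = 0
      · refine Or.inr (Or.inr (hx _ ?_))
        rw [hfac] at h4
        rw [h2, eval_mul, eval_prod, prod_eq_zero (mem_univ j) h4, mul_zero]
      · exact Or.inr (Or.inl h4)
  · rintro ⟨δ, v, ⟨h2, hA⟩, h3, h4⟩
    have hm : ∀ j, (fac δ v 0 j).Monic := fun j => gpol_monic _ _
    constructor
    · rw [h2]
      exact mul_ne_zero (C_ne_zero.2 hA) (prod_ne_zero_iff.2 fun j _ => (hm j).ne_zero)
    · intro y hy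
      rw [h2, eval_mul, eval_C, eval_prod] at hy
      obtain ⟨j, _, hj⟩ := prod_eq_zero_iff.1 ((mul_eq_zero.1 hy).resolve_left hA)
      have h5 : Cert0 (δ 0 j) (fac δ v 0 j) (v (.inr (.inl (0, j)))) :=
        ⟨hm j, gpol_natDegree _ _, h3 j⟩
      have h6 := cert0_norm h5 y
      rw [hj, norm_zero] at h6
      have h7 : ‖y - v (.inr (.inl (0, j)))‖ ^ (δ 0 j : ℕ) ≤ 0 := by
        rw [h6]
        exact le_max_left _ _
      have h8 : ‖(fac δ v 0 j).eval (v (.inr (.inl (0, j))))‖ ≤ 0 := by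
        rw [h6]
        exact le_max_right _ _
      have h9 : (δ 0 j : ℕ) ≠ 0 := by
        intro h10
        rw [h10, pow_zero] at h7
        exact absurd h7 (by norm_num)
      have h10 : y = v (.inr (.inl (0, j))) := by
        have h11 : ‖y - v (.inr (.inl (0, j)))‖ = 0 := by
          refine (pow_eq_zero_iff h9).1 (le_antisymm h7 (by positivity))
        exact sub_eq_zero.1 (norm_eq_zero.1 h11)
      rw [h10]
      rcases h4 j with h11 | h11 | h11
      · exact absurd h11 h9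
      · exact absurd (norm_le_zero_iff.1 h8) h11
      · exact h11

end

end Pool.Agent.Q206.FT
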