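import Mathlib

/-! # The field `F_p((t))` as a normed field

The norm is `‖x‖ = 2 ^ (-v x)`; `K` is complete, ultrametric and proper. -/

set_option autoImplicit false

open scoped NNReal WithZero
open Filter Topology

namespace Pool.Agent.Q206.FT

/-- the field `F_p((t))` -/
abbrev KK (p : ℕ) : Type := LaurentSeries (ZMod p)

variable {p : ℕ} [hp : Fact p.Prime]

@[instance_reducible]
noncomputable def rankOne (p : ℕ) [Fact p.Prime] :
    (Valued.v : Valuation (KK p) (WithZero (Multiplicative ℤ))).RankOne where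
  hom' := (WithZeroMulInt.toNNReal (e := 2) (by norm_num)).comp
    (MonoidWithZeroHom.ValueGroup₀.embedding)
  strictMono' := (WithZeroMulInt.toNNReal_strictMono (e := 2) (by norm_num)).comp
    (MonoidWithZeroHom.ValueGroup₀.embedding_strictMono)
  exists_val_nontrivial := by
    refine ⟨HahnSeries.single 1 1, ?_, ?_⟩
    · simp
    · intro h
      have h1 := LaurentSeries.valuation_single_zpow (ZMod p) 1
      rw [h, ← WithZero.exp_zero] at h1
      have := WithZero.exp_injective h1
      omega

attribute [local instance] rankOne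

noncomputable instance instNF : NontriviallyNormedField (KK p) :=
  Valued.toNontriviallyNormedField (KK p) (WithZero (Multiplicative ℤ))

instance instUM : IsUltrametricDist (KK p) :=
  inferInstanceAs (IsUltrametricDist (KK p))

instance instCS : CompleteSpace (KK p) :=
  inferInstanceAs (CompleteSpace (KK p))

/-- the uniformizer -/
noncomputable def tt : KK p := HahnSeries.single (1 : ℤ) (1 : ZMod p)

theorem tt_zpow (m : ℤ) : (tt : KK p) ^ m = HahnSeries.single m (1 : ZMod p) := by
  rw [tt, ← RatFunc.single_zpow]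

theorem norm_def' (x : KK p) :
    ‖x‖ = ((WithZeroMulInt.toNNReal (e := 2) (by norm_num)
      (Valued.v x : WithZero (Multiplicative ℤ)) : ℝ≥0) : ℝ) := by
  have h1 : ‖x‖ = (Valuation.RankOne.hom (Valued.v : Valuation (KK p) (WithZero (Multiplicative ℤ)))
    (Valued.v.restrict x) : ℝ≥0) := rfl
  rw [h1]
  show ((WithZeroMulInt.toNNReal (e := 2) (by norm_num)
    (MonoidWithZeroHom.ValueGroup₀.embedding (Valued.v.restrict x)) : ℝ≥0) : ℝ) = _
  rw [Valuation.embedding_restrict]

theorem norm_tzpow (m : ℤ) : ‖(tt : KK p) ^ m‖ = (2 : ℝ) ^ (-m) := by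
  rw [norm_def', tt_zpow, LaurentSeries.valuation_single_zpow,
    WithZeroMulInt.toNNReal_neg_apply _ WithZero.exp_ne_zero]
  have h1 : (WithZero.unzero (WithZero.exp_ne_zero (a := -m))).toAdd = -m := rfl
  rw [h1]
  simp

theorem norm_tt : ‖(tt : KK p)‖ = 1 / 2 := by
  have := norm_tzpow (p := p) 1
  rw [zpow_one] at this
  rw [this]
  norm_num

theorem norm_le_iff (x : KK p) (m : ℤ) : ‖x‖ ≤ (2 : ℝ) ^ (-m) ↔ ∀ k < m, x.coeff k = 0 := by
  rw [← norm_tzpow (p := p) m]
  have h1 : ‖x‖ ≤ ‖(tt : KK p) ^ m‖ ↔ (Valued.v x : WithZero (Multiplicative ℤ)) ≤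
      Valued.v ((tt : KK p) ^ m) := Valued.toNormedField.norm_le_iff
  rw [h1, tt_zpow, LaurentSeries.valuation_single_zpow,
    LaurentSeries.valuation_le_iff_coeff_lt_eq_zero]

theorem norm_eq_of_ne {x : KK p} (hx : x ≠ 0) : ‖x‖ = (2 : ℝ) ^ (-x.order) := by
  apply le_antisymm
  · rw [norm_le_iff]
    intro k hk
    exact HahnSeries.coeff_eq_zero_of_lt_order hk
  · by_contra h
    push Not at h
    have h2 : ‖x‖ ≤ (2 : ℝ) ^ (-(x.order + 1)) := by
      rw [norm_def', WithZeroMulInt.toNNReal_neg_apply _ ((Valuation.ne_zero_iff _).2 hx)] at h ⊢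
      rw [NNReal.coe_zpow] at h ⊢
      have h3 : ((2 : ℝ≥0) : ℝ) = 2 := rfl
      rw [h3] at h ⊢
      have h4 := (zpow_lt_zpow_iff_right₀ (by norm_num : (1 : ℝ) < 2)).1 h
      exact (zpow_le_zpow_iff_right₀ (by norm_num : (1 : ℝ) < 2)).2 (by omega)
    rw [norm_le_iff] at h2
    exact hx (HahnSeries.coeff_order_eq_zero.1 (h2 _ (by omega)))

theorem compact_ball : IsCompact (Metric.closedBall (0 : KK p) 1) := by
  let _ : TopologicalSpace (ZMod p) := ⊥
  have : DiscreteTopology (ZMod p) := ⟨rfl⟩
  let g : (ℕ → ZMod p) → KK p := fun x => HahnSeries.ofPowerSeries ℤ (ZMod p) (PowerSeries.mk x)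
  have hg : ∀ (x : ℕ → ZMod p) (n : ℤ), (g x).coeff n = if n < 0 then 0 else x n.toNat := by
    intro x n
    have := PowerSeries.coeff_coe (f := PowerSeries.mk x) n
    rw [PowerSeries.coeff_mk] at this
    by_cases hn : n < 0
    · rw [if_pos hn] at this ⊢
      exact this
    · rw [if_neg hn] at this ⊢
      have h2 : n.natAbs = n.toNat := by omega
      rw [h2] at this
      exact this
  have hc : Continuous g := by
    rw [continuous_iff_continuousAt]
    intro x
    rw [Metric.continuousAt_iff']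
    intro ε hε
    obtain ⟨N, hN⟩ := exists_pow_lt_of_lt_one hε (by norm_num : (1 / 2 : ℝ) < 1)
    have h1 : ∀ᶠ y in 𝓝 x, ∀ i ∈ Finset.range N, y i = x i := by
      rw [Filter.eventually_all_finset]
      intro i _
      have h2 : IsOpen {y : ℕ → ZMod p | y i = x i} :=
        (isOpen_discrete ({x i} : Set (ZMod p))).preimage
          (continuous_apply (A := fun _ : ℕ => ZMod p) i)
      exact h2.mem_nhds rfl
    filter_upwards [h1] with y hy
    refine lt_of_le_of_lt ?_ hN
    rw [dist_eq_norm, one_div, inv_pow, ← zpow_natCast, ← zpow_neg, norm_le_iff]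
    intro k hk
    rw [HahnSeries.coeff_sub, hg, hg]
    by_cases hk0 : k < 0
    · rw [if_pos hk0, if_pos hk0, sub_zero]
    · rw [if_neg hk0, if_neg hk0, hy _ (Finset.mem_range.2 (by omega)), sub_self]
  have h1 : Metric.closedBall (0 : KK p) 1 = Set.range g := by
    ext x
    rw [Metric.mem_closedBall, dist_zero_right]
    have h2 : (1 : ℝ) = 2 ^ (-(0 : ℤ)) := by norm_num
    rw [h2, norm_le_iff]
    constructor
    · intro h
      refine ⟨fun n => x.coeff n, ?_⟩
      ext n
      rw [hg]
      by_cases hn : n < 0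
      · rw [if_pos hn, h n hn]
      · rw [if_neg hn, Int.toNat_of_nonneg (by omega)]
    · rintro ⟨y, rfl⟩ k hk
      rw [hg, if_pos hk]
  rw [h1]
  exact isCompact_range hc

instance instProper : ProperSpace (KK p) := by
  have : LocallyCompactSpace (KK p) :=
    IsCompact.locallyCompactSpace_of_mem_nhds_of_addGroup compact_ball
      (Metric.closedBall_mem_nhds 0 zero_lt_one)
  exact .of_nontriviallyNormedField_of_weaklyLocallyCompactSpace (KK p)

end Pool.Agent.Q206.FT
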