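import Pool.Agent.Q206.FT.Ex

/-! # Certificates for the values of a polynomial in one variable -/

set_option autoImplicit false

open Polynomial Finset

namespace Pool.Agent.Q206.FT

variable {p : ℕ} [hp : Fact p.Prime]

section

theorem pow_aux {a U R : ℝ} {d i : ℕ} (hU : 0 ≤ U) (h : a ^ d ≤ R ^ (d - i)) : (a * U ^ i) ^ d ≤ R ^ (d - i) * (U ^ d) ^ i := by
  rw [mul_pow, ← pow_mul, mul_comm i d, pow_mul]
  exact mul_le_mul_of_nonneg_right h (by positivity)

theorem term_le {a U R : ℝ} {d i : ℕ} (ha : 0 ≤ a) (hU : 0 ≤ U) (hR : 0 ≤ R) (hd : 0 < d)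
    (hi : i ≤ d) (h : a ^ d ≤ R ^ (d - i)) (hUR : U ^ d ≤ R) : a * U ^ i ≤ R := by
  refine le_of_pow_le_pow_left₀ hd.ne' hR ?_
  refine (pow_aux hU h).trans ?_
  calc R ^ (d - i) * (U ^ d) ^ i ≤ R ^ (d - i) * R ^ i := by
        gcongr
    _ = R ^ d := by rw [← pow_add]; congr 1; omega

theorem term_lt {a U R : ℝ} {d i : ℕ} (ha : 0 ≤ a) (hU : 0 ≤ U) (hR : 0 < R) (hd : 0 < d)
    (hi : i ≤ d) (hi0 : 0 < i) (h : a ^ d ≤ R ^ (d - i)) (hUR : U ^ d < R) : a * U ^ i < R := by
  refine lt_of_pow_lt_pow_left₀ d hR.le ?_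
  refine (pow_aux hU h).trans_lt ?_
  calc R ^ (d - i) * (U ^ d) ^ i < R ^ (d - i) * R ^ i := by
        apply mul_lt_mul_of_pos_left _ (by positivity)
        exact pow_lt_pow_left₀ hUR (by positivity) hi0.ne'
    _ = R ^ d := by rw [← pow_add]; congr 1; omega

theorem term_lt' {a U R : ℝ} {d i : ℕ} (ha : 0 ≤ a) (hU : 0 ≤ U) (hR : 0 ≤ R) (hd : 0 < d)
    (hi : i < d) (h : a ^ d ≤ R ^ (d - i)) (hUR : R < U ^ d) : a * U ^ i < U ^ d := by
  have hU1 : 0 < U ^ d := lt_of_le_of_lt hR hUR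
  refine lt_of_pow_lt_pow_left₀ d hU1.le ?_
  refine (pow_aux hU h).trans_lt ?_
  calc R ^ (d - i) * (U ^ d) ^ i < (U ^ d) ^ (d - i) * (U ^ d) ^ i := by
        apply mul_lt_mul_of_pos_right _ (by positivity)
        exact pow_lt_pow_left₀ hUR hR (by omega)
    _ = (U ^ d) ^ d := by rw [← pow_add]; congr 1; omega

end

theorem norm_sum_lt {ι : Type*} (s : Finset ι) (f : ι → KK p) (C : ℝ) (hC : 0 < C)
    (h : ∀ i ∈ s, ‖f i‖ < C) : ‖∑ i ∈ s, f i‖ < C := by
  rcases s.eq_empty_or_nonempty with rfl | hs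
  · simpa using hC
  · obtain ⟨i, hi, h2⟩ := IsUltrametricDist.exists_norm_finsetSum_le_of_nonempty hs f
    exact h2.trans_lt (h i hi)

theorem norm_add_eq_of_lt {x y : KK p} (h : ‖y‖ < ‖x‖) : ‖x + y‖ = ‖x‖ := by
  rw [IsUltrametricDist.norm_add_eq_max_of_norm_ne_norm h.ne', max_eq_left h.le]

/-- residues -/
theorem exists_residue (u : KK p) (hu : ‖u‖ ≤ 1) : ∃ n < p, ‖u - (n : KK p)‖ < 1 := by
  have hc : ∀ (n : ℕ) (k : ℤ), ((n : KK p)).coeff k = if k = 0 then (n : ZMod p) else 0 := by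
    intro n k
    have h1 : (n : KK p) = HahnSeries.C (n : ZMod p) := (map_natCast _ n).symm
    rw [h1, HahnSeries.C_apply, HahnSeries.coeff_single]
    split_ifs <;> rfl
  refine ⟨(u.coeff 0).val, ZMod.val_lt _, ?_⟩
  have h1 : ‖u - ((u.coeff 0).val : KK p)‖ ≤ 2 ^ (-(1 : ℤ)) := by
    rw [norm_le_iff]
    intro k hk
    rw [HahnSeries.coeff_sub, hc]
    by_cases hk0 : k = 0
    · rw [if_pos hk0, hk0, ZMod.natCast_zmod_val, sub_self]
    · rw [if_neg hk0, sub_zero]
      exact (norm_le_one_iff u).1 hu k (by omega)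
  refine h1.trans_lt ?_
  norm_num

theorem norm_natCast_le (n : ℕ) : ‖(n : KK p)‖ ≤ 1 := by
  rw [norm_le_one_iff]
  intro k hk
  have h1 : (n : KK p) = HahnSeries.C (n : ZMod p) := (map_natCast _ n).symm
  rw [h1, HahnSeries.C_apply, HahnSeries.coeff_single, if_neg (by omega)]

theorem norm_pow_sub_le {x y : KK p} {r s : ℝ} (hx : ‖x‖ ≤ r) (hy : ‖y‖ ≤ r) (hs : ‖x - y‖ ≤ s)
    (i : ℕ) : ‖x ^ (i + 1) - y ^ (i + 1)‖ ≤ s * r ^ i := by
  have hr : 0 ≤ r := (norm_nonneg _).trans hx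
  have hs0 : 0 ≤ s := (norm_nonneg _).trans hs
  induction i with
  | zero => simpa using hs
  | succ i ih =>
    have h1 : x ^ (i + 1 + 1) - y ^ (i + 1 + 1) = x ^ (i + 1) * (x - y) +
        (x ^ (i + 1) - y ^ (i + 1)) * y := by ring
    rw [h1]
    refine (IsUltrametricDist.norm_add_le_max _ _).trans (max_le ?_ ?_)
    · rw [norm_mul, norm_pow, mul_comm]
      exact mul_le_mul hs (pow_le_pow_left₀ (norm_nonneg _) hx _) (by positivity) hs0
    · rw [norm_mul, pow_succ r i, ← mul_assoc]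
      exact mul_le_mul ih hy (norm_nonneg _) (by positivity)

/-- the certificate: `d` is the degree of `G`, `c` is the centre -/
def Cert (d : ℕ) (G : (KK p)[X]) (c : KK p) : Prop :=
  (∀ i ≤ d, ‖(taylor c G).coeff i‖ ^ d ≤ ‖G.eval c‖ ^ (d - i)) ∧
  ((∃ w : KK p, ∃ j : ℕ, 1 ≤ j ∧ j < d ∧ w ≠ 0 ∧ ‖tt ^ j * w ^ d‖ = ‖G.eval c‖) ∨
    ∃ w : KK p, ‖w‖ ^ d = ‖G.eval c‖ ∧ ∀ n < p, ‖G.eval (c + n * w)‖ = ‖G.eval c‖)

theorem cert_norm {d : ℕ} {G : (KK p)[X]} {c : KK p} (hG : G.Monic) (hd : G.natDegree = d)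
    (hd0 : 0 < d) (h : Cert d G c) (y : KK p) :
    ‖G.eval y‖ = max (‖y - c‖ ^ d) ‖G.eval c‖ := by
  obtain ⟨h1, h2⟩ := h
  set g := taylor c G with hg
  have hgd : g.natDegree = d := by rw [hg, natDegree_taylor, hd]
  have hlead : g.coeff d = 1 := by
    rw [hg, ← hd, coeff_taylor_natDegree]
    exact hG
  have hg0 : g.coeff 0 = G.eval c := by rw [hg, taylor_coeff_zero]
  have hsum : ∀ u : KK p, G.eval (c + u) = ∑ i ∈ range (d + 1), g.coeff i * u ^ i := by
    intro u
    have h3 : G.eval (c + u) = g.eval u := by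
      rw [hg, taylor_eval, add_comm]
    rw [h3, eval_eq_sum_range, hgd]
  have hyc : y = c + (y - c) := by ring
  set u := y - c with hu
  have hR : 0 ≤ ‖G.eval c‖ := norm_nonneg _
  have hU : 0 ≤ ‖u‖ := norm_nonneg _
  rw [hyc, hsum]
  rcases lt_trichotomy (‖u‖ ^ d) ‖G.eval c‖ with h3 | h3 | h3
  · rw [max_eq_right h3.le, sum_range_succ', pow_zero, mul_one, hg0, add_comm]
    apply norm_add_eq_of_lt
    refine norm_sum_lt _ _ _ (lt_of_le_of_lt (by positivity) h3) fun i hi => ?_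
    rw [norm_mul, norm_pow]
    have := mem_range.1 hi
    exact term_lt (norm_nonneg _) hU (lt_of_le_of_lt (by positivity) h3) hd0 (by omega)
      (by omega) (h1 (i + 1) (by omega)) h3
  · rw [h3, max_self]
    have hbd : ∀ i ≤ d, ‖g.coeff i‖ * ‖u‖ ^ i ≤ ‖G.eval c‖ := fun i hi =>
      term_le (norm_nonneg _) hU hR hd0 hi (h1 i hi) h3.le
    rcases h2 with ⟨w, j, hj1, hj2, hw, hw2⟩ | ⟨w, hw1, hw2⟩
    · exfalso
      have hu0 : u ≠ 0 := by
        intro h4
        rw [h4, norm_zero, zero_pow hd0.ne', ← hw2] at h3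
        have h5 : (tt ^ j * w ^ d : KK p) ≠ 0 := by
          refine mul_ne_zero (pow_ne_zero _ ?_) (pow_ne_zero _ hw)
          intro h6
          have := norm_tt (p := p)
          rw [h6, norm_zero] at this
          norm_num at this
        exact (norm_pos_iff.2 h5).ne h3
      rw [← hw2, norm_mul, norm_pow, norm_pow, norm_tt, norm_eq_of_ne hu0, norm_eq_of_ne hw,
        one_div, inv_pow, ← zpow_natCast (2 : ℝ), ← zpow_neg, ← zpow_natCast, ← zpow_natCast,
        ← zpow_mul, ← zpow_mul, ← zpow_add₀ (by norm_num : (2 : ℝ) ≠ 0)] at h3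
      have h4 := (zpow_right_inj₀ (by norm_num : (0 : ℝ) < 2) (by norm_num)).1 h3
      have h5 : (d : ℤ) ∣ j := ⟨u.order - w.order, by linarith⟩
      have h6 := Int.le_of_dvd (by omega) h5
      omega
    · by_cases hG0 : G.eval c = 0
      · have hu0 : u = 0 := by
          rw [hG0, norm_zero] at h3
          have := pow_eq_zero_iff hd0.ne' |>.1 h3
          exact norm_eq_zero.1 this
        rw [← hsum, hu0, add_zero]
      · have hRpos : 0 < ‖G.eval c‖ := norm_pos_iff.2 hG0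
        have hwu : ‖u‖ = ‖w‖ := by
          have h4 : ‖u‖ ^ d = ‖w‖ ^ d := by rw [h3, hw1]
          exact (pow_left_inj₀ (norm_nonneg _) (norm_nonneg _) hd0.ne').1 h4
        have hw0 : w ≠ 0 := by
          intro h4
          rw [h4, norm_zero, zero_pow hd0.ne'] at hw1
          exact hRpos.ne hw1
        obtain ⟨n, hn, h4⟩ := exists_residue (u / w) (by rw [norm_div, hwu, div_self]; exact
          (norm_pos_iff.2 hw0).ne')
        have h5 : ‖u - n * w‖ < ‖w‖ := by
          have h6 : u - n * w = (u / w - n) * w := by field_simp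
          rw [h6, norm_mul]
          exact mul_lt_of_lt_one_left (norm_pos_iff.2 hw0) h4
        have h6 : ‖∑ i ∈ range (d + 1), g.coeff i * u ^ i - ∑ i ∈ range (d + 1),
            g.coeff i * (n * w) ^ i‖ < ‖G.eval c‖ := by
          rw [← sum_sub_distrib]
          refine norm_sum_lt _ _ _ hRpos fun i hi => ?_
          rw [← mul_sub, norm_mul]
          rcases Nat.eq_zero_or_pos i with rfl | hi0
          · simpa using hRpos
          obtain ⟨i, rfl⟩ : ∃ k, i = k + 1 := ⟨i - 1, by omega⟩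
          have h7 : ‖u ^ (i + 1) - (n * w) ^ (i + 1)‖ ≤ ‖u - n * w‖ * ‖w‖ ^ i := by
            refine norm_pow_sub_le hwu.le ?_ le_rfl i
            rw [norm_mul]
            exact mul_le_of_le_one_left (norm_nonneg _) (norm_natCast_le n)
          have h8 := hbd (i + 1) (by have := mem_range.1 hi; omega)
          rw [hwu] at h8
          by_cases hgi : g.coeff (i + 1) = 0
          · rw [hgi, norm_zero, zero_mul]
            exact hRpos
          · have h9 : ‖g.coeff (i + 1)‖ * ‖u ^ (i + 1) - (n * w) ^ (i + 1)‖ <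
                ‖g.coeff (i + 1)‖ * ‖w‖ ^ (i + 1) := by
              apply mul_lt_mul_of_pos_left _ (norm_pos_iff.2 hgi)
              refine h7.trans_lt ?_
              rw [pow_succ, mul_comm]
              exact mul_lt_mul_of_pos_left h5 (by have := norm_pos_iff.2 hw0; positivity)
            exact h9.trans_le h8
        have h7 : ‖∑ i ∈ range (d + 1), g.coeff i * (n * w) ^ i‖ = ‖G.eval c‖ := by
          rw [← hsum]
          exact hw2 n hn
        have h8 : ∑ i ∈ range (d + 1), g.coeff i * u ^ i = ∑ i ∈ range (d + 1),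
            g.coeff i * (n * w) ^ i + (∑ i ∈ range (d + 1), g.coeff i * u ^ i -
              ∑ i ∈ range (d + 1), g.coeff i * (n * w) ^ i) := by ring
        rw [h8, norm_add_eq_of_lt (by rw [h7]; exact h6), h7]
  · rw [max_eq_left h3.le, sum_range_succ, hlead, one_mul, add_comm, ← norm_pow]
    apply norm_add_eq_of_lt
    rw [norm_pow]
    refine norm_sum_lt _ _ _ (lt_of_le_of_lt hR h3) fun i hi => ?_
    rw [norm_mul, norm_pow]
    exact term_lt' (norm_nonneg _) hU hR hd0 (mem_range.1 hi)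
      (h1 i (mem_range.1 hi).le) h3

end Pool.Agent.Q206.FT
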