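import Pool.Agent.Q206.FT.Cert

/-! # Existence of certificates -/

set_option autoImplicit false

open Polynomial Finset

namespace Pool.Agent.Q206.FT

variable {p : ℕ} [hp : Fact p.Prime]

/-- the Newton polygon of an irreducible polynomial -/
theorem slope_of_irreducible (H : (KK p)[X]) (hH : H.Monic) (hirr : Irreducible H) (i : ℕ)
    (hi : i ≤ H.natDegree) :
    ‖H.coeff i‖ ^ H.natDegree ≤ ‖H.coeff 0‖ ^ (H.natDegree - i) := by
  rcases hi.eq_or_lt with rfl | hi
  · have h1 : H.coeff H.natDegree = 1 := hH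
    rw [h1, norm_one, one_pow, Nat.sub_self, pow_zero]
  have : Fact (Irreducible H) := ⟨hirr⟩
  have hfin : FiniteDimensional (KK p) (AdjoinRoot H) := (AdjoinRoot.powerBasis hirr.ne_zero).finite
  have hmin : minpoly (KK p) (AdjoinRoot.root H) = H := by
    rw [AdjoinRoot.minpoly_root hirr.ne_zero, hH.leadingCoeff, inv_one, C_1, mul_one]
  have h1 : spectralValue (minpoly (KK p) (AdjoinRoot.root H)) =
      ‖(minpoly (KK p) (AdjoinRoot.root H)).coeff 0‖ ^
        (1 / (minpoly (KK p) (AdjoinRoot.root H)).natDegree : ℝ) :=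
    spectralNorm.spectralNorm_eq_norm_coeff_zero_rpow (K := KK p) (L := AdjoinRoot H)
      (x := AdjoinRoot.root H)
  rw [hmin] at h1
  have h2 : spectralValueTerms H i ≤ spectralValue H :=
    le_ciSup (spectralValueTerms_bddAbove H) i
  rw [h1, spectralValueTerms_of_lt_natDegree H hi] at h2
  set d := H.natDegree with hd
  have hd0 : 0 < d := by omega
  have hdi : 0 < d - i := by omega
  have h3 : (d : ℝ) - i = ((d - i : ℕ) : ℝ) := by
    rw [Nat.cast_sub hi.le]
  rw [h3] at h2
  have h4 : (‖H.coeff i‖ ^ (1 / ((d - i : ℕ) : ℝ))) ^ (d * (d - i)) ≤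
      (‖H.coeff 0‖ ^ (1 / (d : ℝ))) ^ (d * (d - i)) :=
    pow_le_pow_left₀ (by positivity) h2 _
  have h5 : (‖H.coeff i‖ ^ (1 / ((d - i : ℕ) : ℝ))) ^ (d * (d - i)) = ‖H.coeff i‖ ^ d := by
    rw [← Real.rpow_natCast, ← Real.rpow_mul (norm_nonneg _), ← Real.rpow_natCast]
    congr 1
    push_cast
    have : ((d - i : ℕ) : ℝ) ≠ 0 := by positivity
    field_simp
  have h6 : (‖H.coeff 0‖ ^ (1 / (d : ℝ))) ^ (d * (d - i)) = ‖H.coeff 0‖ ^ (d - i) := by
    rw [← Real.rpow_natCast, ← Real.rpow_mul (norm_nonneg _), ← Real.rpow_natCast]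
    congr 1
    push_cast
    have : (d : ℝ) ≠ 0 := by positivity
    field_simp
  rw [h5, h6] at h4
  exact h4

theorem exists_cert (G : (KK p)[X]) (hG : G.Monic) (hirr : Irreducible G) :
    ∃ c, Cert G.natDegree G c := by
  have hd0 : 0 < G.natDegree := by
    rcases Nat.eq_zero_or_pos G.natDegree with h | h
    · exact absurd (by rw [hG.natDegree_eq_zero] at h; rw [h]; exact isUnit_one) hirr.not_isUnit
    · exact h
  set d := G.natDegree with hd
  obtain ⟨c, hc⟩ := G.exists_forall_norm_le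
  have hslope : ∀ i ≤ d, ‖(taylor c G).coeff i‖ ^ d ≤ ‖G.eval c‖ ^ (d - i) := by
    intro i hi
    have h1 : (taylor c G).Monic := by
      rw [Monic, leadingCoeff_taylor]
      exact hG
    have h2 : Irreducible (taylor c G) := by
      have : Irreducible (taylorEquiv c G) := (MulEquiv.irreducible_iff (taylorEquiv c)).2 hirr
      exact this
    have h3 := slope_of_irreducible _ h1 h2 i (by rw [natDegree_taylor]; exact hi)
    rw [natDegree_taylor, taylor_coeff_zero] at h3
    exact h3
  refine ⟨c, hslope, ?_⟩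
  by_cases hw : ∃ w : KK p, ‖w‖ ^ d = ‖G.eval c‖
  · right
    obtain ⟨w, hw⟩ := hw
    refine ⟨w, hw, fun n _ => le_antisymm ?_ (hc _)⟩
    have h1 : G.eval (c + n * w) = ∑ i ∈ range (d + 1), (taylor c G).coeff i * (n * w) ^ i := by
      have h3 : G.eval (c + n * w) = (taylor c G).eval (n * w) := by
        rw [taylor_eval, add_comm]
      rw [h3, eval_eq_sum_range, natDegree_taylor]
    rw [h1]
    refine IsUltrametricDist.norm_sum_le_of_forall_le_of_nonneg (norm_nonneg _) fun i hi => ?_
    rw [norm_mul, norm_pow]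
    have h2 : ‖(n : KK p) * w‖ ≤ ‖w‖ := by
      rw [norm_mul]
      exact mul_le_of_le_one_left (norm_nonneg _) (norm_natCast_le n)
    have hi' : i ≤ d := by have := mem_range.1 hi; omega
    calc ‖(taylor c G).coeff i‖ * ‖(n : KK p) * w‖ ^ i ≤ ‖(taylor c G).coeff i‖ * ‖w‖ ^ i := by
          gcongr
      _ ≤ ‖G.eval c‖ := term_le (norm_nonneg _) (norm_nonneg _) (norm_nonneg _) hd0 hi'
          (hslope i hi') hw.le
  · left
    push Not at hw
    have hGc : G.eval c ≠ 0 := by
      intro h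
      apply hw 0
      rw [h, norm_zero, zero_pow hd0.ne']
    have hdz : (0 : ℤ) < d := by exact_mod_cast hd0
    set m := (G.eval c).order with hm
    have hn := norm_eq_of_ne hGc
    have h1 := Int.emod_nonneg m hdz.ne'
    have h2 := Int.emod_lt_of_pos m hdz
    have h3 := Int.emod_add_mul_ediv m d
    have key : ‖(tt : KK p) ^ (m % d).toNat * (tt ^ (m / d)) ^ d‖ = ‖G.eval c‖ := by
      rw [← zpow_natCast, ← zpow_natCast (tt ^ (m / (d : ℤ)) : KK p), ← zpow_mul, ← zpow_add₀,
        norm_tzpow, hn, Int.toNat_of_nonneg h1]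
      · congr 2
        linarith [mul_comm (d : ℤ) (m / d)]
      · intro h
        have := norm_tt (p := p)
        rw [h, norm_zero] at this
        norm_num at this
    have ht : (tt : KK p) ≠ 0 := by
      intro h
      have := norm_tt (p := p)
      rw [h, norm_zero] at this
      norm_num at this
    refine ⟨tt ^ (m / d), (m % d).toNat, ?_, by omega, zpow_ne_zero _ ht, key⟩
    by_contra h4
    have h5 : (m % d).toNat = 0 := by omega
    rw [h5, pow_zero, one_mul] at key
    apply hw (tt ^ (m / (d : ℤ)))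
    rw [← key, norm_pow]

/-- the certificate for a factor, which may be trivial -/
def Cert0 (d : ℕ) (G : (KK p)[X]) (c : KK p) : Prop :=
  G.Monic ∧ G.natDegree = d ∧ (d = 0 ∨ Cert d G c)

theorem cert0_norm {d : ℕ} {G : (KK p)[X]} {c : KK p} (h : Cert0 d G c) (y : KK p) :
    ‖G.eval y‖ = max (‖y - c‖ ^ d) ‖G.eval c‖ := by
  obtain ⟨h1, h2, h3⟩ := h
  rcases Nat.eq_zero_or_pos d with hd | hd
  · rw [hd] at h2
    rw [h1.natDegree_eq_zero] at h2
    rw [h2, hd]
    simp
  · exact cert_norm h1 h2 hd (h3.resolve_left hd.ne') y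

theorem exists_factors (n : ℕ) : ∀ F : (KK p)[X], F ≠ 0 → F.natDegree ≤ n →
    ∃ (A : KK p) (G : Fin n → (KK p)[X]) (c : Fin n → KK p), F = C A * ∏ j, G j ∧
      ∀ j, (G j).natDegree ≤ n ∧ Cert0 (G j).natDegree (G j) (c j) := by
  induction n with
  | zero =>
    intro F _ hF
    exact ⟨F.coeff 0, fun _ => 1, fun _ => 0, by
      rw [univ_eq_empty, prod_empty, mul_one]
      exact eq_C_of_natDegree_le_zero hF, fun j => j.elim0⟩
  | succ n ih =>
    intro F hF0 hF
    have h1 : Cert0 0 (1 : (KK p)[X]) 0 := ⟨monic_one, natDegree_one, Or.inl rfl⟩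
    by_cases hF1 : F.natDegree ≤ n
    · obtain ⟨A, G, c, h2, h3⟩ := ih F hF0 hF1
      refine ⟨A, Fin.cons 1 G, Fin.cons 0 c, ?_, fun j => ?_⟩
      · rw [Fin.prod_univ_succ]
        simpa using h2
      · refine Fin.cases ?_ (fun j => ?_) j
        · simpa using h1
        · simpa using ⟨(h3 j).1.trans (Nat.le_succ n), (h3 j).2⟩
    · obtain ⟨g, hg1, hg2, hg3⟩ := exists_monic_irreducible_factor F
        (not_isUnit_of_natDegree_pos F (by omega))
      obtain ⟨F', rfl⟩ := hg3
      have hF'0 : F' ≠ 0 := right_ne_zero_of_mul hF0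
      have hgpos : 0 < g.natDegree := by
        rcases Nat.eq_zero_or_pos g.natDegree with h | h
        · exact absurd (by rw [hg1.natDegree_eq_zero] at h; rw [h]; exact isUnit_one)
            hg2.not_isUnit
        · exact h
      rw [natDegree_mul hg1.ne_zero hF'0] at hF
      obtain ⟨A, G, c, h2, h3⟩ := ih F' hF'0 (by omega)
      obtain ⟨c0, hc0⟩ := exists_cert g hg1 hg2
      refine ⟨A, Fin.cons g G, Fin.cons c0 c, ?_, fun j => ?_⟩
      · rw [Fin.prod_univ_succ]
        simp only [Fin.cons_zero, Fin.cons_succ]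
        rw [h2]
        ring
      · refine Fin.cases ?_ (fun j => ?_) j
        · simp only [Fin.cons_zero]
          exact ⟨by omega, hg1, rfl, Or.inr hc0⟩
        · simp only [Fin.cons_succ]
          exact ⟨(h3 j).1.trans (Nat.le_succ n), (h3 j).2⟩

end Pool.Agent.Q206.FT
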