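import Pool.Agent.Q206.FT.Cert2

/-! # Leading terms of a certified polynomial -/

set_option autoImplicit false

open Polynomial Finset

namespace Pool.Agent.Q206.FT

variable {p : ℕ} [hp : Fact p.Prime]

theorem cert0_sum {d : ℕ} {G : (KK p)[X]} {c : KK p} (h : Cert0 d G c) (u : KK p) :
    G.eval (c + u) = ∑ i ∈ range (d + 1), (taylor c G).coeff i * u ^ i := by
  have h3 : G.eval (c + u) = (taylor c G).eval u := by
    rw [taylor_eval, add_comm]
  rw [h3, eval_eq_sum_range, natDegree_taylor, h.2.1]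

theorem cert0_lead {d : ℕ} {G : (KK p)[X]} {c : KK p} (h : Cert0 d G c) :
    (taylor c G).coeff d = 1 := by
  obtain ⟨h1, h2, _⟩ := h
  rw [← h2, coeff_taylor_natDegree]
  exact h1

theorem cert0_slope {d : ℕ} {G : (KK p)[X]} {c : KK p} (h : Cert0 d G c) (i : ℕ) (hi : i ≤ d) :
    ‖(taylor c G).coeff i‖ ^ d ≤ ‖G.eval c‖ ^ (d - i) := by
  rcases h.2.2 with h0 | h0
  · obtain rfl : i = 0 := by omega
    rw [h0]
    simp
  · exact h0.1 i hi

theorem cert0_far {d : ℕ} {G : (KK p)[X]} {c : KK p} (h : Cert0 d G c) (y : KK p)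
    (hy : ‖G.eval c‖ < ‖y - c‖ ^ d) : ‖G.eval y - (y - c) ^ d‖ < ‖y - c‖ ^ d := by
  have hyc : y = c + (y - c) := by ring
  set u := y - c with hu
  have h0 : 0 < ‖u‖ ^ d := (norm_nonneg _).trans_lt hy
  rw [hyc, cert0_sum h, sum_range_succ, cert0_lead h, one_mul, add_sub_cancel_right]
  refine norm_sum_lt _ _ _ h0 fun i hi => ?_
  have hi' := mem_range.1 hi
  rw [norm_mul, norm_pow]
  exact term_lt' (norm_nonneg _) (norm_nonneg _) (norm_nonneg _) (by omega) hi'
    (cert0_slope h i hi'.le) hy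

theorem cert0_close {d : ℕ} {G : (KK p)[X]} {c : KK p} (h : Cert0 d G c) (y : KK p)
    (hy : ‖y - c‖ ^ d < ‖G.eval c‖) : ‖G.eval y - G.eval c‖ < ‖G.eval c‖ := by
  have hyc : y = c + (y - c) := by ring
  set u := y - c with hu
  have h0 : 0 < ‖G.eval c‖ := lt_of_le_of_lt (by positivity) hy
  have h1 : G.eval y = ∑ i ∈ range (d + 1), (taylor c G).coeff i * u ^ i := by
    rw [← cert0_sum h, ← hyc]
  rw [h1, sum_range_succ', pow_zero, mul_one, taylor_coeff_zero, add_sub_cancel_right]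
  refine norm_sum_lt _ _ _ h0 fun i hi => ?_
  have hi' := mem_range.1 hi
  rw [norm_mul, norm_pow]
  exact term_lt (norm_nonneg _) (norm_nonneg _) h0 (by omega) (by omega) (by omega)
    (cert0_slope h (i + 1) (by omega)) hy

theorem cert0_near {d : ℕ} {G : (KK p)[X]} {c : KK p} (h : Cert0 d G c) (y y' : KK p)
    (hy : ‖y - y'‖ < ‖y - c‖) : ‖G.eval y - G.eval y'‖ < ‖G.eval y‖ := by
  have hyc : y = c + (y - c) := by ring
  have hyc' : y' = c + (y' - c) := by ring
  have hN := cert0_norm h y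
  set u := y - c with hu
  set u' := y' - c with hu'
  have huu : y - y' = u - u' := by rw [hu, hu']; ring
  rw [huu] at hy
  have hupos : 0 < ‖u‖ := (norm_nonneg _).trans_lt hy
  have hpos : 0 < ‖G.eval y‖ := by
    rw [hN]
    exact lt_of_lt_of_le (by positivity) (le_max_left _ _)
  have hu'n : ‖u'‖ ≤ ‖u‖ := by
    have h1 : u' = u + -(u - u') := by ring
    rw [h1, norm_add_eq_of_lt]
    rw [norm_neg]
    exact hy
  have h1 : G.eval y = ∑ i ∈ range (d + 1), (taylor c G).coeff i * u ^ i := by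
    rw [← cert0_sum h, ← hyc]
  have h2 : G.eval y' = ∑ i ∈ range (d + 1), (taylor c G).coeff i * u' ^ i := by
    rw [← cert0_sum h, ← hyc']
  have h3 : ‖G.eval y - G.eval y'‖ = ‖∑ i ∈ range (d + 1), (taylor c G).coeff i *
      (u ^ i - u' ^ i)‖ := by
    rw [h1, h2, ← sum_sub_distrib]
    congr 1
    exact sum_congr rfl fun i _ => by ring
  rw [h3]
  refine norm_sum_lt _ _ _ hpos fun i hi => ?_
  have hi' := mem_range.1 hi
  rcases Nat.eq_zero_or_pos i with rfl | hi0
  · simpa using hpos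
  obtain ⟨i, rfl⟩ : ∃ k, i = k + 1 := ⟨i - 1, by omega⟩
  have h4 : ‖(taylor c G).coeff (i + 1)‖ * ‖u‖ ^ (i + 1) ≤ ‖G.eval y‖ := by
    rw [hN]
    rcases le_or_gt (‖u‖ ^ d) ‖G.eval c‖ with h5 | h5
    · exact (term_le (norm_nonneg _) (norm_nonneg _) (norm_nonneg _) (by omega) (by omega)
        (cert0_slope h (i + 1) (by omega)) h5).trans (le_max_right _ _)
    · rcases (show i + 1 ≤ d by omega).eq_or_lt with h6 | h6
      · rw [h6, cert0_lead h, norm_one, one_mul]
        exact le_max_left _ _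
      · exact (term_lt' (norm_nonneg _) (norm_nonneg _) (norm_nonneg _) (by omega) h6
          (cert0_slope h (i + 1) h6.le) h5).le.trans (le_max_left _ _)
  rw [norm_mul]
  by_cases hg : (taylor c G).coeff (i + 1) = 0
  · rw [hg, norm_zero, zero_mul]
    exact hpos
  · have h5 : ‖u ^ (i + 1) - u' ^ (i + 1)‖ ≤ ‖u - u'‖ * ‖u‖ ^ i :=
      norm_pow_sub_le le_rfl hu'n le_rfl i
    refine lt_of_lt_of_le (mul_lt_mul_of_pos_left ?_ (norm_pos_iff.2 hg)) h4
    refine h5.trans_lt ?_
    rw [pow_succ, mul_comm (‖u‖ ^ i)]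
    exact mul_lt_mul_of_pos_right hy (by positivity)

/-! ## leading terms -/

/-- the same leading coefficient, and valuations congruent modulo `N` -/
def Req (N : ℕ) (u v : KK p) : Prop :=
  (u = 0 ↔ v = 0) ∧ u.leadingCoeff = v.leadingCoeff ∧ (N : ℤ) ∣ u.order - v.order

theorem Req.refl (N : ℕ) (u : KK p) : Req N u u := ⟨Iff.rfl, rfl, by simp⟩

theorem Req.symm {N : ℕ} {u v : KK p} (h : Req N u v) : Req N v u :=
  ⟨h.1.symm, h.2.1.symm, by
    rw [← neg_sub]
    exact (dvd_neg).2 h.2.2⟩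

theorem Req.trans {N : ℕ} {u v w : KK p} (h : Req N u v) (h' : Req N v w) : Req N u w :=
  ⟨h.1.trans h'.1, h.2.1.trans h'.2.1, by
    have : u.order - w.order = (u.order - v.order) + (v.order - w.order) := by ring
    rw [this]
    exact dvd_add h.2.2 h'.2.2⟩

theorem Req.mul {N : ℕ} {u v u' v' : KK p} (h : Req N u v) (h' : Req N u' v') :
    Req N (u * u') (v * v') := by
  refine ⟨?_, ?_, ?_⟩
  · rw [mul_eq_zero, mul_eq_zero, h.1, h'.1]
  · rw [HahnSeries.leadingCoeff_mul, HahnSeries.leadingCoeff_mul, h.2.1, h'.2.1]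
  · by_cases h0 : u = 0
    · rw [h0, h.1.1 h0, zero_mul, zero_mul, sub_self]
      exact dvd_zero _
    by_cases h0' : u' = 0
    · rw [h0', h'.1.1 h0', mul_zero, mul_zero, sub_self]
      exact dvd_zero _
    rw [HahnSeries.order_mul h0 h0', HahnSeries.order_mul (fun h1 => h0 (h.1.2 h1))
      (fun h1 => h0' (h'.1.2 h1))]
    have h2 := dvd_add h.2.2 h'.2.2
    have h3 : u.order + u'.order - (v.order + v'.order) =
        u.order - v.order + (u'.order - v'.order) := by ring
    rw [h3]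
    exact h2

theorem Req.pow {N : ℕ} {u v : KK p} (h : Req N u v) (n : ℕ) : Req N (u ^ n) (v ^ n) := by
  induction n with
  | zero => rw [pow_zero, pow_zero]; exact Req.refl _ _
  | succ n ih => rw [pow_succ, pow_succ]; exact ih.mul h

theorem Req.prod {N : ℕ} {J : Type} (s : Finset J) {f g : J → KK p} (h : ∀ j, Req N (f j) (g j)) :
    Req N (∏ j ∈ s, f j) (∏ j ∈ s, g j) := by
  classical
  induction s using Finset.induction_on with
  | empty => rw [prod_empty, prod_empty]; exact Req.refl _ _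
  | insert a s ha ih => rw [prod_insert ha, prod_insert ha]; exact (h a).mul ih

theorem Req.of_lt (N : ℕ) {u v : KK p} (h : ‖u - v‖ < ‖u‖) : Req N u v := by
  have hu : u ≠ 0 := by
    rintro rfl
    rw [norm_zero] at h
    exact absurd h (not_lt.2 (norm_nonneg _))
  have hvn : ‖v‖ = ‖u‖ := by
    have h1 : v = u + -(u - v) := by ring
    rw [h1, norm_add_eq_of_lt]
    rwa [norm_neg]
  have hv : v ≠ 0 := by
    rintro rfl
    rw [norm_zero] at hvn
    exact hu (norm_eq_zero.1 hvn.symm)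
  have ho : u.order = v.order := by
    rw [norm_eq_of_ne hu, norm_eq_of_ne hv] at hvn
    have := (zpow_right_inj₀ (by norm_num : (0 : ℝ) < 2) (by norm_num)).1 hvn
    omega
  refine ⟨⟨fun h => absurd h hu, fun h => absurd h hv⟩, ?_, ?_⟩
  · rw [HahnSeries.leadingCoeff_eq, HahnSeries.leadingCoeff_eq, ← ho]
    have h1 : ‖u - v‖ ≤ 2 ^ (-(u.order + 1)) := by
      rcases eq_or_ne (u - v) 0 with h2 | h2
      · rw [h2, norm_zero]
        positivity
      · rw [norm_eq_of_ne h2, norm_eq_of_ne hu] at h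
        rw [norm_eq_of_ne h2]
        have h3 := (zpow_lt_zpow_iff_right₀ (by norm_num : (1 : ℝ) < 2)).1 h
        exact (zpow_le_zpow_iff_right₀ (by norm_num : (1 : ℝ) < 2)).2 (by omega)
    have h2 := (norm_le_iff _ _).1 h1 u.order (by omega)
    rw [HahnSeries.coeff_sub] at h2
    exact sub_eq_zero.1 h2
  · rw [ho, sub_self]
    exact dvd_zero _

theorem Req.tzpow (N : ℕ) (u : KK p) (k : ℤ) : Req N u (tt ^ ((N : ℤ) * k) * u) := by
  have h0 : (tt : KK p) ^ ((N : ℤ) * k) ≠ 0 := by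
    rw [tt_zpow]
    exact HahnSeries.single_ne_zero one_ne_zero
  refine ⟨?_, ?_, ?_⟩
  · rw [mul_eq_zero]
    tauto
  · rw [HahnSeries.leadingCoeff_mul, tt_zpow, HahnSeries.leadingCoeff_of_single, one_mul]
  · by_cases hu : u = 0
    · rw [hu, mul_zero, sub_self]
      exact dvd_zero _
    · rw [HahnSeries.order_mul h0 hu, tt_zpow, HahnSeries.order_single one_ne_zero]
      exact ⟨-k, by ring⟩

end Pool.Agent.Q206.FT
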