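import Pool.Agent.Q206.FT.Base

/-! # Images of additive polynomial maps of several variables are closed -/

set_option autoImplicit false

open Finset

namespace Pool.Agent.Q206.FT

section

/-- coercive continuous maps have closed images -/
theorem closed_of_coercive {E F : Type*} [NormedAddCommGroup E] [ProperSpace E]
    [NormedAddCommGroup F] (f : E → F) (hf : Continuous f) (Z : Set E) (hZ : IsClosed Z)
    (h : ∀ R : ℝ, ∃ R' : ℝ, ∀ z ∈ Z, ‖f z‖ ≤ R → ‖z‖ ≤ R') : IsClosed (f '' Z) := by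
  refine isClosed_of_closure_subset fun x hx => ?_
  obtain ⟨R', hR'⟩ := h (‖x‖ + 1)
  have h1 : IsCompact (Z ∩ Metric.closedBall 0 R') :=
    (isCompact_closedBall 0 R').inter_left hZ
  have h2 : IsClosed (f '' (Z ∩ Metric.closedBall 0 R')) := (h1.image hf).isClosed
  have h3 : x ∈ closure (f '' (Z ∩ Metric.closedBall 0 R')) := by
    rw [Metric.mem_closure_iff] at hx ⊢
    intro ε hε
    obtain ⟨y, ⟨z, hz, rfl⟩, hy⟩ := hx (min ε 1) (lt_min hε one_pos)
    refine ⟨f z, ⟨z, ⟨hz, ?_⟩, rfl⟩, lt_of_lt_of_le hy (min_le_left _ _)⟩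
    rw [mem_closedBall_zero_iff]
    apply hR' z hz
    have h4 : ‖x - f z‖ < 1 := by
      rw [← dist_eq_norm]
      exact lt_of_lt_of_le hy (min_le_right _ _)
    have h5 : ‖f z‖ ≤ ‖x‖ + ‖f z - x‖ := by
      have := norm_add_le x (f z - x)
      rwa [add_sub_cancel] at this
    rw [norm_sub_rev] at h4
    linarith
  rw [h2.closure_eq] at h3
  obtain ⟨z, hz, rfl⟩ := h3
  exact ⟨z, hz.1, rfl⟩

theorem pow_small {m n : ℕ} (h : m < n) (ε : ℝ) (hε : 0 < ε) :
    ∃ C : ℝ, 0 ≤ C ∧ ∀ r : ℝ, 0 ≤ r → r ^ m ≤ ε * r ^ n + C := by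
  refine ⟨(max 1 (1 / ε)) ^ m, by positivity, fun r hr => ?_⟩
  by_cases h1 : r ≤ max 1 (1 / ε)
  · have h2 : r ^ m ≤ (max 1 (1 / ε)) ^ m := pow_le_pow_left₀ hr h1 m
    have h3 : 0 ≤ ε * r ^ n := by positivity
    linarith
  · push Not at h1
    have h2 : 1 < r := lt_of_le_of_lt (le_max_left _ _) h1
    have h3 : 1 / ε < r := lt_of_le_of_lt (le_max_right _ _) h1
    have h4 : r ^ n = r ^ m * r ^ (n - m) := by rw [← pow_add]; congr 1; omega
    have h5 : r ≤ r ^ (n - m) := by
      calc r = r ^ 1 := (pow_one r).symm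
        _ ≤ r ^ (n - m) := pow_le_pow_right₀ h2.le (by omega)
    have h6 : 1 ≤ ε * r ^ (n - m) := by
      have : 1 ≤ ε * r := by
        rw [div_lt_iff₀ hε] at h3
        linarith
      exact this.trans (mul_le_mul_of_nonneg_left h5 hε.le)
    have h7 : 0 ≤ (max 1 (1 / ε)) ^ m := by positivity
    calc r ^ m = r ^ m * 1 := (mul_one _).symm
      _ ≤ r ^ m * (ε * r ^ (n - m)) := mul_le_mul_of_nonneg_left h6 (by positivity)
      _ = ε * r ^ n := by rw [h4]; ring
      _ ≤ _ := by linarith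

end

variable {p : ℕ} [hp : Fact p.Prime]

instance inst_char : CharP (KK p) p :=
  charP_of_injective_ringHom (f := (HahnSeries.C : ZMod p →+* HahnSeries ℤ (ZMod p)))
    HahnSeries.C_injective p

instance inst_exp : ExpChar (KK p) p := inferInstance

section

variable {κ : Type}

/-- the additive map `x ↦ ∑_{j < n} b_j x ^ (p ^ j)` with coefficients in `K ^ κ` -/
noncomputable def ff (n : ℕ) (b : ℕ → κ → KK p) (x : KK p) : κ → KK p :=
  fun k => ∑ j ∈ range n, b j k * x ^ (p ^ j)

theorem ff_add (n : ℕ) (b : ℕ → κ → KK p) (x y : KK p) :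
    ff n b (x + y) = ff n b x + ff n b y := by
  funext k
  simp only [ff, Pi.add_apply, ← sum_add_distrib]
  refine sum_congr rfl fun j _ => ?_
  rw [add_pow_char_pow]
  ring

theorem ff_zero (n : ℕ) (b : ℕ → κ → KK p) : ff n b 0 = 0 := by
  have := ff_add n b 0 0
  rw [add_zero] at this
  exact left_eq_add.1 this

theorem ff_continuous (n : ℕ) (b : ℕ → κ → KK p) : Continuous (ff n b) := by
  unfold ff
  fun_prop

variable {ι : Type} [Fintype ι]

/-- an additive polynomial map of several variables -/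
noncomputable def FF (D : ι → ℕ) (a : ι → ℕ → κ → KK p) (z : ι → KK p) : κ → KK p :=
  ∑ i, ff (D i) (a i) (z i)

theorem FF_continuous (D : ι → ℕ) (a : ι → ℕ → κ → KK p) : Continuous (FF D a) := by
  unfold FF
  refine continuous_finsetSum _ fun i _ => ?_
  exact (ff_continuous _ _).comp (continuous_apply i)

variable [Fintype κ]

/-- independence of the leading coefficients -/
def Indep (D : ι → ℕ) (a : ι → ℕ → κ → KK p) : Prop :=
  ∀ c : ι → KK p, (∀ i, D i = 0 → c i = 0) →
    (∑ i, (fun k => a i (D i - 1) k * c i ^ (p ^ (D i - 1))) : κ → KK p) = 0 → c = 0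

theorem closed_of_indep (D : ι → ℕ) (a : ι → ℕ → κ → KK p) (h : Indep D a) :
    IsClosed (Set.range (FF D a)) := by
  classical
  have hp1 : 1 < p := hp.out.one_lt
  set E : ι → ℕ := fun i => D i - 1 with hE
  let Z : Set (ι → KK p) := {z | ∀ i, D i = 0 → z i = 0}
  have hZ : IsClosed Z := by
    simp only [Z, Set.ofPred_forall]
    refine isClosed_iInter fun i => isClosed_iInter fun _ => ?_
    exact isClosed_eq (continuous_apply i) continuous_const
  let Q : (ι → KK p) → κ → KK p := fun z => ∑ i, fun k => a i (E i) k * z i ^ (p ^ E i)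
  have hQ : Continuous Q := by
    refine continuous_finsetSum _ fun i _ => ?_
    fun_prop
  let H : (ι → KK p) → ℝ := fun z => ∑ i, ‖z i‖ ^ (p ^ E i)
  have hH : Continuous H := by
    refine continuous_finsetSum _ fun i _ => ?_
    fun_prop
  have hHi : ∀ z i, ‖z i‖ ^ (p ^ E i) ≤ H z := fun z i =>
    single_le_sum (f := fun i => ‖z i‖ ^ (p ^ E i)) (fun i _ => by positivity) (mem_univ i)
  have hH0 : ∀ z, 0 ≤ H z := fun z => sum_nonneg fun i _ => by positivity
  have hbd : ∀ z, ‖z‖ ≤ max 1 (H z) := by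
    intro z
    rw [pi_norm_le_iff_of_nonneg (by positivity)]
    intro i
    by_cases h1 : ‖z i‖ ≤ 1
    · exact h1.trans (le_max_left _ _)
    · push Not at h1
      have h2 : ‖z i‖ ≤ ‖z i‖ ^ (p ^ E i) := by
        calc ‖z i‖ = ‖z i‖ ^ 1 := (pow_one _).symm
          _ ≤ _ := pow_le_pow_right₀ h1.le (Nat.one_le_pow _ _ (by omega))
      exact (h2.trans (hHi z i)).trans (le_max_right _ _)
  obtain ⟨M, hM⟩ : ∃ M, ∀ i, E i ≤ M := ⟨∑ i, E i, fun i => single_le_sum (fun _ _ => Nat.zero_le _)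
    (mem_univ i)⟩
  let b : ℝ := 2 ^ (p ^ M)
  have hb1 : 1 < b := one_lt_pow₀ (by norm_num) (by positivity)
  -- scaling
  let σ : ℤ → (ι → KK p) → ι → KK p := fun n z i => tt ^ (n * (p ^ (M - E i) : ℕ)) * z i
  have hσ : ∀ n z i, σ n z i ^ (p ^ E i) = tt ^ (n * (p ^ M : ℕ)) * z i ^ (p ^ E i) := by
    intro n z i
    simp only [σ]
    rw [mul_pow, ← zpow_natCast (tt ^ (n * ((p ^ (M - E i) : ℕ) : ℤ))), ← zpow_mul]
    congr 2
    have h1 : p ^ M = p ^ (M - E i) * p ^ E i := by
      rw [← pow_add]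
      congr 1
      have := hM i
      omega
    rw [h1]
    push_cast
    ring
  have hnt : ∀ n : ℤ, ‖(tt : KK p) ^ (n * (p ^ M : ℕ))‖ = b ^ (-n) := by
    intro n
    rw [norm_tzpow]
    simp only [b]
    rw [← zpow_natCast, ← zpow_mul]
    congr 1
    ring
  have hσQ : ∀ n z, ‖Q (σ n z)‖ = b ^ (-n) * ‖Q z‖ := by
    intro n z
    have h1 : Q (σ n z) = (tt : KK p) ^ (n * (p ^ M : ℕ)) • Q z := by
      funext k
      simp only [Q, Finset.sum_apply, Pi.smul_apply, smul_eq_mul, mul_sum]
      refine sum_congr rfl fun i _ => ?_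
      rw [hσ]
      ring
    rw [h1, norm_smul, hnt]
  have hσH : ∀ n z, H (σ n z) = b ^ (-n) * H z := by
    intro n z
    simp only [H, mul_sum]
    refine sum_congr rfl fun i _ => ?_
    rw [← norm_pow, hσ, norm_mul, hnt, norm_pow]
  have hσZ : ∀ n, ∀ z ∈ Z, σ n z ∈ Z := by
    intro n z hz i hi
    simp only [σ]
    rw [hz i hi, mul_zero]
  -- the lower bound
  obtain ⟨c0, hc0, hc1⟩ : ∃ c0 : ℝ, 0 < c0 ∧ ∀ z ∈ Z, 1 ≤ H z → H z ≤ b → c0 ≤ ‖Q z‖ := by
    have hC : IsCompact (Z ∩ {z | 1 ≤ H z} ∩ {z | H z ≤ b}) := by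
      have h1 : IsClosed (Z ∩ {z | 1 ≤ H z} ∩ {z | H z ≤ b}) :=
        (hZ.inter (isClosed_le continuous_const hH)).inter (isClosed_le hH continuous_const)
      refine (isCompact_closedBall (0 : ι → KK p) b).of_isClosed_subset h1 fun z hz => ?_
      rw [mem_closedBall_zero_iff]
      exact (hbd z).trans (max_le hb1.le hz.2)
    rcases (Z ∩ {z | 1 ≤ H z} ∩ {z | H z ≤ b}).eq_empty_or_nonempty with h1 | h1
    · refine ⟨1, one_pos, fun z hz h2 h3 => ?_⟩
      have : z ∈ Z ∩ {z | 1 ≤ H z} ∩ {z | H z ≤ b} := ⟨⟨hz, h2⟩, h3⟩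
      rw [h1] at this
      exact this.elim
    · obtain ⟨z0, hz0, hz1⟩ := hC.exists_isMinOn h1 (f := fun z => ‖Q z‖) hQ.norm.continuousOn
      refine ⟨‖Q z0‖, ?_, fun z hz h2 h3 => hz1 ⟨⟨hz, h2⟩, h3⟩⟩
      rw [norm_pos_iff]
      intro h2
      have h3 : z0 = 0 := h z0 hz0.1.1 h2
      have h4 : (1 : ℝ) ≤ H z0 := hz0.1.2
      have h5 : H z0 = 0 := by
        rw [h3]
        simp only [H]
        refine sum_eq_zero fun i _ => ?_
        rw [Pi.zero_apply, norm_zero, zero_pow]
        exact pow_ne_zero _ (by omega)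
      rw [h5] at h4
      linarith
  have hlow : ∀ z ∈ Z, c0 / b * H z ≤ ‖Q z‖ := by
    intro z hz
    rcases (hH0 z).eq_or_lt with h0 | h0
    · rw [← h0, mul_zero]
      exact norm_nonneg _
    · obtain ⟨n, hn1, hn2⟩ := exists_mem_Ico_zpow h0 hb1
      have hb0 : 0 < b := by linarith
      have hbn : 0 < b ^ n := by positivity
      have h1 : H (σ n z) = (b ^ n)⁻¹ * H z := by rw [hσH, zpow_neg]
      have h2 := hc1 (σ n z) (hσZ n z hz) (by
          rw [h1, inv_mul_eq_div, le_div_iff₀ hbn, one_mul]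
          exact hn1) (by
          rw [h1, inv_mul_eq_div, div_le_iff₀ hbn]
          rw [zpow_add_one₀ hb0.ne'] at hn2
          linarith [mul_comm b (b ^ n)])
      rw [hσQ, zpow_neg, inv_mul_eq_div, le_div_iff₀ hbn] at h2
      rw [zpow_add_one₀ hb0.ne'] at hn2
      calc c0 / b * H z ≤ c0 / b * (b ^ n * b) := by
            apply mul_le_mul_of_nonneg_left hn2.le (by positivity)
        _ = c0 * b ^ n := by field_simp
        _ ≤ ‖Q z‖ := h2
  set c1 : ℝ := c0 / b with hc1def
  have hc1pos : 0 < c1 := div_pos hc0 (by linarith)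
  -- lower order terms
  have hlot : ∀ i, ∀ ε : ℝ, 0 < ε → ∃ C : ℝ, 0 ≤ C ∧ ∀ x : KK p,
      ‖ff (E i) (a i) x‖ ≤ ε * ‖x‖ ^ (p ^ E i) + C := by
    intro i ε hε
    let A : ℝ := ∑ j ∈ range (E i), ‖a i j‖ + 1
    have hA : 0 < A := by
      have : 0 ≤ ∑ j ∈ range (E i), ‖a i j‖ := sum_nonneg fun j _ => norm_nonneg _
      simp only [A]
      linarith
    have h1 : ∀ j ∈ range (E i), ∃ C : ℝ, 0 ≤ C ∧ ∀ r : ℝ, 0 ≤ r →
        r ^ (p ^ j) ≤ ε / A * r ^ (p ^ E i) + C := fun j hj =>
      pow_small (Nat.pow_lt_pow_right hp1 (mem_range.1 hj)) _ (by positivity)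
    choose! C hC0 hC using h1
    refine ⟨∑ j ∈ range (E i), ‖a i j‖ * C j,
      sum_nonneg fun j hj => mul_nonneg (norm_nonneg _) (hC0 j hj), fun x => ?_⟩
    have h2 : ‖ff (E i) (a i) x‖ ≤ ∑ j ∈ range (E i), ‖a i j‖ * ‖x‖ ^ (p ^ j) := by
      rw [pi_norm_le_iff_of_nonneg (sum_nonneg fun j _ => by positivity)]
      intro k
      simp only [ff]
      refine (norm_sum_le _ _).trans (sum_le_sum fun j _ => ?_)
      rw [norm_mul, norm_pow]
      exact mul_le_mul_of_nonneg_right (norm_le_pi_norm (a i j) k) (by positivity)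
    refine h2.trans ?_
    have h3 : ∑ j ∈ range (E i), ‖a i j‖ * ‖x‖ ^ (p ^ j) ≤
        ∑ j ∈ range (E i), (‖a i j‖ * (ε / A * ‖x‖ ^ (p ^ E i)) + ‖a i j‖ * C j) := by
      refine sum_le_sum fun j hj => ?_
      rw [← mul_add]
      exact mul_le_mul_of_nonneg_left (hC j hj _ (norm_nonneg _)) (norm_nonneg _)
    refine h3.trans ?_
    rw [sum_add_distrib, ← sum_mul]
    refine add_le_add ?_ le_rfl
    have h4 : ∑ j ∈ range (E i), ‖a i j‖ ≤ A := by simp [A]
    calc (∑ j ∈ range (E i), ‖a i j‖) * (ε / A * ‖x‖ ^ (p ^ E i))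
        ≤ A * (ε / A * ‖x‖ ^ (p ^ E i)) := mul_le_mul_of_nonneg_right h4 (by positivity)
      _ = ε * ‖x‖ ^ (p ^ E i) := by field_simp
  choose! C hC0 hC using hlot
  have hdiff : ∀ z ∈ Z, FF D a z = Q z + ∑ i, ff (E i) (a i) (z i) := by
    intro z hz
    simp only [FF, Q]
    rw [← sum_add_distrib]
    refine sum_congr rfl fun i _ => ?_
    by_cases hi : D i = 0
    · rw [hz i hi, ff_zero, ff_zero]
      funext k
      have h0 : p ^ E i ≠ 0 := pow_ne_zero _ (by omega)
      simp only [Pi.zero_apply, Pi.add_apply, add_zero]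
      rw [zero_pow h0, mul_zero]
    · funext k
      have h1 : D i = E i + 1 := by simp only [hE]; omega
      simp only [Pi.add_apply, ff]
      rw [h1, sum_range_succ, add_comm]
  have hZr : Set.range (FF D a) = FF D a '' Z := by
    apply Set.Subset.antisymm
    · rintro _ ⟨z, rfl⟩
      refine ⟨fun i => if D i = 0 then 0 else z i, fun i hi => if_pos hi, ?_⟩
      simp only [FF]
      refine sum_congr rfl fun i _ => ?_
      by_cases hi : D i = 0
      · rw [if_pos hi, hi]
        rfl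
      · rw [if_neg hi]
    · rintro _ ⟨z, _, rfl⟩
      exact ⟨z, rfl⟩
  rw [hZr]
  refine closed_of_coercive _ (FF_continuous D a) Z hZ fun R => ?_
  set B : ℝ := ∑ i, C i (c1 / 2) with hB
  refine ⟨max 1 ((R + B) / (c1 / 2)), fun z hz hR => ?_⟩
  refine (hbd z).trans (max_le_max le_rfl ?_)
  rw [le_div_iff₀ (by positivity)]
  have h1 : ‖∑ i, ff (E i) (a i) (z i)‖ ≤ c1 / 2 * H z + B := by
    refine (norm_sum_le _ _).trans ?_
    refine (sum_le_sum fun i _ => hC i (c1 / 2) (by positivity) (z i)).trans ?_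
    rw [sum_add_distrib, ← mul_sum]
  have h2 : ‖Q z‖ ≤ ‖FF D a z‖ + ‖∑ i, ff (E i) (a i) (z i)‖ := by
    have h3 : Q z = FF D a z - ∑ i, ff (E i) (a i) (z i) := by rw [hdiff z hz]; abel
    rw [h3]
    exact norm_sub_le _ _
  have h3 := hlow z hz
  linarith

omit [Fintype κ] in
/-- composition of an additive map with `x ↦ c x ^ (p ^ δ)` -/
theorem ff_comp (n δ : ℕ) (b : ℕ → κ → KK p) (c x : KK p) :
    ff n b (c * x ^ (p ^ δ)) = fun k => ∑ l ∈ range (δ + n),
      (if δ ≤ l then b (l - δ) k * c ^ (p ^ (l - δ)) else 0) * x ^ (p ^ l) := by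
  funext k
  simp only [ff]
  rw [sum_range_add (fun l => (if δ ≤ l then b (l - δ) k * c ^ (p ^ (l - δ)) else 0) *
    x ^ (p ^ l)) δ n]
  have h1 : ∑ l ∈ range δ, (if δ ≤ l then b (l - δ) k * c ^ (p ^ (l - δ)) else 0) *
      x ^ (p ^ l) = 0 := by
    refine sum_eq_zero fun l hl => ?_
    rw [if_neg (by have := mem_range.1 hl; omega), zero_mul]
  rw [h1, zero_add]
  refine sum_congr rfl fun j _ => ?_
  rw [if_pos (by omega), Nat.add_sub_cancel_left, mul_pow, ← pow_mul, ← pow_add]
  ring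

/-- **The image of an additive polynomial map `K ^ ι → K ^ κ` is closed.** -/
theorem closed_FF : ∀ (s : ℕ) (D : ι → ℕ) (a : ι → ℕ → κ → KK p), ∑ i, D i = s →
    IsClosed (Set.range (FF D a)) := by
  classical
  intro s
  induction s with
  | zero =>
    intro D a hs
    refine closed_of_indep D a fun c hc _ => ?_
    funext i
    exact hc i ((sum_eq_zero_iff.1 hs) i (mem_univ i))
  | succ s ih =>
    intro D a hs
    by_cases hI : Indep D a
    · exact closed_of_indep D a hI
    unfold Indep at hI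
    push Not at hI
    obtain ⟨c, hc1, hc2, hc3⟩ := hI
    obtain ⟨i1, hi1⟩ : ∃ i, c i ≠ 0 := by
      by_contra h
      push Not at h
      exact hc3 (funext h)
    obtain ⟨i0, hi0, hmax⟩ := exists_max_image (univ.filter fun i => c i ≠ 0) D
      ⟨i1, by simp [hi1]⟩
    have hci0 : c i0 ≠ 0 := (mem_filter.1 hi0).2
    have hD0 : D i0 ≠ 0 := fun h => hci0 (hc1 i0 h)
    have hle : ∀ i, c i ≠ 0 → D i ≤ D i0 := fun i hi => hmax i (by simp [hi])
    let g : ℕ → κ → KK p := fun l k => ∑ i, if D i0 - D i ≤ l then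
      a i (l - (D i0 - D i)) k * c i ^ (p ^ (l - (D i0 - D i))) else 0
    have hg0 : ∀ k, g (D i0 - 1) k = 0 := by
      intro k
      have h1 := congrFun hc2 k
      rw [Finset.sum_apply] at h1
      simp only [g]
      rw [Pi.zero_apply] at h1
      refine Eq.trans ?_ h1
      refine sum_congr rfl fun i _ => ?_
      by_cases hi : c i = 0
      · have h2 : ∀ n : ℕ, p ^ n ≠ 0 := fun n => pow_ne_zero _ hp.out.ne_zero
        rw [hi, zero_pow (h2 _), zero_pow (h2 _), mul_zero, mul_zero, ite_self]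
      · have h2 := hle i hi
        have h3 : D i ≠ 0 := fun h => hi (hc1 i h)
        rw [if_pos (by omega)]
        have h4 : D i0 - 1 - (D i0 - D i) = D i - 1 := by omega
        rw [h4]
    have hg : ∀ x, ∑ i, ff (D i) (a i) (c i * x ^ (p ^ (D i0 - D i))) = ff (D i0 - 1) g x := by
      intro x
      have h1 : ∀ i, ff (D i) (a i) (c i * x ^ (p ^ (D i0 - D i))) = fun k => ∑ l ∈ range (D i0),
          (if D i0 - D i ≤ l then a i (l - (D i0 - D i)) k * c i ^ (p ^ (l - (D i0 - D i)))
            else 0) * x ^ (p ^ l) := by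
        intro i
        by_cases hi : c i = 0
        · have h2 : ∀ n : ℕ, p ^ n ≠ 0 := fun n => pow_ne_zero _ hp.out.ne_zero
          rw [hi, zero_mul, ff_zero]
          funext k
          rw [Pi.zero_apply]
          symm
          refine sum_eq_zero fun l _ => ?_
          rw [zero_pow (h2 _), mul_zero, ite_self, zero_mul]
        · rw [ff_comp]
          have h2 := hle i hi
          have h3 : D i0 - D i + D i = D i0 := by omega
          rw [h3]
      funext k
      rw [Finset.sum_apply]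
      simp only [h1]
      rw [sum_comm]
      simp only [← sum_mul]
      have h2 : D i0 = (D i0 - 1) + 1 := by omega
      have h3 : ∑ l ∈ range (D i0), g l k * x ^ (p ^ l) =
          ∑ l ∈ range (D i0 - 1 + 1), g l k * x ^ (p ^ l) := by rw [← h2]
      have h4 : ∑ l ∈ range (D i0), g l k * x ^ (p ^ l) = ff (D i0 - 1) g x k := by
        rw [h3, sum_range_succ, hg0, zero_mul, add_zero]
        rfl
      exact h4
    -- the new family
    let D' : ι → ℕ := Function.update D i0 (D i0 - 1)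
    let a' : ι → ℕ → κ → KK p := Function.update a i0 g
    have hs' : ∑ i, D' i = s := by
      have h1 := sum_update_of_mem (mem_univ i0) D (D i0 - 1)
      have h2 := sum_update_of_mem (mem_univ i0) D (D i0)
      rw [Function.update_eq_self] at h2
      have h3 : ∑ i, D' i = D i0 - 1 + ∑ x ∈ univ \ {i0}, D x := h1
      omega
    have key : ∀ w : ι → KK p, FF D a (fun i => (if i = i0 then 0 else w i) +
        c i * w i0 ^ (p ^ (D i0 - D i))) = FF D' a' w := by
      intro w
      simp only [FF, ff_add]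
      rw [sum_add_distrib, hg]
      have h1 : ∑ i, ff (D' i) (a' i) (w i) = ff (D' i0) (a' i0) (w i0) +
          ∑ i ∈ univ.erase i0, ff (D' i) (a' i) (w i) :=
        (add_sum_erase univ (fun i => ff (D' i) (a' i) (w i)) (mem_univ i0)).symm
      have h2 : ∑ i, ff (D i) (a i) (if i = i0 then 0 else w i) =
          ff (D i0) (a i0) (if i0 = i0 then 0 else w i0) +
          ∑ i ∈ univ.erase i0, ff (D i) (a i) (if i = i0 then 0 else w i) :=
        (add_sum_erase univ (fun i => ff (D i) (a i) (if i = i0 then 0 else w i))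
          (mem_univ i0)).symm
      rw [h1, h2, if_pos rfl, ff_zero, zero_add, add_comm]
      have h3 : D' i0 = D i0 - 1 := Function.update_self ..
      have h4 : a' i0 = g := Function.update_self ..
      rw [h3, h4]
      congr 1
      refine sum_congr rfl fun i hi => ?_
      have h5 := ne_of_mem_erase hi
      have h6 : D' i = D i := Function.update_of_ne h5 ..
      have h7 : a' i = a i := Function.update_of_ne h5 ..
      rw [h6, h7, if_neg h5]
    have hrange : Set.range (FF D a) = Set.range (FF D' a') := by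
      apply Set.Subset.antisymm
      · rintro _ ⟨z, rfl⟩
        let x : KK p := z i0 / c i0
        let w : ι → KK p := fun i => if i = i0 then x else z i - c i * x ^ (p ^ (D i0 - D i))
        refine ⟨w, ?_⟩
        rw [← key]
        congr 1
        funext i
        have hw0 : w i0 = x := if_pos rfl
        rw [hw0]
        by_cases hi : i = i0
        · rw [if_pos hi, hi, zero_add, Nat.sub_self, pow_zero, pow_one]
          simp only [x]
          field_simp
        · rw [if_neg hi]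
          simp only [w]
          rw [if_neg hi]
          ring
      · rintro _ ⟨w, rfl⟩
        exact ⟨_, key w⟩
    rw [hrange]
    exact ih D' a' hs'

end

end Pool.Agent.Q206.FT
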