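import Pool.Agent.Q206.FT.Pres

/-! # Leading terms of the values of a polynomial in one variable -/

set_option autoImplicit false

open Polynomial Finset

namespace Pool.Agent.Q206.FT

variable {p : ℕ} [hp : Fact p.Prime]

/-- the leading term of a sum without cancellation -/
def rsum (υ ε : RV p) : RV p :=
  if υ.1 = 0 then ε else if ε.1 = 0 then υ else if υ.2 < ε.2 then υ else
    if ε.2 < υ.2 then ε else (υ.1 + ε.1, υ.2)

/-- no cancellation -/
def Near (υ ε : RV p) : Prop := ¬ (υ.1 ≠ 0 ∧ ε.1 ≠ 0 ∧ υ.2 = ε.2 ∧ υ.1 + ε.1 = 0)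

theorem rv_neg (u : KK p) : rv (-u) = (-(rv u).1, (rv u).2) := by
  refine Prod.ext ?_ ?_
  · show (-u).leadingCoeff = -u.leadingCoeff
    rw [HahnSeries.leadingCoeff_eq, HahnSeries.leadingCoeff_eq, HahnSeries.order_neg,
      HahnSeries.coeff_neg]
  · exact HahnSeries.order_neg

theorem norm_lt_of_rv {u v : KK p} (hu : u ≠ 0) (hv : v ≠ 0) :
    ‖u‖ < ‖v‖ ↔ (rv v).2 < (rv u).2 := by
  rw [norm_rv hu, norm_rv hv, zpow_lt_zpow_iff_right₀ (by norm_num)]
  omega

theorem rv_add {u e : KK p} (h : Near (rv u) (rv e)) : rv (u + e) = rsum (rv u) (rv e) := by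
  rw [rsum]
  split_ifs with h1 h2 h3 h4
  · rw [rv_zero_iff] at h1
    rw [h1, zero_add]
  · rw [rv_zero_iff] at h2
    rw [h2, add_zero]
  · rw [rv_zero_iff] at h1 h2
    have h5 : ‖e‖ < ‖u‖ := (norm_lt_of_rv h2 h1).2 h3
    have h6 : ‖u + e‖ = ‖u‖ := norm_add_eq_of_lt h5
    apply rv_eq_of_lt
    rw [h6, add_sub_cancel_left]
    exact h5
  · rw [rv_zero_iff] at h1 h2
    have h5 : ‖u‖ < ‖e‖ := (norm_lt_of_rv h1 h2).2 h4
    have h6 : ‖u + e‖ = ‖e‖ := by rw [add_comm]; exact norm_add_eq_of_lt h5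
    apply rv_eq_of_lt
    rw [h6, add_sub_cancel_right]
    exact h5
  · have h5 : (rv u).2 = (rv e).2 := by omega
    have h6 : (rv u).1 + (rv e).1 ≠ 0 := fun h7 => h ⟨h1, h2, h5, h7⟩
    rw [rv_zero_iff] at h1 h2
    have h7 := norm_sub_lead h1
    have h8 := norm_sub_lead h2
    set w : KK p := HahnSeries.single (rv u).2 ((rv u).1 + (rv e).1) with hw
    have hw0 : w ≠ 0 := HahnSeries.single_ne_zero h6
    have hrw : rv w = ((rv u).1 + (rv e).1, (rv u).2) :=
      Prod.ext HahnSeries.leadingCoeff_of_single (HahnSeries.order_single h6)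
    have hwn : ‖w‖ = ‖u‖ := by rw [norm_rv hw0, norm_rv h1, hrw]
    have hen : ‖e‖ = ‖u‖ := by rw [norm_rv h2, norm_rv h1, h5]
    have hc : ∀ a : ZMod p, ((a.val : ℕ) : KK p) = HahnSeries.single (0 : ℤ) a := by
      intro a
      rw [← HahnSeries.C_apply, ← map_natCast (HahnSeries.C : ZMod p →+* KK p),
        ZMod.natCast_zmod_val]
    have hw2 : w = (u.leadingCoeff.val : KK p) * tt ^ u.order +
        (e.leadingCoeff.val : KK p) * tt ^ e.order := by
      have h5' : u.order = e.order := h5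
      rw [← h5', hc, hc, tt_zpow, HahnSeries.single_mul_single, HahnSeries.single_mul_single,
        ← HahnSeries.single_add, zero_add, mul_one, mul_one]
      rfl
    rw [← hrw]
    symm
    apply rv_eq_of_lt
    have h9 : w - (u + e) = -(u - (u.leadingCoeff.val : KK p) * tt ^ u.order) +
        -(e - (e.leadingCoeff.val : KK p) * tt ^ e.order) := by
      rw [hw2]
      ring
    rw [h9, hwn]
    refine (IsUltrametricDist.norm_add_le_max _ _).trans_lt (max_lt ?_ ?_)
    · rw [norm_neg]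
      exact h7
    · rw [norm_neg, ← hen]
      exact h8

theorem near_of_le {u e : KK p} (h : ‖u‖ ≤ ‖u + e‖) : Near (rv u) (rv e) := by
  rintro ⟨h1, h2, h3, h4⟩
  rw [Ne, rv_zero_iff] at h1 h2
  have h5 : rv u = rv (-e) := by
    rw [rv_neg]
    exact Prod.ext (eq_neg_of_add_eq_zero_left h4) h3
  have h6 := norm_sub_lt_of_rv h1 h5
  rw [sub_neg_eq_add] at h6
  exact absurd h (not_le.2 h6)

/-- the leading term of the value of a certified polynomial of degree `δ` -/
def gam (δ : ℕ) (κ b w : RV p) (z : Fin p → RV p) : RV p :=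
  if δ = 0 then (1, 0) else if κ.1 = 0 then b else
    if b.1 = 0 ∨ δ * κ.2 < b.2 then (κ.1 ^ δ, δ * κ.2) else
      if b.2 < δ * κ.2 then b else z ⟨(κ.1 / w.1).val, ZMod.val_lt _⟩

theorem rv_pow {u : KK p} (hu : u ≠ 0) (n : ℕ) : rv (u ^ n) = ((rv u).1 ^ n, n * (rv u).2) := by
  refine Prod.ext (lc_pow u n) ?_
  show (u ^ n).order = n * u.order
  rw [HahnSeries.order_pow]
  simp

theorem rv_fac {δ : ℕ} {G : (KK p)[X]} {c w : KK p} (hG : Cert0 δ G c)
    (hw : δ = 0 ∨ (w ≠ 0 ∧ ‖w ^ δ‖ = ‖G.eval c‖) ∨ G.eval c = 0 ∨ ¬ (δ : ℤ) ∣ (G.eval c).order)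
    (y : KK p) : rv (G.eval y) = gam δ (rv (y - c)) (rv (G.eval c)) (rv w)
      fun a => rv (G.eval (c + ((a : ℕ) : KK p) * w)) := by
  rw [gam]
  have hyc : y = c + (y - c) := by ring
  set u := y - c with hu
  split_ifs with h0 h1 h2 h3
  · obtain ⟨g1, g2, -⟩ := hG
    rw [h0, g1.natDegree_eq_zero] at g2
    rw [g2, eval_one]
    exact Prod.ext HahnSeries.leadingCoeff_of_single (HahnSeries.order_single one_ne_zero)
  · rw [rv_zero_iff] at h1
    rw [hyc, h1, add_zero]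
  · rw [rv_zero_iff] at h1
    have h3 : ‖G.eval c‖ < ‖u‖ ^ δ := by
      by_cases h4 : G.eval c = 0
      · rw [h4, norm_zero]
        exact pow_pos (norm_pos_iff.2 h1) _
      · have h5 : δ * (rv u).2 < (rv (G.eval c)).2 := by
          rcases h2 with h2 | h2
          · exact absurd ((rv_zero_iff _).1 h2) h4
          · exact h2
        rw [← norm_pow, norm_lt_of_rv h4 (pow_ne_zero _ h1), rv_pow h1]
        exact h5
    have h4 := cert0_far hG y (by rw [← hu]; exact h3)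
    rw [← hu, ← norm_pow] at h4
    rw [← rv_pow h1]
    symm
    apply rv_eq_of_lt
    rw [norm_sub_rev]
    exact h4
  · rw [rv_zero_iff] at h1
    push Not at h2
    have hc0 : G.eval c ≠ 0 := fun h4 => h2.1 ((rv_zero_iff _).2 h4)
    have h4 : ‖u‖ ^ δ < ‖G.eval c‖ := by
      rw [← norm_pow, norm_lt_of_rv (pow_ne_zero _ h1) hc0, rv_pow h1]
      exact h3
    have h5 := cert0_close hG y (by rw [← hu]; exact h4)
    symm
    apply rv_eq_of_lt
    rw [norm_sub_rev]
    exact h5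
  · rw [rv_zero_iff] at h1
    push Not at h2
    have hc0 : G.eval c ≠ 0 := fun h4 => h2.1 ((rv_zero_iff _).2 h4)
    have h4 : (rv (G.eval c)).2 = δ * (rv u).2 := by omega
    have h5 : ‖G.eval c‖ = ‖u ^ δ‖ := by
      rw [norm_rv hc0, norm_rv (pow_ne_zero _ h1), rv_pow h1, h4]
    obtain ⟨hw0, hw1⟩ : w ≠ 0 ∧ ‖w ^ δ‖ = ‖G.eval c‖ := by
      rcases hw with hw | hw | hw | hw
      · exact absurd hw h0
      · exact hw
      · exact absurd hw hc0
      · exact absurd ((dvd_order_iff δ _).2 (Or.inr ⟨u, h1, h5⟩)) hw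
    have hwu : ‖w‖ = ‖u‖ := by
      have h6 : ‖w‖ ^ δ = ‖u‖ ^ δ := by rw [← norm_pow, ← norm_pow, hw1, h5]
      exact (pow_left_inj₀ (norm_nonneg _) (norm_nonneg _) h0).1 h6
    have hwo : w.order = u.order := by
      rw [norm_eq_of_ne hw0, norm_eq_of_ne h1] at hwu
      have := (zpow_right_inj₀ (by norm_num : (0 : ℝ) < 2) (by norm_num)).1 hwu
      omega
    set a : ZMod p := (rv u).1 / (rv w).1 with ha
    have hwl : (rv w).1 ≠ 0 := fun h6 => hw0 ((rv_zero_iff _).1 h6)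
    have hul : (rv u).1 ≠ 0 := fun h6 => h1 ((rv_zero_iff _).1 h6)
    have ha0 : a ≠ 0 := div_ne_zero hul hwl
    have hav : ((a.val : ℕ) : KK p) ≠ 0 := by
      intro h6
      have h7 := lc_natCast a
      rw [h6, HahnSeries.leadingCoeff_zero] at h7
      exact ha0 h7.symm
    have h6 : rv u = rv ((a.val : KK p) * w) := by
      rw [rv_mul hav hw0]
      have h7 : ((a.val : ℕ) : KK p) = HahnSeries.single (0 : ℤ) a := by
        rw [← HahnSeries.C_apply, ← map_natCast (HahnSeries.C : ZMod p →+* KK p),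
          ZMod.natCast_zmod_val]
      refine Prod.ext ?_ ?_
      · show (rv u).1 = (rv ((a.val : ℕ) : KK p)).1 * (rv w).1
        have : (rv ((a.val : ℕ) : KK p)).1 = a := lc_natCast a
        rw [this, ha, div_mul_cancel₀ _ hwl]
      · show u.order = (((a.val : ℕ) : KK p)).order + w.order
        rw [h7, HahnSeries.order_single ha0, zero_add, hwo]
    have h7 := norm_sub_lt_of_rv h1 h6
    have h8 := cert0_near hG y (c + (a.val : KK p) * w) (by
      rw [← hu]
      have : y - (c + (a.val : KK p) * w) = u - (a.val : KK p) * w := by rw [hu]; ring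
      rw [this]
      exact h7)
    exact rv_eq_of_lt h8

/-- the leading term of a product -/
def rprod {J : Type} [Fintype J] (A : RV p) (γ : J → RV p) : RV p :=
  if A.1 * ∏ j, (γ j).1 = 0 then (0, 0) else (A.1 * ∏ j, (γ j).1, A.2 + ∑ j, (γ j).2)

theorem rv_rprod {J : Type} [Fintype J] (A : KK p) (g : J → KK p) :
    rv (A * ∏ j, g j) = rprod (rv A) fun j => rv (g j) := by
  classical
  have h1 : ∀ s : Finset J, (rv (∏ j ∈ s, g j)).1 = ∏ j ∈ s, (rv (g j)).1 ∧
      ((∏ j ∈ s, g j) ≠ 0 → (rv (∏ j ∈ s, g j)).2 = ∑ j ∈ s, (rv (g j)).2) := by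
    intro s
    induction s using Finset.induction_on with
    | empty =>
      simp only [prod_empty, sum_empty]
      exact ⟨HahnSeries.leadingCoeff_of_single, fun _ => HahnSeries.order_single one_ne_zero⟩
    | insert a s ha ih =>
      rw [prod_insert ha, prod_insert ha, sum_insert ha]
      refine ⟨?_, fun h => ?_⟩
      · rw [← ih.1]
        exact HahnSeries.leadingCoeff_mul _ _
      · have h2 := left_ne_zero_of_mul h
        have h3 := right_ne_zero_of_mul h
        rw [← ih.2 h3]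
        exact HahnSeries.order_mul h2 h3
  rw [rprod]
  have h2 : (rv (A * ∏ j, g j)).1 = (rv A).1 * ∏ j, (rv (g j)).1 := by
    rw [← (h1 univ).1]
    exact HahnSeries.leadingCoeff_mul _ _
  split_ifs with h3
  · refine Prod.ext (h2.trans h3) ?_
    exact rv_ok _ (h2.trans h3)
  · refine Prod.ext h2 ?_
    rw [← h2, rv_zero_iff] at h3
    have h4 := left_ne_zero_of_mul h3
    have h5 := right_ne_zero_of_mul h3
    show (rv (A * ∏ j, g j)).2 = (rv A).2 + ∑ j, (rv (g j)).2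
    rw [← (h1 univ).2 h5]
    exact HahnSeries.order_mul h4 h5

/-! ## these functions are semilinear -/

section

variable {D : Type} [Finite D]

theorem Pres.eq_ite {g : D} {A : (D → RV p) → Prop} [∀ ξ, Decidable (A ξ)]
    {f h : (D → RV p) → RV p} (hA : Pres {ξ | A ξ}) (h1 : Pres {ξ | ξ g = f ξ})
    (h2 : Pres {ξ | ξ g = h ξ}) : Pres {ξ | ξ g = if A ξ then f ξ else h ξ} := by
  refine ((hA.and h1).or (hA.not.and h2)).congr fun ξ => ?_
  show (ξ g = if A ξ then f ξ else h ξ) ↔ (A ξ ∧ ξ g = f ξ) ∨ (¬ A ξ ∧ ξ g = h ξ)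
  by_cases h3 : A ξ
  · rw [if_pos h3]
    tauto
  · rw [if_neg h3]
    tauto

theorem Pres.eq_mk {g : D} {a : (D → ZMod p) → ZMod p} {f : (D → RV p) → ℤ} (hf : IsAf f) :
    Pres {ξ : D → RV p | ξ g = (a fun d => (ξ d).1, f ξ)} := by
  refine ((Pres.fst fun α : D → ZMod p => α g = a α).and
    (Pres.eq (IsAf.var g) hf)).congr fun ξ => ?_
  exact Prod.ext_iff

theorem Pres.rsum (g υ ε : D) : Pres {ξ : D → RV p | ξ g = FT.rsum (ξ υ) (ξ ε)} := by
  simp only [FT.rsum]
  refine Pres.eq_ite (Pres.fst fun α => α υ = 0) (Pres.eqv _ _) (Pres.eq_ite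
    (Pres.fst fun α => α ε = 0) (Pres.eqv _ _) (Pres.eq_ite (Pres.lt (IsAf.var _) (IsAf.var _))
    (Pres.eqv _ _) (Pres.eq_ite (Pres.lt (IsAf.var _) (IsAf.var _)) (Pres.eqv _ _)
    (Pres.eq_mk (a := fun α => α υ + α ε) (IsAf.var _)))))

theorem Pres.near (υ ε : D) : Pres {ξ : D → RV p | Near (ξ υ) (ξ ε)} := by
  refine ((Pres.fst fun α => α υ ≠ 0).and ((Pres.fst fun α => α ε ≠ 0).and ((Pres.eq
    (IsAf.var υ) (IsAf.var ε)).and (Pres.fst fun α => α υ + α ε = 0)))).not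

theorem Pres.gam (δ : ℕ) (g κ b w : D) (z : Fin p → D) :
    Pres {ξ : D → RV p | ξ g = FT.gam δ (ξ κ) (ξ b) (ξ w) fun a => ξ (z a)} := by
  simp only [FT.gam]
  refine Pres.eq_ite (Pres.const _) (Pres.eq_mk (a := fun _ => 1) (IsAf.const 0)) (Pres.eq_ite
    (Pres.fst fun α => α κ = 0) (Pres.eqv _ _) (Pres.eq_ite (Pres.or (Pres.fst fun α => α b = 0)
    (Pres.lt ((IsAf.var _).mulc _) (IsAf.var _))) (Pres.eq_mk (a := fun α => α κ ^ δ)
    ((IsAf.var _).mulc _)) (Pres.eq_ite (Pres.lt (IsAf.var _) ((IsAf.var _).mulc _))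
    (Pres.eqv _ _) ?_)))
  have h1 : Pres {ξ : D → RV p | ∃ a : Fin p, ((ξ κ).1 / (ξ w).1).val = a ∧ ξ g = ξ (z a)} :=
    Pres.any fun a => (Pres.fst fun α => (α κ / α w).val = a).and (Pres.eqv _ _)
  refine h1.congr fun ξ => ?_
  constructor
  · intro h
    exact ⟨⟨_, ZMod.val_lt _⟩, rfl, h⟩
  · rintro ⟨a, h2, h3⟩
    obtain rfl : (⟨((ξ κ).1 / (ξ w).1).val, ZMod.val_lt _⟩ : Fin p) = a := Fin.ext h2
    exact h3

theorem Pres.rprod {J : Type} [Fintype J] (g A : D) (γ : J → D) :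
    Pres {ξ : D → RV p | ξ g = FT.rprod (ξ A) fun j => ξ (γ j)} := by
  simp only [FT.rprod]
  exact Pres.eq_ite (Pres.fst fun α => α A * ∏ j, α (γ j) = 0)
    (Pres.eq_mk (a := fun _ => 0) (IsAf.const 0))
    (Pres.eq_mk (a := fun α => α A * ∏ j, α (γ j)) ((IsAf.var _).add (IsAf.sum _ fun j =>
      IsAf.var _)))

end

end Pool.Agent.Q206.FT
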