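import Pool.Agent.Q206.FT.CoreA

/-! # Described relations; the leading terms of the values of polynomials in one variable -/

set_option autoImplicit false

open Polynomial Finset

namespace Pool.Agent.Q206.FT

variable {p : ℕ} [hp : Fact p.Prime]

/-- `R x ξ` is a semilinear condition on `ξ` and on the leading terms of elements which depend
on `x` in an existential way -/
def Desc {σ ρ : Type} (R : (σ → KK p) → (ρ → RV p) → Prop) : Prop :=
  ∃ (m D : Type) (_ : Finite m) (_ : Finite D) (C : Set (σ ⊕ m → KK p))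
    (E : D → (σ ⊕ m → KK p) → KK p) (Ψ : Set (D ⊕ ρ → RV p)),
    ED C ∧ (∀ d, IsPo (E d)) ∧ Pres Ψ ∧ (∀ x, ∃ u, Sum.elim x u ∈ C) ∧
    ∀ x u, Sum.elim x u ∈ C → ∀ ξ, R x ξ ↔
      Sum.elim (fun d => rv (E d (Sum.elim x u))) ξ ∈ Ψ

section

variable {κ : Type} {N : ℕ}

/-- the names of the data of certified factorisations -/
abbrev Vb (p : ℕ) (κ : Type) (N : ℕ) : Type := κ ⊕ ((κ × Fin N) × (Fin 4 ⊕ Fin p))

/-- the data are the data of certified factorisations of the polynomials `f k` -/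
def FD (f : κ → (KK p)[X]) (δ : κ → Fin N → Fin (N + 1)) (v : κ × Fin N × Fin N → KK p)
    (u : Vb p κ N → KK p) : Prop :=
  (∀ k, f k = C (u (.inl k)) * ∏ j, gpol (δ k j) fun l : Fin N => v (k, j, l)) ∧
  ∀ k j, ((δ k j : ℕ) = 0 ∨ Cert (δ k j) (gpol (δ k j) fun l : Fin N => v (k, j, l))
      (u (.inr ((k, j), .inl 0)))) ∧
    (gpol (δ k j) fun l : Fin N => v (k, j, l)).eval (u (.inr ((k, j), .inl 0))) =
      u (.inr ((k, j), .inl 1)) ∧
    (((δ k j : ℕ) = 0 ∨ (u (.inr ((k, j), .inl 2)) ≠ 0 ∧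
      ‖u (.inr ((k, j), .inl 2)) ^ (δ k j : ℕ)‖ = ‖u (.inr ((k, j), .inl 1))‖) ∨
      u (.inr ((k, j), .inl 1)) = 0 ∨ ¬ ((δ k j : ℕ) : ℤ) ∣ (u (.inr ((k, j), .inl 1))).order)) ∧
    u (.inr ((k, j), .inl 3)) = tt ^ (δ k j : ℕ) ∧
    ∀ a : Fin p, (gpol (δ k j) fun l : Fin N => v (k, j, l)).eval
      (u (.inr ((k, j), .inl 0)) + ((a : ℕ) : KK p) * u (.inr ((k, j), .inl 2))) =
        u (.inr ((k, j), .inr a))

theorem FD.exists (f : κ → (KK p)[X]) (hf : ∀ k, (f k).natDegree ≤ N) :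
    ∃ (δ : κ → Fin N → Fin (N + 1)) (v : κ × Fin N × Fin N → KK p) (u : Vb p κ N → KK p),
      FD f δ v u := by
  have h1 : ∀ k, ∃ (A : KK p) (G : Fin N → (KK p)[X]) (c : Fin N → KK p),
      f k = C A * ∏ j, G j ∧ ∀ j, (G j).natDegree ≤ N ∧ Cert0 (G j).natDegree (G j) (c j) := by
    intro k
    by_cases h0 : f k = 0
    · refine ⟨0, fun _ => 1, fun _ => 0, by rw [h0, C_0, zero_mul], fun j => ?_⟩
      rw [natDegree_one]
      exact ⟨Nat.zero_le _, monic_one, natDegree_one, Or.inl rfl⟩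
    · exact exists_factors N _ h0 (hf k)
  choose A G c h2 h3 using h1
  have h4 : ∀ k j, ∃ w : KK p, (G k j).natDegree = 0 ∨
      (w ≠ 0 ∧ ‖w ^ (G k j).natDegree‖ = ‖(G k j).eval (c k j)‖) ∨
      (G k j).eval (c k j) = 0 ∨ ¬ (((G k j).natDegree : ℕ) : ℤ) ∣ ((G k j).eval (c k j)).order := by
    intro k j
    by_cases h5 : (((G k j).natDegree : ℕ) : ℤ) ∣ ((G k j).eval (c k j)).order
    · rcases (dvd_order_iff _ _).1 h5 with h6 | ⟨w, h6, h7⟩
      · exact ⟨0, Or.inr (Or.inr (Or.inl h6))⟩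
      · exact ⟨w, Or.inr (Or.inl ⟨h6, h7.symm⟩)⟩
    · exact ⟨0, Or.inr (Or.inr (Or.inr h5))⟩
  choose w h4 using h4
  let δ : κ → Fin N → Fin (N + 1) := fun k j => ⟨(G k j).natDegree, by
    have := (h3 k j).1
    omega⟩
  let v : κ × Fin N × Fin N → KK p := fun q => (G q.1 q.2.1).coeff (q.2.2 : ℕ)
  let u : Vb p κ N → KK p := Sum.elim A fun q =>
    Sum.elim (fun i : Fin 4 => if i = 0 then c q.1.1 q.1.2 else if i = 1 then
      (G q.1.1 q.1.2).eval (c q.1.1 q.1.2) else if i = 2 then w q.1.1 q.1.2 else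
      tt ^ (G q.1.1 q.1.2).natDegree)
      (fun a => (G q.1.1 q.1.2).eval (c q.1.1 q.1.2 + ((a : ℕ) : KK p) * w q.1.1 q.1.2)) q.2
  have hfac : ∀ k j, (gpol (δ k j) fun l : Fin N => v (k, j, l)) = G k j := fun k j =>
    gpol_coeff (G k j) (h3 k j).2.1 (h3 k j).1
  refine ⟨δ, v, u, fun k => ?_, fun k j => ?_⟩
  · rw [h2]
    congr 1
    exact prod_congr rfl fun j _ => (hfac k j).symm
  · rw [hfac]
    exact ⟨(h3 k j).2.2.2, rfl, h4 k j, rfl, fun a => rfl⟩

/-- the centres -/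
def cen (u : Vb p κ N → KK p) : Option (κ × Fin N) → KK p
  | none => 0
  | some q => u (.inr (q, .inl 0))

/-- the names of the leading terms -/
abbrev Vd (p : ℕ) (κ : Type) (N : ℕ) : Type := Vb p κ N ⊕ (Option (κ × Fin N) × (κ × Fin N))

/-- the elements whose leading terms are used -/
def eld (u : Vb p κ N → KK p) : Vd p κ N → KK p :=
  Sum.elim u fun q => cen u q.1 - cen u (some q.2)

/-- the condition on the leading terms `ζ` of the data and on the leading terms `η` of the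
values of the polynomials -/
def Rel (ζ : Vd p κ N → RV p) (η : κ → RV p) (δ : κ → Fin N → Fin (N + 1))
    (o : Option (κ × Fin N)) (υ : RV p) (χ γ : κ × Fin N → RV p) : Prop :=
  (υ.1 = 0 → υ.2 = 0) ∧
  (∀ q : κ × Fin N, (ζ (.inl (.inr (q, .inl 3)))).2 = (δ q.1 q.2 : ℕ) ∧
    Near υ (ζ (.inr (o, q))) ∧ χ q = rsum υ (ζ (.inr (o, q))) ∧
    γ q = gam (δ q.1 q.2) (χ q) (ζ (.inl (.inr (q, .inl 1)))) (ζ (.inl (.inr (q, .inl 2))))
      fun a => ζ (.inl (.inr (q, .inr a)))) ∧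
  ∀ k, η k = rprod (ζ (.inl (.inl k))) fun j : Fin N => γ (k, j)

theorem FD.rv_eval {f : κ → (KK p)[X]} {δ : κ → Fin N → Fin (N + 1)}
    {v : κ × Fin N × Fin N → KK p} {u : Vb p κ N → KK p} (h : FD f δ v u) (y : KK p) (k : κ)
    (j : Fin N) : rv ((gpol (δ k j) fun l : Fin N => v (k, j, l)).eval y) =
      gam (δ k j) (rv (y - cen u (some (k, j)))) (rv (u (.inr ((k, j), .inl 1))))
        (rv (u (.inr ((k, j), .inl 2)))) fun a => rv (u (.inr ((k, j), .inr a))) := by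
  obtain ⟨h1, h2⟩ := h
  obtain ⟨h3, h4, h5, h6, h7⟩ := h2 k j
  have h8 : Cert0 (δ k j) (gpol (δ k j) fun l : Fin N => v (k, j, l))
      (u (.inr ((k, j), .inl 0))) := ⟨gpol_monic _ _, gpol_natDegree _ _, h3⟩
  rw [rv_fac (w := u (.inr ((k, j), .inl 2))) h8 (by rw [h4]; exact h5) y, h4]
  simp only [h7]
  rfl

theorem FD.exists_iff [Finite κ] {f : κ → (KK p)[X]} {δ : κ → Fin N → Fin (N + 1)}
    {v : κ × Fin N × Fin N → KK p} {u : Vb p κ N → KK p} (h : FD f δ v u) (η : κ → RV p) :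
    (∃ y, ∀ k, η k = rv ((f k).eval y)) ↔
      ∃ δ' o υ χ γ, Rel (fun d => rv (eld u d)) η δ' o υ χ γ := by
  classical
  have : Fintype κ := Fintype.ofFinite κ
  have hs : ∀ k j, (rv (u (.inr ((k, j), .inl 3)))).2 = (δ k j : ℕ) := by
    intro k j
    rw [(h.2 k j).2.2.2.1]
    show ((tt : KK p) ^ (δ k j : ℕ)).order = _
    rw [← zpow_natCast, tt_zpow, HahnSeries.order_single one_ne_zero]
  have hev : ∀ y k, (f k).eval y = u (.inl k) * ∏ j, (gpol (δ k j)
      fun l : Fin N => v (k, j, l)).eval y := by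
    intro y k
    rw [h.1 k, eval_mul, eval_C, eval_prod]
  constructor
  · rintro ⟨y, hy⟩
    obtain ⟨o, _, ho⟩ := exists_min_image (univ : Finset (Option (κ × Fin N)))
      (fun o => ‖y - cen u o‖) univ_nonempty
    have hadd : ∀ q : κ × Fin N, y - cen u (some q) = (y - cen u o) + (cen u o - cen u (some q)) :=
      fun q => by ring
    have hnear : ∀ q : κ × Fin N, Near (rv (y - cen u o)) (rv (cen u o - cen u (some q))) := by
      intro q
      apply near_of_le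
      rw [← hadd]
      exact ho (some q) (mem_univ _)
    refine ⟨δ, o, rv (y - cen u o), fun q => rv (y - cen u (some q)),
      fun q => rv ((gpol (δ q.1 q.2) fun l : Fin N => v (q.1, q.2, l)).eval y),
      rv_ok _, fun q => ⟨hs q.1 q.2, hnear q, ?_, h.rv_eval y q.1 q.2⟩, fun k => ?_⟩
    · show rv (y - cen u (some q)) = _
      rw [hadd q]
      exact rv_add (hnear q)
    · rw [hy k, hev]
      exact rv_rprod _ _
  · rintro ⟨δ', o, υ, χ, γ, h1, h2, h3⟩
    obtain ⟨z, rfl⟩ := rv_surj υ h1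
    refine ⟨cen u o + z, fun k => ?_⟩
    rw [h3 k, hev, rv_rprod]
    have h4 : ∀ q : κ × Fin N, γ q =
        rv ((gpol (δ q.1 q.2) fun l : Fin N => v (q.1, q.2, l)).eval (cen u o + z)) := by
      intro q
      obtain ⟨h5, h6, h7, h8⟩ := h2 q
      have h9 : (δ' q.1 q.2 : ℕ) = δ q.1 q.2 := by
        have h10 : (((δ q.1 q.2 : ℕ)) : ℤ) = ((δ' q.1 q.2 : ℕ) : ℤ) :=
          (hs q.1 q.2).symm.trans h5
        exact_mod_cast h10.symm
      have h10 : cen u o + z - cen u (some q) = z + (cen u o - cen u (some q)) := by ring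
      have h11 : Near (rv z) (rv (cen u o - cen u (some q))) := h6
      rw [h8, h9, h7, h.rv_eval, h10, rv_add h11]
      rfl
    congr 1
    ext1 j
    exact h4 (k, j)

end

/-! ## the relation is described -/

section

variable {σ κ : Type} [Finite κ]

theorem ED.fd {N : ℕ} {F : κ → (σ → KK p) → (KK p)[X]} (hF : ∀ k, IsPP (F k))
    (δ : κ → Fin N → Fin (N + 1)) :
    ED {w : (σ ⊕ Vb p κ N) ⊕ (κ × Fin N × Fin N) → KK p | FD (fun k => F k fun i =>
      w (.inl (.inl i))) δ (fun i => w (.inr i)) fun i => w (.inl (.inr i))} := by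
  have hg : ∀ k j, IsPP fun w : (σ ⊕ Vb p κ N) ⊕ (κ × Fin N × Fin N) → KK p =>
      gpol (δ k j) fun l : Fin N => w (.inr (k, j, l)) := fun k j => IsPP.gpol _ fun l => IsPo.var _
  have hv : ∀ i : Vb p κ N, IsPo fun w : (σ ⊕ Vb p κ N) ⊕ (κ × Fin N × Fin N) → KK p =>
      w (.inl (.inr i)) := fun i => IsPo.var _
  refine ED.and (ED.all fun k => ED.eqP ?_ ?_) (ED.all fun k => ED.all fun j => ED.and
    (ED.or (ED.const _) (ED.cert _ (hg k j) (hv _))) (ED.and (ED.eq ((hg k j).eval (hv _)) (hv _))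
    (ED.and ?_ (ED.and (ED.eq (hv _) (IsPo.tt.pow _)) (ED.all fun a => ED.eq
      ((hg k j).eval ((hv _).add ((IsPo.const _).mul (hv _)))) (hv _))))))
  · exact (hF k).comp (g := fun i (w : (σ ⊕ Vb p κ N) ⊕ (κ × Fin N × Fin N) → KK p) =>
      w (.inl (.inl i))) fun i => IsPo.var _
  · exact (IsPP.C (hv _)).mul (IsPP.prod _ fun j => hg k j)
  · rcases Nat.eq_zero_or_pos (δ k j : ℕ) with h0 | h0
    · refine (ED.const True).congr fun w => ?_
      simp [h0]
    · exact ED.or (ED.const _) (ED.or (ED.and (ED.ne0 (hv _)) (ED.norm_eq ((hv _).pow _) (hv _)))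
        (ED.or (ED.eq0 (hv _)) (ED.not_dvd_order _ h0 (hv _))))

theorem Pres.rel {N : ℕ} (δ : κ → Fin N → Fin (N + 1)) (o : Option (κ × Fin N)) :
    Pres {w : (Vd p κ N ⊕ κ) ⊕ (Unit ⊕ (κ × Fin N) ⊕ (κ × Fin N)) → RV p |
      Rel (fun d => w (.inl (.inl d))) (fun k => w (.inl (.inr k))) δ o (w (.inr (.inl ())))
        (fun q => w (.inr (.inr (.inl q)))) fun q => w (.inr (.inr (.inr q)))} := by
  let D' : Type := (Vd p κ N ⊕ κ) ⊕ (Unit ⊕ (κ × Fin N) ⊕ (κ × Fin N))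
  let υ : D' := .inr (.inl ())
  let χ : κ × Fin N → D' := fun q => .inr (.inr (.inl q))
  let γ : κ × Fin N → D' := fun q => .inr (.inr (.inr q))
  let ζ : Vd p κ N → D' := fun d => .inl (.inl d)
  refine Pres.and (Pres.imp (Pres.fst fun α : D' → ZMod p => α υ = 0)
    (Pres.eq (IsAf.var υ) (IsAf.const 0))) (Pres.and (Pres.all fun q => Pres.and
    (Pres.eq (IsAf.var (ζ (.inl (.inr (q, .inl 3))))) (IsAf.const _)) (Pres.and
    (Pres.near υ (ζ (.inr (o, q)))) (Pres.and (Pres.rsum (χ q) υ (ζ (.inr (o, q))))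
    (Pres.gam _ (γ q) (χ q) (ζ (.inl (.inr (q, .inl 1)))) (ζ (.inl (.inr (q, .inl 2))))
      fun a => ζ (.inl (.inr (q, .inr a))))))) (Pres.all fun k =>
      Pres.rprod (.inl (.inr k)) (ζ (.inl (.inl k))) fun j => γ (k, j)))

/-- **The leading terms of the values of polynomials in one variable are described.** -/
theorem Desc.core {F : κ → (σ → KK p) → (KK p)[X]} (hF : ∀ k, IsPP (F k)) :
    Desc fun (x : σ → KK p) (η : κ → RV p) => ∃ y, ∀ k, η k = rv ((F k x).eval y) := by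
  classical
  have : Fintype κ := Fintype.ofFinite κ
  obtain ⟨N, hN⟩ : ∃ N, ∀ k x, (F k x).natDegree ≤ N := by
    choose N hN using fun k => (hF k).natDegree_le
    exact ⟨Finset.univ.sup N, fun k x => (hN k x).trans (Finset.le_sup (mem_univ k))⟩
  refine ⟨Vb p κ N, Vd p κ N, inferInstance, inferInstance,
    {w | ∃ (δ : κ → Fin N → Fin (N + 1)) (v : κ × Fin N × Fin N → KK p),
      FD (fun k => F k fun i => w (.inl i)) δ v fun i => w (.inr i)},
    fun d w => eld (fun i => w (.inr i)) d,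
    {w | ∃ (δ : κ → Fin N → Fin (N + 1)) (o : Option (κ × Fin N))
      (θ : Unit ⊕ (κ × Fin N) ⊕ (κ × Fin N) → RV p), Rel (fun d => w (.inl d))
        (fun k => w (.inr k)) δ o (θ (.inl ())) (fun q => θ (.inr (.inl q)))
        fun q => θ (.inr (.inr q))}, ?_, ?_, ?_, ?_, ?_⟩
  · exact ED.any fun δ => ED.exs (ED.fd hF δ)
  · rintro (d | ⟨o, q⟩)
    · exact IsPo.var _
    · refine IsPo.sub ?_ (IsPo.var _)
      rcases o with _ | o
      · exact IsPo.zero
      · exact IsPo.var _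
  · exact Pres.any fun δ => Pres.any fun o => Pres.exs (Pres.rel δ o)
  · intro x
    obtain ⟨δ, v, u, h⟩ := FD.exists (fun k => F k x) (fun k => hN k x)
    exact ⟨u, δ, v, h⟩
  · rintro x u ⟨δ, v, h⟩ η
    have h' : FD (fun k => F k x) δ v u := h
    show (∃ y, ∀ k, η k = rv ((F k x).eval y)) ↔ _
    rw [h'.exists_iff η]
    constructor
    · rintro ⟨δ', o, υ, χ, γ, h1⟩
      exact ⟨δ', o, Sum.elim (fun _ => υ) (Sum.elim χ γ), h1⟩
    · rintro ⟨δ', o, θ, h1⟩
      exact ⟨δ', o, _, _, _, h1⟩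

end

end Pool.Agent.Q206.FT
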