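import Pool.Agent.Q206.FT.Base
import Pool.Agent.Y748.UF.Val
import Pool.Agent.Y675.UF.Root
import Pool.Agent.Y15.UF.Res

/-! # Existentially definable sets over `F_p((t))`, with the constant `t` -/

set_option autoImplicit false

open MvPolynomial

namespace Pool.Agent.Q206.FT

/-- polynomials in the variables `σ` with coefficients in `F_p[t]` -/
abbrev Po (p : ℕ) (σ : Type) : Type := MvPolynomial σ (Polynomial (ZMod p))

variable {p : ℕ} [hp : Fact p.Prime]

/-- the value of a polynomial with coefficients in `F_p[t]` at the point `x` of `K ^ σ` -/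
noncomputable def ev {σ : Type} (P : Po p σ) (x : σ → KK p) : KK p := MvPolynomial.aeval x P

/-- `S` is existentially definable in the field `F_p((t))` with the constant `t` -/
def ED {σ : Type} (S : Set (σ → KK p)) : Prop :=
  ∃ (m : ℕ) (Φ : Finset (Po p (σ ⊕ Fin m))), ∀ x, x ∈ S ↔
    ∃ z : Fin m → KK p, ∀ P ∈ Φ, ev P (Sum.elim x z) = 0

/-- polynomial functions -/
def IsPo {σ : Type} (f : (σ → KK p) → KK p) : Prop := ∃ P : Po p σ, ∀ x, f x = ev P x

section

variable {σ τ ρ : Type}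

theorem IsPo.var (i : σ) : IsPo (fun x : σ → KK p => x i) := ⟨X i, fun x => by simp [ev]⟩

theorem IsPo.add {f g : (σ → KK p) → KK p} (hf : IsPo f) (hg : IsPo g) :
    IsPo fun x => f x + g x := by
  obtain ⟨P, hP⟩ := hf
  obtain ⟨Q, hQ⟩ := hg
  exact ⟨P + Q, fun x => by simp [ev, hP, hQ]⟩

theorem IsPo.mul {f g : (σ → KK p) → KK p} (hf : IsPo f) (hg : IsPo g) :
    IsPo fun x => f x * g x := by
  obtain ⟨P, hP⟩ := hf
  obtain ⟨Q, hQ⟩ := hg
  exact ⟨P * Q, fun x => by simp [ev, hP, hQ]⟩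

theorem IsPo.neg {f : (σ → KK p) → KK p} (hf : IsPo f) : IsPo fun x => - f x := by
  obtain ⟨P, hP⟩ := hf
  exact ⟨- P, fun x => by simp [ev, hP]⟩

theorem IsPo.sub {f g : (σ → KK p) → KK p} (hf : IsPo f) (hg : IsPo g) :
    IsPo fun x => f x - g x := by
  simp only [sub_eq_add_neg]
  exact hf.add hg.neg

theorem IsPo.pow {f : (σ → KK p) → KK p} (hf : IsPo f) (n : ℕ) : IsPo fun x => f x ^ n := by
  obtain ⟨P, hP⟩ := hf
  exact ⟨P ^ n, fun x => by simp [ev, hP]⟩

theorem IsPo.algebraMap (c : Polynomial (ZMod p)) :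
    IsPo fun _ : σ → KK p => algebraMap (Polynomial (ZMod p)) (KK p) c :=
  ⟨C c, fun x => by simp [ev]⟩

theorem algebraMap_X : algebraMap (Polynomial (ZMod p)) (KK p) Polynomial.X = tt := by
  rw [show algebraMap (Polynomial (ZMod p)) (LaurentSeries (ZMod p)) Polynomial.X =
    HahnSeries.ofPowerSeries ℤ (ZMod p)
      (algebraMap (Polynomial (ZMod p)) (PowerSeries (ZMod p)) Polynomial.X) from rfl]
  simp [Polynomial.coe_X, PowerSeries.algebraMap_apply', tt]

theorem IsPo.tt : IsPo fun _ : σ → KK p => (tt : KK p) := by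
  have := IsPo.algebraMap (σ := σ) (Polynomial.X : Polynomial (ZMod p))
  rwa [algebraMap_X] at this

theorem IsPo.const (c : ℕ) : IsPo fun _ : σ → KK p => (c : KK p) :=
  ⟨(c : Po p σ), fun x => by simp [ev]⟩

theorem IsPo.one : IsPo fun _ : σ → KK p => (1 : KK p) := by
  simpa using IsPo.const (σ := σ) (p := p) 1

theorem IsPo.zero : IsPo fun _ : σ → KK p => (0 : KK p) := by
  simpa using IsPo.const (σ := σ) (p := p) 0

theorem IsPo.sum {ι : Type} (s : Finset ι) {f : ι → (σ → KK p) → KK p} (hf : ∀ i, IsPo (f i)) :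
    IsPo fun x => ∑ i ∈ s, f i x := by
  choose P hP using hf
  exact ⟨∑ i ∈ s, P i, fun x => by simp [ev, hP]⟩

theorem IsPo.prod {ι : Type} (s : Finset ι) {f : ι → (σ → KK p) → KK p} (hf : ∀ i, IsPo (f i)) :
    IsPo fun x => ∏ i ∈ s, f i x := by
  choose P hP using hf
  exact ⟨∏ i ∈ s, P i, fun x => by simp [ev, hP]⟩

theorem IsPo.ev (P : Po p σ) : IsPo fun x => ev P x := ⟨P, fun _ => rfl⟩

/-- substitution of polynomial functions -/
theorem IsPo.comp {f : (τ → KK p) → KK p} (hf : IsPo f) {g : τ → (σ → KK p) → KK p}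
    (hg : ∀ i, IsPo (g i)) : IsPo fun x => f fun i => g i x := by
  obtain ⟨P, hP⟩ := hf
  choose Q hQ using hg
  refine ⟨aeval Q P, fun x => ?_⟩
  show f (fun i => g i x) = _
  rw [hP]
  have h1 : (fun i => g i x) = fun i => aeval x (Q i) := funext fun i => hQ i x
  simp only [FT.ev]
  rw [h1]
  have h2 : (MvPolynomial.aeval x).comp (MvPolynomial.aeval Q) =
      (MvPolynomial.aeval fun i => aeval x (Q i) : Po p τ →ₐ[Polynomial (ZMod p)] KK p) := by
    ext i
    simp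
  exact (DFunLike.congr_fun h2 P).symm

/-- the definition with an arbitrary finite type of witnesses -/
theorem ED.of {S : Set (σ → KK p)} [Finite τ] (Φ : Set (Po p (σ ⊕ τ))) (hΦ : Φ.Finite)
    (h : ∀ x, x ∈ S ↔ ∃ z : τ → KK p, ∀ P ∈ Φ, ev P (Sum.elim x z) = 0) : ED S := by
  classical
  obtain ⟨m, ⟨e⟩⟩ := Finite.exists_equiv_fin τ
  refine ⟨m, hΦ.toFinset.image (rename (Sum.map id e)), fun x => ?_⟩
  rw [h]
  have h1 : ∀ (P : Po p (σ ⊕ τ)) (z : Fin m → KK p),
      ev (rename (Sum.map id e) P) (Sum.elim x z) = ev P (Sum.elim x (z ∘ e)) := by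
    intro P z
    simp only [FT.ev, aeval_rename]
    congr 2
    ext i
    rcases i with i | i <;> simp
  constructor
  · rintro ⟨z, hz⟩
    refine ⟨z ∘ e.symm, fun Q hQ => ?_⟩
    obtain ⟨P, hP, rfl⟩ := Finset.mem_image.1 hQ
    rw [h1]
    have h2 : (z ∘ e.symm) ∘ e = z := by
      ext i
      simp
    rw [h2]
    exact hz P (hΦ.mem_toFinset.1 hP)
  · rintro ⟨z, hz⟩
    refine ⟨z ∘ e, fun P hP => ?_⟩
    rw [← h1]
    exact hz _ (Finset.mem_image_of_mem _ (hΦ.mem_toFinset.2 hP))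

theorem ED.eq0 {f : (σ → KK p) → KK p} (hf : IsPo f) : ED {x | f x = 0} := by
  obtain ⟨P, hP⟩ := hf
  refine ED.of (τ := Empty) {rename Sum.inl P} (Set.finite_singleton _) fun x => ?_
  have h1 : ∀ z : Empty → KK p, ev (rename Sum.inl P) (Sum.elim x z) = f x := by
    intro z
    rw [hP]
    simp only [FT.ev, aeval_rename]
    rfl
  constructor
  · intro hx
    refine ⟨fun i => i.elim, fun Q hQ => ?_⟩
    rw [Set.mem_singleton_iff.1 hQ, h1]
    exact hx
  · rintro ⟨z, hz⟩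
    have := hz _ rfl
    rwa [h1] at this

theorem ED.eq {f g : (σ → KK p) → KK p} (hf : IsPo f) (hg : IsPo g) :
    ED {x | f x = g x} := by
  have := ED.eq0 (hf.sub hg)
  simpa only [sub_eq_zero] using this

theorem ED.inter {S T : Set (σ → KK p)} (hS : ED S) (hT : ED T) : ED (S ∩ T) := by
  classical
  obtain ⟨m, Φ, h1⟩ := hS
  obtain ⟨n, Ψ, h2⟩ := hT
  refine ED.of (τ := Fin m ⊕ Fin n)
    ((rename (Sum.map id Sum.inl)) '' Φ ∪ (rename (Sum.map id Sum.inr)) '' Ψ)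
    ((Φ.finite_toSet.image _).union (Ψ.finite_toSet.image _)) fun x => ?_
  have h3 : ∀ (P : Po p (σ ⊕ Fin m)) (z : Fin m ⊕ Fin n → KK p),
      ev (rename (Sum.map id Sum.inl) P) (Sum.elim x z) = ev P (Sum.elim x (z ∘ Sum.inl)) := by
    intro P z
    simp only [FT.ev, aeval_rename]
    congr 2
    ext i
    rcases i with i | i <;> simp
  have h4 : ∀ (P : Po p (σ ⊕ Fin n)) (z : Fin m ⊕ Fin n → KK p),
      ev (rename (Sum.map id Sum.inr) P) (Sum.elim x z) = ev P (Sum.elim x (z ∘ Sum.inr)) := by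
    intro P z
    simp only [FT.ev, aeval_rename]
    congr 2
    ext i
    rcases i with i | i <;> simp
  rw [Set.mem_inter_iff, h1, h2]
  constructor
  · rintro ⟨⟨z, hz⟩, ⟨w, hw⟩⟩
    refine ⟨Sum.elim z w, fun Q hQ => ?_⟩
    rcases hQ with ⟨P, hP, rfl⟩ | ⟨P, hP, rfl⟩
    · rw [h3]
      exact hz P hP
    · rw [h4]
      exact hw P hP
  · rintro ⟨z, hz⟩
    exact ⟨⟨z ∘ Sum.inl, fun P hP => by rw [← h3]; exact hz _ (Or.inl ⟨P, hP, rfl⟩)⟩,
      ⟨z ∘ Sum.inr, fun P hP => by rw [← h4]; exact hz _ (Or.inr ⟨P, hP, rfl⟩)⟩⟩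

theorem ED.union {S T : Set (σ → KK p)} (hS : ED S) (hT : ED T) : ED (S ∪ T) := by
  classical
  obtain ⟨m, Φ, h1⟩ := hS
  obtain ⟨n, Ψ, h2⟩ := hT
  refine ED.of (τ := Fin m ⊕ Fin n)
    ((fun q : Po p (σ ⊕ Fin m) × Po p (σ ⊕ Fin n) =>
      rename (Sum.map id Sum.inl) q.1 * rename (Sum.map id Sum.inr) q.2) '' (Φ ×ˢ Ψ : Finset _))
    ((Finset.finite_toSet _).image _) fun x => ?_
  have h3 : ∀ (P : Po p (σ ⊕ Fin m)) (Q : Po p (σ ⊕ Fin n)) (z : Fin m ⊕ Fin n → KK p),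
      ev (rename (Sum.map id Sum.inl) P * rename (Sum.map id Sum.inr) Q) (Sum.elim x z) =
        ev P (Sum.elim x (z ∘ Sum.inl)) * ev Q (Sum.elim x (z ∘ Sum.inr)) := by
    intro P Q z
    simp only [FT.ev, map_mul, aeval_rename]
    congr 3 <;>
    · ext i
      rcases i with i | i <;> simp
  rw [Set.mem_union, h1, h2]
  constructor
  · rintro (⟨z, hz⟩ | ⟨w, hw⟩)
    · refine ⟨Sum.elim z 0, ?_⟩
      rintro _ ⟨⟨P, Q⟩, hPQ, rfl⟩
      rw [h3]
      have := (Finset.mem_product.1 hPQ).1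
      rw [mul_eq_zero]
      exact Or.inl (hz P this)
    · refine ⟨Sum.elim 0 w, ?_⟩
      rintro _ ⟨⟨P, Q⟩, hPQ, rfl⟩
      rw [h3]
      have := (Finset.mem_product.1 hPQ).2
      rw [mul_eq_zero]
      exact Or.inr (hw Q this)
  · rintro ⟨z, hz⟩
    by_cases h : ∀ P ∈ Φ, ev P (Sum.elim x (z ∘ Sum.inl)) = 0
    · exact Or.inl ⟨_, h⟩
    · push Not at h
      obtain ⟨P, hP, hP2⟩ := h
      refine Or.inr ⟨z ∘ Sum.inr, fun Q hQ => ?_⟩
      have := hz _ ⟨(P, Q), Finset.mem_product.2 ⟨hP, hQ⟩, rfl⟩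
      rw [h3] at this
      exact (mul_eq_zero.1 this).resolve_left hP2

theorem ED.univ : ED (Set.univ : Set (σ → KK p)) := by
  have := ED.eq0 (IsPo.zero (σ := σ) (p := p))
  simpa using this

theorem ED.empty : ED (∅ : Set (σ → KK p)) := by
  have := ED.eq0 (IsPo.one (σ := σ) (p := p))
  simpa using this

theorem ED.congr {S T : Set (σ → KK p)} (hS : ED S) (h : ∀ x, x ∈ T ↔ x ∈ S) : ED T := by
  have : T = S := Set.ext h
  rwa [this]

theorem ED.const (P : Prop) : ED {_x : σ → KK p | P} := by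
  by_cases h : P
  · exact ED.univ.congr fun x => by simp [h]
  · exact ED.empty.congr fun x => by simp [h]

theorem ED.and {P Q : (σ → KK p) → Prop} (hP : ED {x | P x}) (hQ : ED {x | Q x}) :
    ED {x | P x ∧ Q x} := hP.inter hQ

theorem ED.or {P Q : (σ → KK p) → Prop} (hP : ED {x | P x}) (hQ : ED {x | Q x}) :
    ED {x | P x ∨ Q x} := hP.union hQ

theorem ED.all {ι : Type} [Finite ι] {P : ι → (σ → KK p) → Prop} (hP : ∀ i, ED {x | P i x}) :
    ED {x | ∀ i, P i x} := by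
  classical
  have := Fintype.ofFinite ι
  have h1 : ∀ s : Finset ι, ED {x | ∀ i ∈ s, P i x} := by
    intro s
    induction s using Finset.induction_on with
    | empty => exact ED.univ.congr fun x => by simp
    | insert a s ha ih =>
      refine ((hP a).and ih).congr fun x => ?_
      simp
  exact (h1 Finset.univ).congr fun x => by simp

theorem ED.any {ι : Type} [Finite ι] {P : ι → (σ → KK p) → Prop} (hP : ∀ i, ED {x | P i x}) :
    ED {x | ∃ i, P i x} := by
  classical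
  have := Fintype.ofFinite ι
  have h1 : ∀ s : Finset ι, ED {x | ∃ i ∈ s, P i x} := by
    intro s
    induction s using Finset.induction_on with
    | empty => exact ED.empty.congr fun x => by simp
    | insert a s ha ih =>
      refine ((hP a).or ih).congr fun x => ?_
      simp
  exact (h1 Finset.univ).congr fun x => by simp

/-- substitution of polynomial functions -/
theorem ED.comp {S : Set (τ → KK p)} (hS : ED S) {f : τ → (σ → KK p) → KK p}
    (hf : ∀ i, IsPo (f i)) : ED {x | (fun i => f i x) ∈ S} := by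
  obtain ⟨m, Φ, h1⟩ := hS
  choose Q hQ using hf
  let g : τ ⊕ Fin m → Po p (σ ⊕ Fin m) :=
    Sum.elim (fun i => rename Sum.inl (Q i)) (fun j => X (Sum.inr j))
  refine ED.of (τ := Fin m) ((aeval g) '' (Φ : Set (Po p (τ ⊕ Fin m))))
    (Φ.finite_toSet.image _) fun x => ?_
  have h2 : ∀ (P : Po p (τ ⊕ Fin m)) (z : Fin m → KK p),
      ev (aeval g P) (Sum.elim x z) = ev P (Sum.elim (fun i => f i x) z) := by
    intro P z
    have h3 : (MvPolynomial.aeval (Sum.elim x z)).comp (MvPolynomial.aeval g) =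
        (MvPolynomial.aeval (Sum.elim (fun i => f i x) z) :
          Po p (τ ⊕ Fin m) →ₐ[Polynomial (ZMod p)] KK p) := by
      ext i
      rcases i with i | i
      · simp only [AlgHom.comp_apply, aeval_X, Sum.elim_inl, g, aeval_rename]
        rw [hQ]
        rfl
      · simp [g]
    exact DFunLike.congr_fun h3 P
  show (fun i => f i x) ∈ S ↔ _
  rw [h1]
  constructor
  · rintro ⟨z, hz⟩
    refine ⟨z, ?_⟩
    rintro _ ⟨P, hP, rfl⟩
    rw [h2]
    exact hz P hP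
  · rintro ⟨z, hz⟩
    refine ⟨z, fun P hP => ?_⟩
    rw [← h2]
    exact hz _ ⟨P, hP, rfl⟩

/-- projection -/
theorem ED.proj [Finite τ] {S : Set (σ ⊕ τ → KK p)} (hS : ED S) :
    ED {x : σ → KK p | ∃ y : τ → KK p, Sum.elim x y ∈ S} := by
  obtain ⟨m, Φ, h1⟩ := hS
  let e : (σ ⊕ τ) ⊕ Fin m → σ ⊕ (τ ⊕ Fin m) := Equiv.sumAssoc σ τ (Fin m)
  refine ED.of (τ := τ ⊕ Fin m) ((rename e) '' (Φ : Set (Po p ((σ ⊕ τ) ⊕ Fin m))))
    (Φ.finite_toSet.image _) fun x => ?_
  have h2 : ∀ (P : Po p ((σ ⊕ τ) ⊕ Fin m)) (z : τ ⊕ Fin m → KK p),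
      ev (rename e P) (Sum.elim x z) =
        ev P (Sum.elim (Sum.elim x (z ∘ Sum.inl)) (z ∘ Sum.inr)) := by
    intro P z
    simp only [FT.ev, aeval_rename]
    congr 2
    ext i
    rcases i with (i | i) | i <;> simp [e]
  constructor
  · rintro ⟨y, hy⟩
    obtain ⟨z, hz⟩ := (h1 _).1 hy
    refine ⟨Sum.elim y z, ?_⟩
    rintro _ ⟨P, hP, rfl⟩
    rw [h2]
    exact hz P hP
  · rintro ⟨z, hz⟩
    refine ⟨z ∘ Sum.inl, (h1 _).2 ⟨z ∘ Sum.inr, fun P hP => ?_⟩⟩
    rw [← h2]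
    exact hz _ ⟨P, hP, rfl⟩

theorem ED.exs [Finite τ] {R : (σ → KK p) → (τ → KK p) → Prop}
    (h : ED {w : σ ⊕ τ → KK p | R (fun i => w (.inl i)) (fun i => w (.inr i))}) :
    ED {x | ∃ y, R x y} := h.proj

theorem ED.ex {R : (σ → KK p) → KK p → Prop}
    (h : ED {w : σ ⊕ Unit → KK p | R (fun i => w (.inl i)) (w (.inr ()))}) :
    ED {x | ∃ y, R x y} := by
  refine (ED.exs (τ := Unit) (R := fun x y => R x (y ())) h).congr fun x => ?_
  constructor
  · rintro ⟨y, hy⟩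
    exact ⟨fun _ => y, hy⟩
  · rintro ⟨y, hy⟩
    exact ⟨y (), hy⟩

theorem ED.ne0 {f : (σ → KK p) → KK p} (hf : IsPo f) : ED {x | f x ≠ 0} := by
  have h1 : ED {x | ∃ y, f x * y = 1} := by
    refine ED.ex (ED.eq (IsPo.mul (IsPo.comp hf fun i => IsPo.var _) (IsPo.var _)) IsPo.one)
  refine h1.congr fun x => ?_
  constructor
  · intro hx
    exact ⟨(f x)⁻¹, mul_inv_cancel₀ hx⟩
  · rintro ⟨y, hy⟩ h
    have h2 : f x = 0 := h
    rw [h2, zero_mul] at hy
    exact zero_ne_one hy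

end

/-! ## the valuation ring and the constant coefficient -/

theorem norm_le_one_iff (x : KK p) : ‖x‖ ≤ 1 ↔ ∀ k : ℤ, k < 0 → x.coeff k = 0 := by
  have := norm_le_iff x 0
  simpa using this

theorem norm_le_one_iff_root (x : KK p) :
    ‖x‖ ≤ 1 ↔ ∃ y : KK p, y ^ (p + 1) = 1 + tt * x ^ (p + 1) := by
  have h := (Pool.Agent.Y748.UF.t_VAL Pool.Agent.Y675.UF.t_ROOT p).1 x
  rw [norm_le_one_iff, ← Pool.Agent.Y748.UF.mem_iff]
  exact h

section

variable {σ : Type}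

theorem ED.norm_le_one {f : (σ → KK p) → KK p} (hf : IsPo f) : ED {x | ‖f x‖ ≤ 1} := by
  have h1 : ED {x | ∃ y, y ^ (p + 1) = 1 + tt * f x ^ (p + 1)} := by
    refine ED.ex (ED.eq ((IsPo.var _).pow _) (IsPo.one.add (IsPo.tt.mul (IsPo.pow ?_ _))))
    exact IsPo.comp hf fun i => IsPo.var _
  exact h1.congr fun x => norm_le_one_iff_root _

theorem ED.norm_le {f g : (σ → KK p) → KK p} (hf : IsPo f) (hg : IsPo g) :
    ED {x | ‖f x‖ ≤ ‖g x‖} := by
  have h1 : ED {x | ∃ y, ‖y‖ ≤ 1 ∧ f x = y * g x} := by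
    refine ED.ex (ED.and (ED.norm_le_one (IsPo.var _)) (ED.eq ?_ ((IsPo.var _).mul ?_)))
    · exact IsPo.comp hf fun i => IsPo.var _
    · exact IsPo.comp hg fun i => IsPo.var _
  refine h1.congr fun x => ?_
  constructor
  · intro hx
    have hx1 : ‖f x‖ ≤ ‖g x‖ := hx
    by_cases h0 : g x = 0
    · rw [h0, norm_zero] at hx1
      exact ⟨0, by simp, by rw [norm_le_zero_iff.1 hx1, zero_mul]⟩
    · refine ⟨f x / g x, ?_, by field_simp⟩
      rw [norm_div]
      exact div_le_one_of_le₀ hx1 (norm_nonneg _)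
  · rintro ⟨y, hy, h2⟩
    show ‖f x‖ ≤ ‖g x‖
    rw [h2, norm_mul]
    exact mul_le_of_le_one_left (norm_nonneg _) hy

theorem norm_lt_iff_tt (x y : KK p) : ‖x‖ < ‖y‖ ↔ y ≠ 0 ∧ ‖x‖ ≤ ‖tt * y‖ := by
  constructor
  · intro h
    have hy : y ≠ 0 := by
      rintro rfl
      rw [norm_zero] at h
      exact absurd h (not_lt.2 (norm_nonneg _))
    refine ⟨hy, ?_⟩
    by_cases hx : x = 0
    · rw [hx, norm_zero]
      exact norm_nonneg _
    rw [norm_eq_of_ne hx, norm_eq_of_ne hy] at h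
    rw [norm_mul, norm_tt, norm_eq_of_ne hx, norm_eq_of_ne hy]
    have h1 := (zpow_lt_zpow_iff_right₀ (by norm_num : (1 : ℝ) < 2)).1 h
    have h2 : (1 / 2 : ℝ) * 2 ^ (-y.order) = 2 ^ (-y.order - 1) := by
      rw [zpow_sub_one₀ (by norm_num)]
      ring
    rw [h2]
    exact (zpow_le_zpow_iff_right₀ (by norm_num : (1 : ℝ) < 2)).2 (by omega)
  · rintro ⟨hy, h⟩
    rw [norm_mul, norm_tt] at h
    have := norm_pos_iff.2 hy
    linarith

theorem ED.norm_lt {f g : (σ → KK p) → KK p} (hf : IsPo f) (hg : IsPo g) :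
    ED {x | ‖f x‖ < ‖g x‖} := by
  refine ((ED.ne0 hg).and (ED.norm_le hf (IsPo.tt.mul hg))).congr fun x => ?_
  exact norm_lt_iff_tt _ _

open Pool.Agent.Y924.UF in
theorem ED.eE (k : ℕ) : ∀ {σ : Type} {f : (σ → KK p) → KK p}, IsPo f →
    ED {x | Pool.Agent.Y924.UF.Ex (tt : KK p) p k (f x)} := by
  induction k with
  | zero =>
    intro σ f hf
    exact ED.eq0 hf
  | succ k ih =>
    intro σ f hf
    have h1 : ED {x | ∃ w, ∃ y', Pool.Agent.Y924.UF.Ex (tt : KK p) p k y' ∧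
        w ^ p + tt * y' = f x} := by
      refine ED.ex (ED.ex (ED.and (ih (IsPo.var _)) (ED.eq
        (((IsPo.comp (IsPo.var _) fun i => IsPo.var _).pow p).add
          (IsPo.tt.mul (IsPo.var _))) ?_)))
      exact IsPo.comp (IsPo.comp hf fun i => IsPo.var _) fun i => IsPo.var _
    exact h1

theorem ED.coeff0 {f : (σ → KK p) → KK p} (hf : IsPo f) : ED {x | (f x).coeff 0 = 0} := by
  have h1 : ED {x | ∃ w, ∃ y', Pool.Agent.Y924.UF.Ex (tt : KK p) p (p - 1) y' ∧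
      w ^ p + tt * y' = f x + w} := by
    refine ED.ex (ED.ex (ED.and (ED.eE _ (IsPo.var _)) (ED.eq
      (((IsPo.comp (IsPo.var _) fun i => IsPo.var _).pow p).add
        (IsPo.tt.mul (IsPo.var _))) (IsPo.add ?_ (IsPo.comp (IsPo.var _) fun i => IsPo.var _)))))
    exact IsPo.comp (IsPo.comp hf fun i => IsPo.var _) fun i => IsPo.var _
  refine h1.congr fun x => ?_
  exact (Pool.Agent.Y15.UF.t_RES p (f x)).symm

end

end Pool.Agent.Q206.FT
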