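import Pool.Agent.Q206.FT.Closed
import Pool.Agent.Q206.FT.Ex

/-! # Duality: `K` is its own dual by `(s, z) ↦ (s z)_0` -/

set_option autoImplicit false

open Finset

namespace Pool.Agent.Q206.FT

variable {p : ℕ} [hp : Fact p.Prime]

/-- continuous functionals on `K` -/
theorem exists_repr (f : KK p →ₗ[ZMod p] ZMod p) (N : ℤ)
    (hf : ∀ z : KK p, (∀ k < N, z.coeff k = 0) → f z = 0) :
    ∃ s : KK p, ∀ z, f z = (s * z).coeff 0 := by
  let s : KK p := HahnSeries.ofSuppBddBelow (fun n => f (HahnSeries.single (-n) 1)) ⟨-N + 1, by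
    intro n hn
    by_contra h
    push Not at h
    apply hn
    apply hf
    intro k hk
    rw [HahnSeries.coeff_single_of_ne (by omega)]⟩
  have hs : ∀ n, s.coeff n = f (HahnSeries.single (-n) 1) := fun n => rfl
  have hs0 : ∀ n, n ≤ -N → s.coeff n = 0 := by
    intro n hn
    rw [hs]
    apply hf
    intro k hk
    rw [HahnSeries.coeff_single_of_ne (by omega)]
  refine ⟨s, fun z => ?_⟩
  -- the linear map on the right
  let g : KK p →ₗ[ZMod p] ZMod p :=
    { toFun := fun z => (s * z).coeff 0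
      map_add' := fun x y => by rw [mul_add, HahnSeries.coeff_add]
      map_smul' := fun c x => by
        rw [mul_smul_comm, HahnSeries.coeff_smul]
        rfl }
  have hg : ∀ z, g z = (s * z).coeff 0 := fun z => rfl
  have hsing : ∀ (m : ℤ) (c : ZMod p), f (HahnSeries.single m c) = g (HahnSeries.single m c) := by
    intro m c
    have h1 : (HahnSeries.single m c : KK p) = c • (HahnSeries.single m (1 : ZMod p)) := by
      ext n
      rw [HahnSeries.coeff_smul, HahnSeries.coeff_single, HahnSeries.coeff_single]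
      split_ifs <;> simp
    rw [h1, map_smul, map_smul]
    congr 1
    rw [hg]
    have h3 : (s * HahnSeries.single m (1 : ZMod p)).coeff 0 = s.coeff (-m) := by
      have h4 := HahnSeries.coeff_mul_single_add (r := (1 : ZMod p)) (x := s) (a := -m) (b := m)
      rw [neg_add_cancel, mul_one] at h4
      exact h4
    rw [h3, hs, neg_neg]
  have hball : ∀ y : KK p, (∀ k < N, y.coeff k = 0) → g y = 0 := by
    intro y hy
    rw [hg]
    by_cases hs1 : s = 0
    · rw [hs1, zero_mul, HahnSeries.coeff_zero]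
    by_cases hy1 : y = 0
    · rw [hy1, mul_zero, HahnSeries.coeff_zero]
    apply HahnSeries.coeff_eq_zero_of_lt_order
    rw [HahnSeries.order_mul hs1 hy1]
    have h1 : -N < s.order := by
      by_contra h
      push Not at h
      exact hs1 (HahnSeries.coeff_order_eq_zero.1 (hs0 _ h))
    have h2 : N ≤ y.order := by
      by_contra h
      push Not at h
      exact hy1 (HahnSeries.coeff_order_eq_zero.1 (hy _ h))
    omega
  -- truncation
  let z1 : KK p := ∑ m ∈ Ico z.order N, HahnSeries.single m (z.coeff m)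
  have h1 : ∀ k < N, (z - z1).coeff k = 0 := by
    intro k hk
    rw [HahnSeries.coeff_sub, HahnSeries.coeff_sum]
    by_cases hk2 : k < z.order
    · rw [HahnSeries.coeff_eq_zero_of_lt_order hk2, zero_sub, neg_eq_zero]
      refine sum_eq_zero fun m hm => ?_
      rw [HahnSeries.coeff_single_of_ne]
      have := (mem_Ico.1 hm).1
      omega
    · rw [sum_eq_single k]
      · rw [HahnSeries.coeff_single_same, sub_self]
      · intro m _ hm
        rw [HahnSeries.coeff_single_of_ne (Ne.symm hm)]
      · intro h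
        exact absurd (mem_Ico.2 ⟨by omega, hk⟩) h
  have h2 : f z = f z1 := by
    have := hf _ h1
    rw [map_sub, sub_eq_zero] at this
    exact this
  have h3 : g z = g z1 := by
    have := hball _ h1
    rw [map_sub, sub_eq_zero] at this
    exact this
  rw [← hg, h2, h3]
  simp only [z1, map_sum]
  exact sum_congr rfl fun m _ => hsing m _

theorem coeff_sum' {ι : Type} (s : Finset ι) (f : ι → KK p) (n : ℤ) :
    (∑ i ∈ s, f i).coeff n = ∑ i ∈ s, (f i).coeff n := by
  rw [HahnSeries.coeff_sum]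

section

variable {κ : Type} [Fintype κ]

/-- separation of a point from a closed subspace -/
theorem exists_sep (S : Submodule (ZMod p) (κ → KK p)) (hS : IsClosed (S : Set (κ → KK p)))
    (c : κ → KK p) (hc : c ∉ S) : ∃ s : κ → KK p, (∀ y ∈ S, (∑ k, s k * y k).coeff 0 = 0) ∧
      (∑ k, s k * c k).coeff 0 = 1 := by
  classical
  -- a small ball
  obtain ⟨ε, hε, h1⟩ := Metric.isOpen_iff.1 hS.isOpen_compl c hc
  obtain ⟨N, hN⟩ := exists_pow_lt_of_lt_one hε (by norm_num : (1 / 2 : ℝ) < 1)
  have hN' : (2 : ℝ) ^ (-(N : ℤ)) < ε := by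
    rw [zpow_neg, zpow_natCast, ← inv_pow, ← one_div]
    exact hN
  let B : Submodule (ZMod p) (κ → KK p) :=
    { carrier := {y | ∀ k, ∀ n < (N : ℤ), (y k).coeff n = 0}
      add_mem' := by
        intro x y hx hy k n hn
        rw [Pi.add_apply, HahnSeries.coeff_add, hx k n hn, hy k n hn, add_zero]
      zero_mem' := by
        intro k n _
        rw [Pi.zero_apply, HahnSeries.coeff_zero]
      smul_mem' := by
        intro c x hx k n hn
        rw [Pi.smul_apply, HahnSeries.coeff_smul, hx k n hn, smul_zero] }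
  have hcT : c ∉ S ⊔ B := by
    intro h
    obtain ⟨y, hy, b, hb, hyb⟩ := Submodule.mem_sup.1 h
    refine h1 (a := y) ?_ hy
    rw [Metric.mem_ball, dist_eq_norm]
    refine lt_of_le_of_lt ?_ hN'
    have h2 : y - c = -b := by rw [← hyb]; abel
    rw [h2, norm_neg, pi_norm_le_iff_of_nonneg (by positivity)]
    intro k
    rw [norm_le_iff]
    exact hb k
  obtain ⟨f, hf1, hf2⟩ := Submodule.exists_dual_map_eq_bot_of_notMem hcT inferInstance
  have hf3 : ∀ y ∈ S ⊔ B, f y = 0 := by
    intro y hy
    have : f y ∈ Submodule.map f (S ⊔ B) := Submodule.mem_map_of_mem hy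
    rw [hf2] at this
    exact (Submodule.mem_bot (ZMod p)).1 this
  -- normalisation
  let g : (κ → KK p) →ₗ[ZMod p] ZMod p := (f c)⁻¹ • f
  have hg1 : g c = 1 := by
    show (f c)⁻¹ * f c = 1
    exact inv_mul_cancel₀ hf1
  have hg2 : ∀ y ∈ S ⊔ B, g y = 0 := by
    intro y hy
    show (f c)⁻¹ * f y = 0
    rw [hf3 y hy, mul_zero]
  have h2 : ∀ k, ∃ s : KK p, ∀ z, g (Pi.single k z) = (s * z).coeff 0 := by
    intro k
    refine exists_repr (g.comp (LinearMap.single (ZMod p) (fun _ => KK p) k)) N fun z hz => ?_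
    apply hg2
    apply Submodule.mem_sup_right
    intro k' n hn
    simp only [LinearMap.coe_single]
    by_cases hk : k' = k
    · rw [hk, Pi.single_eq_same]
      exact hz n hn
    · rw [Pi.single_eq_of_ne hk, HahnSeries.coeff_zero]
  choose s hs using h2
  have h3 : ∀ y, g y = (∑ k, s k * y k).coeff 0 := by
    intro y
    rw [coeff_sum']
    conv_lhs => rw [← Finset.univ_sum_single y]
    rw [map_sum]
    exact sum_congr rfl fun k _ => hs k (y k)
  refine ⟨s, fun y hy => ?_, ?_⟩
  · rw [← h3]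
    exact hg2 y (Submodule.mem_sup_left hy)
  · rw [← h3]
    exact hg1

end

/-! ## the adjoint of the Frobenius map -/

/-- the series with the coefficients `u_{p n}` -/
noncomputable def lam (u : KK p) : KK p :=
  HahnSeries.ofSuppBddBelow (fun n => u.coeff (p * n)) ⟨min u.order 0, by
    intro n hn
    by_contra h
    push Not at h
    apply hn
    apply HahnSeries.coeff_eq_zero_of_lt_order
    have h1 : (1 : ℤ) ≤ p := by exact_mod_cast hp.out.one_lt.le
    have h2 : n < 0 := lt_of_lt_of_le h (min_le_right _ _)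
    have h3 : n < u.order := lt_of_lt_of_le h (min_le_left _ _)
    have h4 : (p : ℤ) * n ≤ n := by nlinarith
    omega⟩

theorem lam_coeff (u : KK p) (n : ℤ) : (lam u).coeff n = u.coeff (p * n) := rfl

theorem lam_eq_iff (u w : KK p) : lam u = w ↔
    ∃ y, Pool.Agent.Y924.UF.Ex (tt : KK p) p (p - 1) y ∧ w ^ p + tt * y = u := by
  have hp1 : (0 : ℤ) < p := by exact_mod_cast hp.out.pos
  have hp2 := hp.out.two_le
  constructor
  · rintro rfl
    refine ⟨HahnSeries.single (-1 : ℤ) (1 : ZMod p) * (u - lam u ^ p),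
      Pool.Agent.Y15.UF.Ex_of _ _ ?_, ?_⟩
    · intro n hn
      rw [HahnSeries.coeff_single_mul, one_mul, sub_neg_eq_add, HahnSeries.coeff_sub,
        Pool.Agent.Y15.UF.coeff_pow]
      have h1 : (p : ℤ) ∣ n + 1 := by
        by_contra h2
        have h3 := Pool.Agent.Y15.UF.emod_succ (p := p) h2
        rw [add_sub_cancel_right] at h3
        have h4 := Int.emod_lt_of_pos (n + 1) hp1
        omega
      rw [if_pos h1, lam_coeff, Int.mul_ediv_cancel' h1, sub_self]
    · rw [tt, ← mul_assoc, HahnSeries.single_mul_single]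
      have h1 : (HahnSeries.single ((1 : ℤ) + -1) ((1 : ZMod p) * 1)) =
          (1 : LaurentSeries (ZMod p)) := by
        rw [add_neg_cancel, mul_one]
        rfl
      rw [h1, one_mul, add_sub_cancel]
  · rintro ⟨y, hy, rfl⟩
    ext n
    rw [lam_coeff, HahnSeries.coeff_add, Pool.Agent.Y15.UF.coeff_pow, if_pos (dvd_mul_right _ _),
      Int.mul_ediv_cancel_left _ hp1.ne', tt, Pool.Agent.Y15.UF.coeff_tt]
    have h1 : y.coeff (p * n - 1) = 0 := by
      refine Pool.Agent.Y15.UF.Ex_coeff (p - 1) y hy _ ?_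
      have h5 : (p : ℤ) * n - 1 = (p - 1) + p * (n - 1) := by ring
      rw [h5, Int.add_mul_emod_self_left, Int.emod_eq_of_lt (by omega) (by omega)]
      omega
    rw [h1, add_zero]

/-- adjunction -/
theorem coeff_mul_pow (u z : KK p) : (u * z ^ p).coeff 0 = (lam u * z).coeff 0 := by
  have hp1 : (0 : ℤ) < p := by exact_mod_cast hp.out.pos
  obtain ⟨y, hy, h1⟩ := (lam_eq_iff u (lam u)).1 rfl
  have h2 : u * z ^ p = (lam u * z) ^ p + tt * y * z ^ p := by
    conv_lhs => rw [← h1]
    ring
  rw [h2, HahnSeries.coeff_add, Pool.Agent.Y15.UF.coeff_pow, if_pos (dvd_zero _), Int.zero_ediv]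
  have h3 : (tt * y * z ^ p).coeff 0 = 0 := by
    rw [HahnSeries.coeff_mul]
    refine sum_eq_zero fun ij hij => ?_
    rw [Finset.mem_antidiagonal] at hij
    obtain ⟨hi, hj, hij⟩ := hij
    by_cases h4 : (p : ℤ) ∣ ij.2
    · exfalso
      apply hi
      have h5 : (p : ℤ) ∣ ij.1 := by
        have h6 : ij.1 = - ij.2 := by omega
        rw [h6]
        exact (dvd_neg).2 h4
      obtain ⟨m, hm⟩ := h5
      rw [hm, tt, Pool.Agent.Y15.UF.coeff_tt]
      refine Pool.Agent.Y15.UF.Ex_coeff (p - 1) y hy _ ?_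
      have h5 : (p : ℤ) * m - 1 = (p - 1) + p * (m - 1) := by ring
      rw [h5, Int.add_mul_emod_self_left, Int.emod_eq_of_lt (by omega) (by omega)]
      have := hp.out.two_le
      omega
    · rw [Pool.Agent.Y15.UF.coeff_pow, if_neg h4, mul_zero]
  rw [h3, add_zero]

/-- the adjoint of `z ↦ ∑_{j < n} b_j z ^ (p ^ j)` applied to `1` -/
noncomputable def adj : ℕ → (ℕ → KK p) → KK p
  | 0, _ => 0
  | n + 1, b => b 0 + lam (adj n fun j => b (j + 1))

theorem adj_spec (n : ℕ) : ∀ (b : ℕ → KK p) (z : KK p),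
    (∑ j ∈ range n, b j * z ^ (p ^ j)).coeff 0 = (adj n b * z).coeff 0 := by
  induction n with
  | zero =>
    intro b z
    simp [adj]
  | succ n ih =>
    intro b z
    rw [sum_range_succ', pow_zero, pow_one, HahnSeries.coeff_add, adj, add_mul,
      HahnSeries.coeff_add, add_comm, ← coeff_mul_pow, ← ih]
    congr 3
    funext j
    rw [← pow_mul, pow_succ']

theorem eq_zero_of_coeff (w : KK p) (h : ∀ z : KK p, (w * z).coeff 0 = 0) : w = 0 := by
  ext n
  have h1 := h (HahnSeries.single (-n) 1)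
  have h4 := HahnSeries.coeff_mul_single_add (r := (1 : ZMod p)) (x := w) (a := n) (b := -n)
  rw [add_neg_cancel, mul_one] at h4
  rw [← h4, h1, HahnSeries.coeff_zero]

/-- the dual of the valuation ring -/
theorem dual_ball (w : KK p) : (∀ z : KK p, ‖z‖ ≤ 1 → (w * z).coeff 0 = 0) ↔ ‖w‖ ≤ ‖(tt : KK p)‖ := by
  have h0 : ‖(tt : KK p)‖ = 2 ^ (-(1 : ℤ)) := by rw [norm_tt]; norm_num
  rw [h0, norm_le_iff]
  constructor
  · intro h k hk
    have h1 := h (HahnSeries.single (-k) 1) (by
      rw [norm_le_one_iff]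
      intro n hn
      rw [HahnSeries.coeff_single_of_ne (by omega)])
    have h4 := HahnSeries.coeff_mul_single_add (r := (1 : ZMod p)) (x := w) (a := k) (b := -k)
    rw [add_neg_cancel, mul_one] at h4
    rw [← h4, h1]
  · intro h z hz
    rw [norm_le_one_iff] at hz
    by_cases hw1 : w = 0
    · rw [hw1, zero_mul, HahnSeries.coeff_zero]
    by_cases hz1 : z = 0
    · rw [hz1, mul_zero, HahnSeries.coeff_zero]
    apply HahnSeries.coeff_eq_zero_of_lt_order
    rw [HahnSeries.order_mul hw1 hz1]
    have h1 : 1 ≤ w.order := by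
      by_contra h3
      push Not at h3
      exact hw1 (HahnSeries.coeff_order_eq_zero.1 (h _ h3))
    have h2 : 0 ≤ z.order := by
      by_contra h3
      push Not at h3
      exact hz1 (HahnSeries.coeff_order_eq_zero.1 (hz _ h3))
    omega

section

variable {σ : Type}

theorem ED.lamEq {f g : (σ → KK p) → KK p} (hf : IsPo f) (hg : IsPo g) :
    ED {x | lam (f x) = g x} := by
  have h1 : ED {x | ∃ y, Pool.Agent.Y924.UF.Ex (tt : KK p) p (p - 1) y ∧
      g x ^ p + tt * y = f x} := by
    refine ED.ex (ED.and (ED.eE _ (IsPo.var _)) (ED.eq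
      ((IsPo.pow ?_ p).add (IsPo.tt.mul (IsPo.var _))) ?_))
    · exact IsPo.comp hg fun i => IsPo.var _
    · exact IsPo.comp hf fun i => IsPo.var _
  exact h1.congr fun x => lam_eq_iff _ _

theorem ED.adjEq (n : ℕ) : ∀ {σ : Type} {f : ℕ → (σ → KK p) → KK p} {g : (σ → KK p) → KK p},
    (∀ j, IsPo (f j)) → IsPo g → ED {x | adj n (fun j => f j x) = g x} := by
  induction n with
  | zero =>
    intro σ f g _ hg
    exact ED.eq IsPo.zero hg
  | succ n ih =>
    intro σ f g hf hg
    have h1 : ED {x | ∃ w1, ∃ w2, adj n (fun j => f (j + 1) x) = w1 ∧ lam w1 = w2 ∧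
        f 0 x + w2 = g x} := by
      refine ED.ex (ED.ex (ED.and (ih (fun j => ?_) ?_) (ED.and (ED.lamEq ?_ ?_)
        (ED.eq (IsPo.add ?_ ?_) ?_))))
      · exact IsPo.comp (IsPo.comp (hf (j + 1)) fun i => IsPo.var _) fun i => IsPo.var _
      · exact IsPo.var _
      · exact IsPo.var _
      · exact IsPo.var _
      · exact IsPo.comp (IsPo.comp (hf 0) fun i => IsPo.var _) fun i => IsPo.var _
      · exact IsPo.var _
      · exact IsPo.comp (IsPo.comp hg fun i => IsPo.var _) fun i => IsPo.var _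
    refine h1.congr fun x => ?_
    constructor
    · intro h
      exact ⟨_, _, rfl, rfl, h⟩
    · rintro ⟨w1, w2, rfl, rfl, h⟩
      exact h

end

end Pool.Agent.Q206.FT
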