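import Mathlib

/-! # Specialisation of polynomial relations: algebra -/

set_option autoImplicit false

open MvPolynomial

namespace Pool.Agent.Q206.FT

theorem homog {A0 C : Type} [CommRing A0] [CommRing C] {ι : Type} (g : A0 →+* C) (D : C)
    (n : ι → C) (P : MvPolynomial ι A0) : ∃ (N : ℕ) (Q : C), ∀ (F : Type) [Field F] (ψ : C →+* F),
      ψ D ≠ 0 → ψ Q = ψ D ^ N * MvPolynomial.eval₂ (ψ.comp g) (fun i => ψ (n i) / ψ D) P := by
  induction P using MvPolynomial.induction_on with
  | C a => exact ⟨0, g a, fun F _ ψ _ => by simp⟩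
  | add P1 P2 h1 h2 =>
    obtain ⟨N1, Q1, h1⟩ := h1
    obtain ⟨N2, Q2, h2⟩ := h2
    refine ⟨N1 + N2, Q1 * D ^ N2 + Q2 * D ^ N1, fun F _ ψ hD => ?_⟩
    rw [map_add, map_mul, map_mul, h1 F ψ hD, h2 F ψ hD, map_pow, map_pow,
      MvPolynomial.eval₂_add]
    ring
  | mul_X P i h =>
    obtain ⟨N, Q, h⟩ := h
    refine ⟨N + 1, Q * n i, fun F _ ψ hD => ?_⟩
    rw [map_mul, h F ψ hD, MvPolynomial.eval₂_mul, MvPolynomial.eval₂_X]
    field_simp
    ring

theorem pseudo {A : Type} [CommRing A] [IsDomain A] (f : Polynomial A) (hf : 0 < f.natDegree) :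
    ∀ (n : ℕ) (G : Polynomial A), G.natDegree ≤ n → ∃ (N : ℕ) (H R : Polynomial A),
      Polynomial.C (f.leadingCoeff ^ N) * G = f * H + R ∧ R.natDegree < f.natDegree := by
  intro n
  induction n with
  | zero =>
    intro G hG
    exact ⟨0, 0, G, by simp, by omega⟩
  | succ n ih =>
    intro G hG
    by_cases h1 : G.natDegree < f.natDegree
    · exact ⟨0, 0, G, by simp, h1⟩
    push Not at h1
    have hG0 : G ≠ 0 := by
      rintro rfl
      simp at h1
      omega
    have hf0 : f ≠ 0 := by
      rintro rfl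
      simp at hf
    set k := G.natDegree - f.natDegree with hk
    let M : Polynomial A := Polynomial.C G.leadingCoeff * Polynomial.X ^ k
    let G1 := Polynomial.C f.leadingCoeff * G - f * M
    have hG1 : G1.natDegree ≤ n := by
      rw [Polynomial.natDegree_le_iff_coeff_eq_zero]
      intro j hj
      simp only [G1, M, Polynomial.coeff_sub, Polynomial.coeff_C_mul]
      have h2 : (f * (Polynomial.C G.leadingCoeff * Polynomial.X ^ k)).coeff j =
          G.leadingCoeff * (if k ≤ j then f.coeff (j - k) else 0) := by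
        rw [show f * (Polynomial.C G.leadingCoeff * Polynomial.X ^ k) =
          Polynomial.C G.leadingCoeff * (f * Polynomial.X ^ k) by ring, Polynomial.coeff_C_mul,
          Polynomial.coeff_mul_X_pow']
      rw [h2, if_pos (by omega)]
      rcases Nat.lt_or_ge G.natDegree j with h3 | h3
      · rw [Polynomial.coeff_eq_zero_of_natDegree_lt h3,
          Polynomial.coeff_eq_zero_of_natDegree_lt (by omega : f.natDegree < j - k)]
        ring
      · have h4 : j = G.natDegree := by omega
        have h5 : j - k = f.natDegree := by omega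
        rw [h5, h4]
        simp only [Polynomial.leadingCoeff]
        ring
    obtain ⟨N, H, R, h2, h3⟩ := ih G1 hG1
    refine ⟨N + 1, H + Polynomial.C (f.leadingCoeff ^ N) * M, R, ?_, h3⟩
    rw [pow_succ, Polynomial.C_mul, mul_assoc]
    have h4 : Polynomial.C f.leadingCoeff * G = G1 + f * M := by
      simp only [G1]
      ring
    rw [h4, mul_add, h2]
    ring

end Pool.Agent.Q206.FT
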