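import Pool.Agent.Q206.FT.K0
import Pool.Agent.Q206.FT.EcA

/-! # `F_p(t)^h` is existentially closed in `F_p((t))` -/

set_option autoImplicit false

open RatFunc Topology

namespace Pool.Agent.Q206.FT

variable {p : ℕ} [hp : Fact p.Prime]

section

variable {k : Type} [Field k] {L : Type} [Field L] [Algebra k L]

/-- a simple separable extension of a purely transcendental one: the equation -/
theorem exists_eqn (s : Finset L) (hs : AlgebraicIndependent k (fun i : s => (i : L)))
    (θ : L) (hθ : IsSeparable (IntermediateField.adjoin k (s : Set L)) θ) :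
    ∃ f : Polynomial (MvPolynomial s k), 0 < f.natDegree ∧
      Polynomial.eval₂ (MvPolynomial.aeval (fun i : s => (i : L)) : MvPolynomial s k →ₐ[k] L).toRingHom
        θ f = 0 ∧
      Polynomial.eval₂ (MvPolynomial.aeval (fun i : s => (i : L)) : MvPolynomial s k →ₐ[k] L).toRingHom
        θ (Polynomial.derivative f) ≠ 0 ∧
      ∀ G : Polynomial (MvPolynomial s k), G.natDegree < f.natDegree →
        Polynomial.eval₂ (MvPolynomial.aeval (fun i : s => (i : L)) :
          MvPolynomial s k →ₐ[k] L).toRingHom θ G = 0 → G = 0 := by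
  classical
  set E := IntermediateField.adjoin k (s : Set L) with hE
  let χ : MvPolynomial s k →ₐ[k] L := MvPolynomial.aeval (fun i : s => (i : L))
  have hχinj : Function.Injective χ := hs
  have hχr : Algebra.adjoin k (s : Set L) = χ.range := by
    have := Algebra.adjoin_range_eq_range_aeval k (fun i : s => (i : L))
    rw [← this]
    congr 1
    simp
  have hχE : ∀ a, χ a ∈ E := by
    intro a
    have h1 : χ a ∈ Algebra.adjoin k (s : Set L) := by
      rw [hχr]
      exact ⟨a, rfl⟩
    exact IntermediateField.algebra_adjoin_le_adjoin k _ h1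
  let χE : MvPolynomial s k →+* E :=
    { toFun := fun a => ⟨χ a, hχE a⟩
      map_one' := by ext; simp
      map_mul' := fun a b => by ext; simp
      map_zero' := by ext; simp
      map_add' := fun a b => by ext; simp }
  have hχEinj : Function.Injective χE := by
    intro a b hab
    apply hχinj
    exact congrArg (fun z : E => (z : L)) hab
  have hint : IsIntegral E θ := hθ.isIntegral
  set μ := minpoly E θ with hμ
  have hfrac : ∀ c : E, ∃ q r : MvPolynomial s k, q ≠ 0 ∧ χE q * c = χE r := by
    intro c
    obtain ⟨r, hr, q, hq, hc⟩ := IntermediateField.mem_adjoin_iff_div.1 c.2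
    rw [hχr] at hr hq
    obtain ⟨r', hr'⟩ := hr
    obtain ⟨q', hq'⟩ := hq
    by_cases hq0 : q = 0
    · refine ⟨1, 0, one_ne_zero, ?_⟩
      ext
      rw [hq0, div_zero] at hc
      simp [hc]
    · refine ⟨q', r', ?_, ?_⟩
      · rintro rfl
        apply hq0
        rw [← hq']
        simp
      · ext
        show χ q' * (c : L) = χ r'
        have h1 : χ q' = q := hq'
        have h2 : χ r' = r := hr'
        rw [hc, h1, h2]
        field_simp
  choose q r hq hqr using hfrac
  let N := μ.natDegree
  let a : MvPolynomial s k := ∏ j ∈ Finset.range (N + 1), q (μ.coeff j)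
  have ha : a ≠ 0 := Finset.prod_ne_zero_iff.2 fun j _ => hq _
  let f : Polynomial (MvPolynomial s k) := ∑ j ∈ Finset.range (N + 1),
    Polynomial.C (r (μ.coeff j) * ∏ i ∈ (Finset.range (N + 1)).erase j, q (μ.coeff i)) *
      Polynomial.X ^ j
  have hfc : f.map χE = Polynomial.C (χE a) * μ := by
    ext1 j
    rw [Polynomial.coeff_map, Polynomial.coeff_C_mul]
    simp only [f, Polynomial.finsetSum_coeff, Polynomial.coeff_C_mul, Polynomial.coeff_X_pow]
    by_cases hj : j ∈ Finset.range (N + 1)
    · rw [Finset.sum_eq_single j]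
      · rw [if_pos rfl, mul_one, map_mul, ← hqr]
        have h1 : a = q (μ.coeff j) * ∏ i ∈ (Finset.range (N + 1)).erase j, q (μ.coeff i) :=
          (Finset.mul_prod_erase _ _ hj).symm
        rw [h1, map_mul]
        ring
      · intro i _ hi
        rw [if_neg (Ne.symm hi), mul_zero]
      · intro h
        exact absurd hj h
    · rw [Finset.sum_eq_zero]
      · have h1 : μ.coeff j = 0 := by
          apply Polynomial.coeff_eq_zero_of_natDegree_lt
          rw [Finset.mem_range] at hj
          omega
        rw [h1, mul_zero, map_zero]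
      · intro i hi
        rw [if_neg, mul_zero]
        rintro rfl
        exact hj hi
  have haE : χE a ≠ 0 := by
    intro h
    exact ha (hχEinj (by rw [h, map_zero]))
  have hdeg : f.natDegree = N := by
    have h1 := Polynomial.natDegree_map_eq_of_injective hχEinj f
    rw [← h1, hfc, Polynomial.natDegree_C_mul haE]
  have hNpos : 0 < N := minpoly.natDegree_pos hint
  have hev : ∀ G : Polynomial (MvPolynomial s k),
      Polynomial.eval₂ χ.toRingHom θ G = Polynomial.aeval θ (G.map χE) := by
    intro G
    rw [Polynomial.aeval_def, Polynomial.eval₂_map]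
    rfl
  refine ⟨f, by omega, ?_, ?_, fun G hG hG0 => ?_⟩
  · show Polynomial.eval₂ χ.toRingHom θ f = 0
    rw [hev, hfc, map_mul, minpoly.aeval, mul_zero]
  · show Polynomial.eval₂ χ.toRingHom θ (Polynomial.derivative f) ≠ 0
    rw [hev, ← Polynomial.derivative_map, hfc, Polynomial.derivative_C_mul, map_mul,
      Polynomial.aeval_C]
    refine mul_ne_zero ?_ ?_
    · intro h
      apply haE
      exact (map_eq_zero_iff _ (algebraMap E L).injective).1 h
    · exact Polynomial.Separable.aeval_derivative_ne_zero hθ (minpoly.aeval _ _)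
  · have hG1 : Polynomial.eval₂ χ.toRingHom θ G = 0 := hG0
    rw [hev] at hG1
    by_contra hne
    have h1 : G.map χE ≠ 0 := by
      intro h
      exact hne ((Polynomial.map_eq_zero_iff hχEinj).1 h)
    have h2 := Polynomial.natDegree_le_natDegree (minpoly.degree_le_of_ne_zero E θ h1 hG1)
    rw [Polynomial.natDegree_map_eq_of_injective hχEinj, ← hμ] at h2
    omega

end

/-- the evaluation of polynomials in `s` and `T` -/
noncomputable def evp {ι k K : Type} [CommRing k] [CommRing K] [Algebra k K] (x : ι → K) (y : K) :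
    Polynomial (MvPolynomial ι k) →+* K :=
  Polynomial.eval₂RingHom (MvPolynomial.aeval x : MvPolynomial ι k →ₐ[k] K).toRingHom y

section

variable {ι : Type} [Fintype ι] {k : Type} [CommRing k] [Algebra k (KK p)]

theorem evp_analytic (f : Polynomial (MvPolynomial ι k)) (a : (ι → KK p) × KK p) :
    AnalyticAt (KK p) (fun q : (ι → KK p) × KK p => evp q.1 q.2 f) a := by
  have h1 : (fun q : (ι → KK p) × KK p => evp q.1 q.2 f) = fun q =>
      ∑ j ∈ Finset.range (f.natDegree + 1), MvPolynomial.aeval q.1 (f.coeff j) * q.2 ^ j := by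
    funext q
    simp only [evp, Polynomial.coe_eval₂RingHom]
    rw [Polynomial.eval₂_eq_sum_range]
    rfl
  rw [h1]
  refine Finset.analyticAt_fun_sum _ fun j _ => ?_
  refine AnalyticAt.mul ?_ ?_
  · refine AnalyticAt.aeval_mvPolynomial (𝕜 := KK p) (f := fun q : (ι → KK p) × KK p => q.1)
      (fun i => ?_) _
    exact ((ContinuousLinearMap.proj (R := KK p) (φ := fun _ : ι => KK p) i).comp
      (ContinuousLinearMap.fst (KK p) (ι → KK p) (KK p))).analyticAt a
  · exact analyticAt_snd.pow j

/-- solutions near a nonsingular solution -/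
theorem exists_near (f : Polynomial (MvPolynomial ι k)) (x : ι → KK p) (y : KK p)
    (h0 : evp x y f = 0) (h1 : evp x y (Polynomial.derivative f) ≠ 0)
    (W : Set ((ι → KK p) × KK p)) (hW : W ∈ 𝓝 (x, y)) :
    ∀ᶠ x' in 𝓝 x, ∃ y', (x', y') ∈ W ∧ evp x' y' f = 0 := by
  let F : (ι → KK p) × KK p → KK p := fun q => evp q.1 q.2 f
  have hF : HasStrictFDerivAt F (fderiv (KK p) F (x, y)) (x, y) :=
    (evp_analytic f (x, y)).hasStrictFDerivAt
  set F' := fderiv (KK p) F (x, y) with hF'
  let Φ : (ι → KK p) × KK p → (ι → KK p) × KK p := fun q => (q.1, F q)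
  have hΦ : HasStrictFDerivAt Φ ((ContinuousLinearMap.fst (KK p) (ι → KK p) (KK p)).prod F')
      (x, y) := hasStrictFDerivAt_fst.prodMk hF
  -- the derivative with respect to the last variable
  have hlast : F' (0, 1) = evp x y (Polynomial.derivative f) := by
    have h2 : HasFDerivAt (fun z : KK p => ((x, z) : (ι → KK p) × KK p))
        (ContinuousLinearMap.inr (KK p) (ι → KK p) (KK p)) y := hasFDerivAt_prodMk_right x y
    have h3 : HasFDerivAt (fun z : KK p => F (x, z))
        (F'.comp (ContinuousLinearMap.inr (KK p) (ι → KK p) (KK p))) y :=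
      HasFDerivAt.comp y (g := F) hF.hasFDerivAt h2
    let g : Polynomial (KK p) := f.map (MvPolynomial.aeval x : MvPolynomial ι k →ₐ[k] KK p).toRingHom
    have h4 : (fun z : KK p => F (x, z)) = fun z => g.eval z := by
      funext z
      simp only [F, evp, g, Polynomial.coe_eval₂RingHom, Polynomial.eval_map]
    rw [h4] at h3
    have h5 := g.hasDerivAt y
    have h6 := h3.hasDerivAt.unique h5
    have h7 : F' (0, 1) = g.derivative.eval y := by
      rw [← h6]
      simp
    rw [h7, Polynomial.derivative_map, Polynomial.eval_map]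
    rfl
  have hsurj : (((ContinuousLinearMap.fst (KK p) (ι → KK p) (KK p)).prod F' :
      (ι → KK p) × KK p →L[KK p] (ι → KK p) × KK p) :
      (ι → KK p) × KK p →ₗ[KK p] (ι → KK p) × KK p).range = ⊤ := by
    rw [LinearMap.range_eq_top]
    rintro ⟨v, w⟩
    refine ⟨(v, (w - F' (v, 0)) / F' (0, 1)), ?_⟩
    have h3 : F' (v, (w - F' (v, 0)) / F' (0, 1)) = w := by
      have h4 : ((v, (w - F' (v, 0)) / F' (0, 1)) : (ι → KK p) × KK p) =
          (v, 0) + ((w - F' (v, 0)) / F' (0, 1)) • ((0, 1) : (ι → KK p) × KK p) := by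
        simp
      rw [h4, map_add, map_smul, smul_eq_mul]
      have h5 : F' (0, 1) ≠ 0 := by rw [hlast]; exact h1
      field_simp
      ring
    show (v, F' (v, (w - F' (v, 0)) / F' (0, 1))) = (v, w)
    rw [h3]
  have hmap := hΦ.map_nhds_eq_of_surj hsurj
  have h2 : Φ '' W ∈ 𝓝 (Φ (x, y)) := by
    rw [← hmap]
    exact Filter.image_mem_map hW
  have h3 : Φ (x, y) = (x, 0) := by
    show (x, evp x y f) = (x, 0)
    rw [h0]
  rw [h3] at h2
  have h4 : Filter.Tendsto (fun x' : ι → KK p => ((x', (0 : KK p)) : (ι → KK p) × KK p)) (𝓝 x)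
      (𝓝 (x, 0)) := (Continuous.prodMk continuous_id continuous_const).tendsto x
  filter_upwards [h4 h2] with x' hx'
  obtain ⟨⟨a, b⟩, hab, h5⟩ := hx'
  have h6 : a = x' := congrArg Prod.fst h5
  have h7 : evp a b f = 0 := congrArg Prod.snd h5
  subst h6
  exact ⟨b, hab, h7⟩

end

end Pool.Agent.Q206.FT
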