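import Pool.Agent.Q206.FT.EcB

/-! # `F_p(t)^h` is existentially closed in `F_p((t))` -/

set_option autoImplicit false

open RatFunc Topology

namespace Pool.Agent.Q206.FT

variable {p : ℕ} [hp : Fact p.Prime]

theorem dense_k0 : Dense {x : KK p | x ∈ k0 p} := by
  have h1 : DenseRange (algebraMap (RatFunc (ZMod p)) (LaurentSeries (ZMod p))) :=
    LaurentSeries.coe_range_dense
  refine Dense.mono ?_ h1
  rintro _ ⟨x, rfl⟩
  exact (k0 p).algebraMap_mem x

/-- an element algebraic over `k0` is in `k0` -/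
theorem mem_of_algebraic (x : KK p) (hx : IsAlgebraic (k0 p) x) : x ∈ k0 p := by
  rw [mem_algebraicClosure_iff]
  have : Algebra.IsAlgebraic (RF p) (k0 p) := algebraicClosure.isAlgebraic (RF p) (KK p)
  exact hx.restrictScalars (RF p)

theorem evp_map {ι k K1 K2 : Type} [CommRing k] [CommRing K1] [CommRing K2] [Algebra k K1]
    [Algebra k K2] (j : K1 →ₐ[k] K2) (x : ι → K1) (y : K1) (G : Polynomial (MvPolynomial ι k)) :
    j (evp x y G) = evp (fun i => j (x i)) (j y) G := by
  simp only [evp, Polynomial.coe_eval₂RingHom]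
  have h1 := Polynomial.hom_eval₂ G (MvPolynomial.aeval x : MvPolynomial ι k →ₐ[k] K1).toRingHom
    j.toRingHom y
  have h2 : j.toRingHom.comp (MvPolynomial.aeval x : MvPolynomial ι k →ₐ[k] K1).toRingHom =
      (MvPolynomial.aeval (fun i => j (x i)) : MvPolynomial ι k →ₐ[k] K2).toRingHom := by
    apply MvPolynomial.ringHom_ext
    · intro r
      simp
    · intro i
      simp
  rw [h2] at h1
  exact h1

/-- **`F_p(t)^h` is existentially closed in `F_p((t))`.** -/
theorem ec {σ : Type} {m : ℕ} (Φ : Finset (Po p (σ ⊕ Fin m))) (x : σ → KK p)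
    (hx : ∀ i, x i ∈ k0 p) (z : Fin m → KK p) (hz : ∀ P ∈ Φ, ev P (Sum.elim x z) = 0) :
    ∃ z' : Fin m → KK p, (∀ i, z' i ∈ k0 p) ∧ ∀ P ∈ Φ, ev P (Sum.elim x z') = 0 := by
  classical
  let L : IntermediateField (k0 p) (KK p) := IntermediateField.adjoin (k0 p) (Set.range z)
  have hfg : L.FG := IntermediateField.fg_adjoin_of_finite (Set.finite_range z)
  have : Algebra.EssFiniteType (k0 p) L := IntermediateField.essFiniteType_iff.2 hfg
  have hind : ∀ s : Finset L, LinearIndepOn (k0 p) id (s : Set L) →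
      LinearIndepOn (k0 p) (fun x => x ^ p) (s : Set L) := by
    intro s hs
    have h1 : LinearIndependent (k0 p) (fun i : (s : Set L) => ((i : L) : KK p)) :=
      LinearIndependent.map' hs L.val.toLinearMap (LinearMap.ker_eq_bot.2 L.val.injective)
    have h2 := indep_k0 _ h1
    refine LinearIndependent.of_comp L.val.toLinearMap ?_
    exact h2
  obtain ⟨s, hs, hsep⟩ :=
    exists_isTranscendenceBasis_and_isSeparable_of_linearIndepOn_pow_of_essFiniteType
      (k := k0 p) (K := L) p hp.out hind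
  let E := IntermediateField.adjoin (k0 p) (s : Set L)
  have hEss : Algebra.EssFiniteType E L := Algebra.EssFiniteType.of_comp (k0 p) E L
  have hfd : FiniteDimensional E L := by
    have : Algebra.IsAlgebraic E L := Algebra.IsSeparable.isAlgebraic E L
    exact Algebra.finite_of_essFiniteType_of_isAlgebraic
  obtain ⟨θ, hθ⟩ := Field.exists_primitive_element E L
  have hs' : AlgebraicIndependent (k0 p) (fun i : s => (i : L)) := hs.1
  obtain ⟨f, hfpos, hf0, hf1, hfmin⟩ := exists_eqn s hs' θ (Algebra.IsSeparable.isSeparable E θ)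
  let x0 : s → KK p := fun i => ((i : L) : KK p)
  let y0 : KK p := (θ : L)
  let xL : s → L := fun i => (i : L)
  have hval : ∀ G, evp x0 y0 G = ((evp xL θ G : L) : KK p) := fun G => (evp_map L.val xL θ G).symm
  -- elements of `L` as quotients
  have hgen : ∀ w ∈ Algebra.adjoin (k0 p) ((s : Set L) ∪ {θ}), ∃ a, evp (k := k0 p) xL θ a = w := by
    intro w hw
    induction hw using Algebra.adjoin_induction with
    | mem w hw =>
      rcases hw with hw | hw
      · refine ⟨Polynomial.C (MvPolynomial.X ⟨w, hw⟩), ?_⟩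
        simp [evp, xL]
      · refine ⟨Polynomial.X, ?_⟩
        rw [Set.mem_singleton_iff] at hw
        rw [hw]
        simp [evp]
    | algebraMap r =>
      refine ⟨Polynomial.C (MvPolynomial.C r), ?_⟩
      simp [evp]
    | add a b _ _ ha hb =>
      obtain ⟨a', rfl⟩ := ha
      obtain ⟨b', rfl⟩ := hb
      exact ⟨a' + b', map_add _ _ _⟩
    | mul a b _ _ ha hb =>
      obtain ⟨a', rfl⟩ := ha
      obtain ⟨b', rfl⟩ := hb
      exact ⟨a' * b', map_mul _ _ _⟩
  have hquot : ∀ w : L, ∃ a d, evp (k := k0 p) xL θ d ≠ 0 ∧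
      w * evp (k := k0 p) xL θ d = evp (k := k0 p) xL θ a := by
    intro w
    have h1 : w ∈ IntermediateField.adjoin (k0 p) ((s : Set L) ∪ {θ}) := by
      rw [← IntermediateField.adjoin_adjoin_left, hθ]
      trivial
    obtain ⟨r, hr, q, hq, hc⟩ := IntermediateField.mem_adjoin_iff_div.1 h1
    obtain ⟨r', hr'⟩ := hgen r hr
    obtain ⟨q', hq'⟩ := hgen q hq
    by_cases hq0 : q = 0
    · refine ⟨0, 1, by simp, ?_⟩
      rw [hc, hq0, div_zero, zero_mul, map_zero]
    · refine ⟨r', q', by rwa [hq'], ?_⟩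
      rw [hq', hr', hc]
      field_simp
  have hzL : ∀ i, z i ∈ L := fun i => IntermediateField.subset_adjoin _ _ ⟨i, rfl⟩
  choose a d hd ha using fun i => hquot ⟨z i, hzL i⟩
  let D : Polynomial (MvPolynomial s (k0 p)) := ∏ i, d i
  have hD : evp x0 y0 D ≠ 0 := by
    rw [hval, map_prod]
    intro h
    have h2 : ∏ i, evp (k := k0 p) xL θ (d i) = 0 := Subtype.ext h
    exact Finset.prod_ne_zero_iff.2 (fun i _ => hd i) h2
  let n : σ ⊕ Fin m → Polynomial (MvPolynomial s (k0 p)) :=
    Sum.elim (fun i => Polynomial.C (MvPolynomial.C ⟨x i, hx i⟩) * D)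
      (fun i => a i * ∏ j ∈ Finset.univ.erase i, d j)
  let g : Polynomial (ZMod p) →+* Polynomial (MvPolynomial s (k0 p)) :=
    (Polynomial.C.comp MvPolynomial.C).comp ((algebraMap (RF p) (k0 p)).comp
      (algebraMap (Polynomial (ZMod p)) (RF p)))
  have hg : ∀ (x' : s → KK p) (y' : KK p), (evp x' y').comp g =
      algebraMap (Polynomial (ZMod p)) (KK p) := by
    intro x' y'
    apply Polynomial.ringHom_ext'
    · exact Subsingleton.elim _ _
    · have h1 : ((evp x' y').comp g) Polynomial.X = algebraMap (k0 p) (KK p)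
          (algebraMap (RF p) (k0 p) (algebraMap (Polynomial (ZMod p)) (RF p) Polynomial.X)) := by
        simp [g, evp]
      rw [h1, algebraMap_X, ← tt_RF]
      rfl
  have hn : (fun i => evp x0 y0 (n i) / evp x0 y0 D) = Sum.elim x z := by
    funext i
    rcases i with i | i
    · simp only [n, Sum.elim_inl, map_mul]
      rw [mul_div_assoc, div_self hD, mul_one]
      simp [evp]
    · simp only [n, Sum.elim_inr]
      rw [div_eq_iff hD]
      have h1 : evp x0 y0 D = evp x0 y0 (d i) * evp x0 y0 (∏ j ∈ Finset.univ.erase i, d j) := by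
        rw [← map_mul]
        congr 1
        exact (Finset.mul_prod_erase _ _ (Finset.mem_univ i)).symm
      have h2 : evp x0 y0 (a i) = z i * evp x0 y0 (d i) := by
        rw [hval, hval, ← ha i]
        rfl
      rw [map_mul, h2, h1]
      ring
  choose N Q hQ using fun P => homog g D n P
  have hQ0 : ∀ P ∈ Φ, evp x0 y0 (Q P) = 0 := by
    intro P hP
    rw [hQ P _ _ hD, hg, hn]
    have : MvPolynomial.eval₂ (algebraMap (Polynomial (ZMod p)) (KK p)) (Sum.elim x z) P =
      ev P (Sum.elim x z) := rfl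
    rw [this, hz P hP, mul_zero]
  -- the neighbourhood
  have hf00 : evp x0 y0 f = 0 := by
    rw [hval]
    have : evp xL θ f = 0 := hf0
    rw [this]
    rfl
  have hf10 : evp x0 y0 (Polynomial.derivative f) ≠ 0 := by
    rw [hval]
    intro h
    exact hf1 (Subtype.ext h)
  have hlc : MvPolynomial.aeval x0 f.leadingCoeff ≠ 0 := by
    have h1 : MvPolynomial.aeval x0 f.leadingCoeff =
        ((MvPolynomial.aeval xL f.leadingCoeff : L) : KK p) := by
      have h2 := evp_map L.val xL θ (Polynomial.C f.leadingCoeff)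
      simp only [evp, Polynomial.coe_eval₂RingHom, Polynomial.eval₂_C] at h2
      exact h2.symm
    rw [h1]
    intro h
    have h3 : MvPolynomial.aeval xL f.leadingCoeff = 0 := Subtype.ext h
    have h4 : f.leadingCoeff = 0 := by
      apply hs'
      rw [map_zero]
      exact h3
    rw [Polynomial.leadingCoeff_eq_zero] at h4
    rw [h4, Polynomial.natDegree_zero] at hfpos
    exact lt_irrefl _ hfpos
  let W : Set ((s → KK p) × KK p) := {q | evp q.1 q.2 D ≠ 0 ∧
    evp (k := k0 p) q.1 q.2 (Polynomial.C f.leadingCoeff) ≠ 0}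
  have hW : W ∈ 𝓝 (x0, y0) := by
    have h1 : ∀ᶠ q in 𝓝 (x0, y0), evp q.1 q.2 D ≠ 0 :=
      (evp_analytic D (x0, y0)).continuousAt.eventually_ne hD
    have h2 : ∀ᶠ q in 𝓝 (x0, y0), evp (k := k0 p) q.1 q.2 (Polynomial.C f.leadingCoeff) ≠ 0 := by
      refine (evp_analytic (Polynomial.C f.leadingCoeff) (x0, y0)).continuousAt.eventually_ne ?_
      show evp x0 y0 (Polynomial.C f.leadingCoeff) ≠ 0
      simpa [evp] using hlc
    exact h1.and h2
  have hnear := exists_near f x0 y0 hf00 hf10 W hW
  have hdense : Dense {x' : s → KK p | ∀ i, x' i ∈ k0 p} := by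
    have h1 := dense_pi (α := fun _ : s => KK p) Set.univ (s := fun _ => {x : KK p | x ∈ k0 p})
      (fun _ _ => dense_k0)
    refine Dense.mono ?_ h1
    intro x' hx' i
    exact hx' i trivial
  obtain ⟨x', hx'k, ⟨y', ⟨hW1, hW2⟩, hfx⟩⟩ : ∃ x' ∈ {x' : s → KK p | ∀ i, x' i ∈ k0 p},
      ∃ y', (x', y') ∈ W ∧ evp x' y' f = 0 := by
    obtain ⟨U, hU1, hU2, hU3⟩ := mem_nhds_iff.1 hnear
    obtain ⟨x', hx'1, hx'2⟩ := hdense.exists_mem_open hU2 ⟨x0, hU3⟩
    exact ⟨x', hx'1, hU1 hx'2⟩
  -- the relations are preserved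
  have hQ' : ∀ P ∈ Φ, evp x' y' (Q P) = 0 := by
    intro P hP
    obtain ⟨M, H, R, h1, h2⟩ := pseudo f hfpos _ (Q P) le_rfl
    have h3 : evp x0 y0 R = 0 := by
      have h4 := congrArg (evp x0 y0) h1
      rw [map_mul, hQ0 P hP, mul_zero, map_add, map_mul, hf00, zero_mul, zero_add] at h4
      exact h4.symm
    have h4 : R = 0 := by
      apply hfmin R h2
      rw [hval] at h3
      exact Subtype.ext h3
    rw [h4, add_zero] at h1
    have h5 := congrArg (evp x' y') h1
    rw [map_mul, map_mul, hfx, zero_mul, Polynomial.C_pow, map_pow] at h5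
    exact (mul_eq_zero.1 h5).resolve_left (pow_ne_zero _ hW2)
  -- the new point
  let j : k0 p →ₐ[k0 p] KK p := Algebra.ofId (k0 p) (KK p)
  have hj : ∀ c : k0 p, j c = (c : KK p) := fun c => rfl
  let x'' : s → k0 p := fun i => ⟨x' i, hx'k i⟩
  have hy'k : y' ∈ k0 p := by
    apply mem_of_algebraic
    refine ⟨f.map (MvPolynomial.aeval x'' : MvPolynomial s (k0 p) →ₐ[k0 p] k0 p).toRingHom, ?_, ?_⟩
    · intro h
      have h1 := congrArg (fun G => G.coeff f.natDegree) h
      simp only [Polynomial.coeff_map, Polynomial.coeff_zero] at h1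
      apply hW2
      have h3 := evp_map (k := k0 p) j x'' 0 (Polynomial.C f.leadingCoeff)
      have h4 : evp (k := k0 p) x'' 0 (Polynomial.C f.leadingCoeff) = 0 := by
        simp only [evp, Polynomial.coe_eval₂RingHom, Polynomial.eval₂_C]
        exact h1
      rw [h4] at h3
      have h5 : evp (k := k0 p) x' y' (Polynomial.C f.leadingCoeff) =
          evp (k := k0 p) (fun i => j (x'' i)) (j 0) (Polynomial.C f.leadingCoeff) := by
        simp only [evp, Polynomial.coe_eval₂RingHom, Polynomial.eval₂_C]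
        rfl
      rw [h5, ← h3, map_zero]
    · rw [Polynomial.aeval_def, Polynomial.eval₂_map]
      have h1 : (algebraMap (k0 p) (KK p)).comp
          (MvPolynomial.aeval x'' : MvPolynomial s (k0 p) →ₐ[k0 p] k0 p).toRingHom =
          (MvPolynomial.aeval x' : MvPolynomial s (k0 p) →ₐ[k0 p] KK p).toRingHom := by
        apply MvPolynomial.ringHom_ext
        · intro r
          simp
        · intro i
          simp [x'']
      rw [h1]
      exact hfx
  let y'' : k0 p := ⟨y', hy'k⟩
  have hmem : ∀ G, evp (k := k0 p) x' y' G ∈ k0 p := by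
    intro G
    have h1 : evp (k := k0 p) x' y' G = ((evp x'' y'' G : k0 p) : KK p) :=
      (evp_map j x'' y'' G).symm
    rw [h1]
    exact (evp x'' y'' G : k0 p).2
  refine ⟨fun i => evp x' y' (n (Sum.inr i)) / evp x' y' D,
    fun i => div_mem (hmem _) (hmem _), fun P hP => ?_⟩
  have h1 := hQ' P hP
  rw [hQ P _ _ hW1, hg] at h1
  have h2 := (mul_eq_zero.1 h1).resolve_left (pow_ne_zero _ hW1)
  have h3 : (fun i => evp x' y' (n i) / evp x' y' D) =
      Sum.elim x fun i => evp x' y' (n (Sum.inr i)) / evp x' y' D := by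
    funext i
    rcases i with i | i
    · simp only [n, Sum.elim_inl, map_mul]
      rw [mul_div_assoc, div_self hW1, mul_one]
      simp [evp]
    · rfl
  rw [h3] at h2
  exact h2

end Pool.Agent.Q206.FT
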