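import Pool.Agent.Q206.FT.Dual

/-! # The relative algebraic closure of `F_p(t)` in `F_p((t))`: `p`-th powers -/

set_option autoImplicit false

open Finset RatFunc

namespace Pool.Agent.Q206.FT

variable {p : ℕ} [hp : Fact p.Prime]

theorem lam_add (u v : KK p) : lam (u + v) = lam u + lam v := by
  ext n
  rw [lam_coeff, HahnSeries.coeff_add, HahnSeries.coeff_add, lam_coeff, lam_coeff]

theorem lam_zero : lam (0 : KK p) = 0 := by
  ext n
  rw [lam_coeff, HahnSeries.coeff_zero, HahnSeries.coeff_zero]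

theorem lam_sum {ι : Type*} (s : Finset ι) (f : ι → KK p) :
    lam (∑ i ∈ s, f i) = ∑ i ∈ s, lam (f i) := by
  classical
  induction s using Finset.induction_on with
  | empty => simp [lam_zero]
  | insert a s ha ih => rw [sum_insert ha, sum_insert ha, lam_add, ih]

theorem lam_mul_pow (u z : KK p) : lam (u * z ^ p) = lam u * z := by
  rw [← sub_eq_zero]
  apply eq_zero_of_coeff
  intro w
  have h1 : (lam u * z * w).coeff 0 = (u * (z * w) ^ p).coeff 0 := by
    rw [mul_assoc, ← coeff_mul_pow]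
  rw [sub_mul, HahnSeries.coeff_sub, ← coeff_mul_pow, sub_eq_zero, h1]
  congr 1
  ring

/-- the coordinates over `K ^ p` -/
noncomputable def crd (j : ℕ) (a : KK p) : KK p := lam (tt ^ (-(j : ℤ)) * a)

theorem coeff_tpow_mul (m : ℤ) (y : KK p) (n : ℤ) :
    (tt ^ m * y).coeff n = y.coeff (n - m) := by
  rw [tt_zpow, HahnSeries.coeff_single_mul, one_mul]

theorem sum_crd (a : KK p) : a = ∑ j ∈ range p, tt ^ j * crd j a ^ p := by
  have hp1 : (0 : ℤ) < p := by exact_mod_cast hp.out.pos
  ext n
  rw [coeff_sum']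
  have h1 : ∀ j : ℕ, (tt ^ j * crd j a ^ p).coeff n =
      if (p : ℤ) ∣ n - j then a.coeff n else 0 := by
    intro j
    have h2 : (tt : KK p) ^ j = tt ^ (j : ℤ) := (zpow_natCast _ _).symm
    rw [h2, coeff_tpow_mul, Pool.Agent.Y15.UF.coeff_pow]
    by_cases h3 : (p : ℤ) ∣ n - j
    · rw [if_pos h3, if_pos h3, crd, lam_coeff, Int.mul_ediv_cancel' h3, coeff_tpow_mul]
      congr 1
      ring
    · rw [if_neg h3, if_neg h3]
  have h4 := Int.emod_nonneg n hp1.ne'
  have h5 := Int.emod_lt_of_pos n hp1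
  rw [sum_eq_single (n % p).toNat]
  · rw [h1, if_pos]
    rw [Int.toNat_of_nonneg h4]
    exact Int.dvd_self_sub_of_emod_eq rfl
  · intro j hj hj2
    rw [h1, if_neg]
    intro h6
    apply hj2
    have h7 := mem_range.1 hj
    have h8 : n % p = j := by
      obtain ⟨q, hq⟩ := h6
      have h9 : n = j + p * q := by omega
      rw [h9, Int.add_mul_emod_self_left, Int.emod_eq_of_lt (by omega) (by omega)]
    rw [h8]
    simp
  · intro h
    exfalso
    apply h
    rw [mem_range]
    omega

theorem crd_sum {ι : Type*} (s : Finset ι) (c x : ι → KK p) (j : ℕ) :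
    crd j (∑ i ∈ s, c i * x i ^ p) = ∑ i ∈ s, crd j (c i) * x i := by
  simp only [crd]
  rw [mul_sum, lam_sum]
  refine sum_congr rfl fun i _ => ?_
  rw [← mul_assoc, lam_mul_pow]

theorem eq_zero_of_crd (a : KK p) (h : ∀ j ∈ range p, crd j a = 0) : a = 0 := by
  rw [sum_crd a]
  refine sum_eq_zero fun j hj => ?_
  rw [h j hj, zero_pow hp.out.ne_zero, mul_zero]

/-- linear independence over a field stable under the coordinate maps -/
theorem indep_pow {M : Type} [Field M] [Algebra M (KK p)]
    (hM : ∀ (a : M) (j : ℕ), ∃ b : M, algebraMap M (KK p) b = crd j (algebraMap M (KK p) a))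
    {ι : Type*} (x : ι → KK p) (hx : LinearIndependent M x) :
    LinearIndependent M fun i => x i ^ p := by
  rw [linearIndependent_iff'] at hx ⊢
  intro s g hg i hi
  have h1 : ∑ i ∈ s, algebraMap M (KK p) (g i) * x i ^ p = 0 := by
    rw [← hg]
    exact sum_congr rfl fun i _ => (Algebra.smul_def _ _).symm
  have h2 : ∀ j ∈ range p, crd j (algebraMap M (KK p) (g i)) = 0 := by
    intro j _
    have h3 := congrArg (crd j) h1
    rw [crd_sum] at h3
    have h4 : crd j (0 : KK p) = 0 := by rw [crd, mul_zero, lam_zero]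
    rw [h4] at h3
    choose b hb using fun i => hM (g i) j
    have h5 : ∑ i ∈ s, b i • x i = 0 := by
      rw [← h3]
      refine sum_congr rfl fun i _ => ?_
      rw [Algebra.smul_def, hb]
    rw [← hb, hx s b h5 i hi, map_zero]
  have h3 := eq_zero_of_crd _ h2
  exact (map_eq_zero_iff _ (algebraMap M (KK p)).injective).1 h3

/-- the field `F_p(t)` -/
abbrev RF (p : ℕ) [Fact p.Prime] : Type := RatFunc (ZMod p)

theorem algMap_RF (P : Polynomial (ZMod p)) :
    algebraMap (RF p) (KK p) (algebraMap (Polynomial (ZMod p)) (RF p) P) =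
      algebraMap (Polynomial (ZMod p)) (KK p) P :=
  (IsScalarTower.algebraMap_apply (Polynomial (ZMod p)) (RF p) (KK p) P).symm

theorem tt_RF : algebraMap (RF p) (KK p) (algebraMap (Polynomial (ZMod p)) (RF p) Polynomial.X) =
    tt := by
  rw [algMap_RF, algebraMap_X]

theorem lam_poly (P : Polynomial (ZMod p)) : ∃ Q : Polynomial (ZMod p),
    algebraMap (Polynomial (ZMod p)) (KK p) Q = lam (algebraMap (Polynomial (ZMod p)) (KK p) P) := by
  have hc : ∀ (P : Polynomial (ZMod p)) (n : ℤ),
      (algebraMap (Polynomial (ZMod p)) (KK p) P).coeff n =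
        if n < 0 then 0 else P.coeff n.toNat := by
    intro P n
    have h1 : algebraMap (Polynomial (ZMod p)) (LaurentSeries (ZMod p)) P =
      HahnSeries.ofPowerSeries ℤ (ZMod p) (P : PowerSeries (ZMod p)) := rfl
    rw [h1]
    have h2 := PowerSeries.coeff_coe (f := (P : PowerSeries (ZMod p))) n
    by_cases hn : n < 0
    · rw [if_pos hn] at h2 ⊢
      exact h2
    · rw [if_neg hn] at h2 ⊢
      have h3 : n.natAbs = n.toNat := by omega
      rw [h3, Polynomial.coeff_coe] at h2
      exact h2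
  have hp1 : (0 : ℤ) < p := by exact_mod_cast hp.out.pos
  refine ⟨Polynomial.contract p P, ?_⟩
  ext n
  rw [lam_coeff, hc, hc]
  by_cases hn : n < 0
  · rw [if_pos hn, if_pos (by nlinarith)]
  · rw [if_neg hn, if_neg (by push Not at hn ⊢; positivity),
      Polynomial.coeff_contract hp.out.ne_zero]
    congr 1
    obtain ⟨m, rfl⟩ : ∃ m : ℕ, n = m := ⟨n.toNat, by omega⟩
    rw [Int.toNat_natCast, ← Nat.cast_mul, Int.toNat_natCast, mul_comm]

theorem lam_RF (a : RF p) : ∃ b : RF p, algebraMap (RF p) (KK p) b =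
    lam (algebraMap (RF p) (KK p) a) := by
  obtain ⟨f, g, hg, rfl⟩ := IsFractionRing.div_surjective (A := Polynomial (ZMod p)) a
  have hg0 : algebraMap (Polynomial (ZMod p)) (RF p) g ≠ 0 := by
    intro h
    rw [map_eq_zero_iff _ (IsFractionRing.injective _ _)] at h
    exact nonZeroDivisors.ne_zero hg h
  obtain ⟨Q, hQ⟩ := lam_poly (f * g ^ (p - 1))
  refine ⟨algebraMap _ _ Q / algebraMap _ _ g, ?_⟩
  have h1 : algebraMap (Polynomial (ZMod p)) (RF p) f / algebraMap (Polynomial (ZMod p)) (RF p) g =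
      algebraMap (Polynomial (ZMod p)) (RF p) (f * g ^ (p - 1)) *
        ((algebraMap (Polynomial (ZMod p)) (RF p) g)⁻¹) ^ p := by
    rw [map_mul, map_pow, inv_pow]
    rw [div_eq_mul_inv, mul_assoc]
    congr 1
    rw [eq_mul_inv_iff_mul_eq₀ (pow_ne_zero _ hg0), ← pow_sub_one_mul hp.out.ne_zero]
    field_simp
  rw [h1, map_mul, map_pow, algMap_RF, lam_mul_pow, ← hQ, map_div₀, algMap_RF, map_inv₀, algMap_RF,
    div_eq_mul_inv]

theorem crd_RF (a : RF p) (j : ℕ) : ∃ b : RF p, algebraMap (RF p) (KK p) b =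
    crd j (algebraMap (RF p) (KK p) a) := by
  obtain ⟨b, hb⟩ := lam_RF ((algebraMap (Polynomial (ZMod p)) (RF p) Polynomial.X) ^ (-(j : ℤ)) * a)
  refine ⟨b, ?_⟩
  rw [hb, map_mul, map_zpow₀, tt_RF]
  rfl

/-- the relative algebraic closure of `F_p(t)` in `K` -/
noncomputable abbrev k0 (p : ℕ) [Fact p.Prime] : IntermediateField (RF p) (KK p) :=
  algebraicClosure (RF p) (KK p)

theorem mem_k0 (x : KK p) : x ∈ k0 p ↔ IsAlgebraic (Polynomial (ZMod p)) x := by
  rw [mem_algebraicClosure_iff]
  exact (IsFractionRing.isAlgebraic_iff (Polynomial (ZMod p)) (RF p) (KK p)).symm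

theorem tt_mem : (tt : KK p) ∈ k0 p := by
  rw [← tt_RF]
  exact (k0 p).algebraMap_mem _

theorem lam_mem {a : KK p} (ha : a ∈ k0 p) : lam a ∈ k0 p := by
  classical
  have ha' : IsIntegral (RF p) a := by
    rw [← isAlgebraic_iff_isIntegral]
    exact mem_algebraicClosure_iff.1 ha
  let L : IntermediateField (RF p) (KK p) := IntermediateField.adjoin (RF p) {a}
  have hfd : FiniteDimensional (RF p) L := IntermediateField.adjoin.finiteDimensional ha'
  have haL : a ∈ L := IntermediateField.mem_adjoin_simple_self (RF p) a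
  let e := Module.finBasis (RF p) L
  have h1 : LinearIndependent (RF p) fun i => ((e i : L) : KK p) :=
    e.linearIndependent.map' L.val.toLinearMap (LinearMap.ker_eq_bot.2 L.val.injective)
  have h2 : LinearIndependent (RF p) fun i => ((e i : L) : KK p) ^ p := indep_pow crd_RF _ h1
  have h3 : LinearIndependent (RF p) fun i => (e i : L) ^ p := by
    refine LinearIndependent.of_comp L.val.toLinearMap ?_
    have h4 : (L.val.toLinearMap ∘ fun i => (e i : L) ^ p) = fun i => ((e i : L) : KK p) ^ p := by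
      funext i
      simp
    rw [h4]
    exact h2
  have h4 : (⊤ : Submodule (RF p) L) ≤ Submodule.span (RF p) (Set.range fun i => (e i : L) ^ p) := by
    have h6 : Nonempty (Fin (Module.finrank (RF p) L)) :=
      ⟨⟨0, Module.finrank_pos⟩⟩
    rw [h3.span_eq_top_of_card_eq_finrank (by simp)]
  have h5 : (⟨a, haL⟩ : L) ∈ Submodule.span (RF p) (Set.range fun i => (e i : L) ^ p) :=
    h4 trivial
  rw [Submodule.mem_span_range_iff_exists_fun] at h5
  obtain ⟨c, hc⟩ := h5
  have h6 : a = ∑ i, algebraMap (RF p) (KK p) (c i) * ((e i : L) : KK p) ^ p := by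
    have h7 := congrArg (fun z : L => (z : KK p)) hc
    simp only at h7
    rw [← h7]
    push_cast
    refine sum_congr rfl fun i _ => ?_
    rw [Algebra.smul_def]
  have h7 : lam a = ∑ i, lam (algebraMap (RF p) (KK p) (c i)) * ((e i : L) : KK p) := by
    conv_lhs => rw [h6]
    rw [lam_sum]
    exact sum_congr rfl fun i _ => lam_mul_pow _ _
  have h8 : L ≤ k0 p := by
    rw [IntermediateField.adjoin_simple_le_iff]
    exact ha
  rw [h7]
  refine sum_mem fun i _ => mul_mem ?_ (h8 (e i).2)
  obtain ⟨b, hb⟩ := lam_RF (c i)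
  rw [← hb]
  exact (k0 p).algebraMap_mem _

theorem crd_k0 (a : k0 p) (j : ℕ) : ∃ b : k0 p, algebraMap (k0 p) (KK p) b =
    crd j (algebraMap (k0 p) (KK p) a) :=
  ⟨⟨crd j a, lam_mem (mul_mem (zpow_mem tt_mem _) a.2)⟩, rfl⟩

/-- `K` is separable over `k0`: linearly independent elements have linearly independent `p`-th
powers -/
theorem indep_k0 {ι : Type*} (x : ι → KK p) (hx : LinearIndependent (k0 p) x) :
    LinearIndependent (k0 p) fun i => x i ^ p := indep_pow crd_k0 x hx

end Pool.Agent.Q206.FT
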