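import Pool.Agent.Q206.FT.PP

/-! # One-variable universal quantifiers are existential -/

set_option autoImplicit false

open Polynomial Finset

namespace Pool.Agent.Q206.FT

variable {p : ℕ} [hp : Fact p.Prime]

/-- the monic polynomial of degree `d` with the coefficients `g` -/
noncomputable def gpol {N : ℕ} (d : ℕ) (g : Fin N → KK p) : (KK p)[X] :=
  X ^ d + ∑ l : Fin N, if (l : ℕ) < d then C (g l) * X ^ (l : ℕ) else 0

theorem gpol_degree {N : ℕ} (d : ℕ) (g : Fin N → KK p) :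
    degree (∑ l : Fin N, if (l : ℕ) < d then C (g l) * X ^ (l : ℕ) else 0) < d := by
  refine (degree_sum_le _ _).trans_lt ((Finset.sup_lt_iff (WithBot.bot_lt_coe d)).2 ?_)
  intro l _
  split_ifs with h
  · exact lt_of_le_of_lt (degree_C_mul_X_pow_le _ _) (WithBot.coe_lt_coe.2 h)
  · rw [degree_zero]
    exact WithBot.bot_lt_coe d

theorem gpol_monic {N : ℕ} (d : ℕ) (g : Fin N → KK p) : (gpol d g).Monic :=
  monic_X_pow_add (gpol_degree d g)

theorem gpol_natDegree {N : ℕ} (d : ℕ) (g : Fin N → KK p) : (gpol d g).natDegree = d := by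
  have h1 : (gpol d g).degree = d := by
    rw [gpol, degree_add_eq_left_of_degree_lt, degree_X_pow]
    rw [degree_X_pow]
    exact gpol_degree d g
  exact natDegree_eq_of_degree_eq_some h1

theorem gpol_coeff {N : ℕ} (G : (KK p)[X]) (hG : G.Monic) (hN : G.natDegree ≤ N) :
    gpol G.natDegree (fun l : Fin N => G.coeff l) = G := by
  conv_rhs => rw [hG.as_sum]
  rw [gpol]
  congr 1
  rw [← Finset.sum_range (fun l => if l < G.natDegree then C (G.coeff l) * X ^ l else 0),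
    ← Finset.sum_subset (Finset.range_subset_range.2 hN)]
  · exact sum_congr rfl fun l hl => by rw [if_pos (mem_range.1 hl)]
  · intro l _ hl
    rw [if_neg (by simpa using hl)]

/-- the variables for the data of certified factorisations -/
abbrev Va (n N : ℕ) : Type := Fin n ⊕ (Fin n × Fin N) ⊕ (Fin n × Fin N × Fin N)

section

variable {n N : ℕ}

/-- the factors -/
noncomputable def fac (δ : Fin n → Fin N → Fin (N + 1)) (v : Va n N → KK p) (i : Fin n)
    (j : Fin N) : (KK p)[X] := gpol (δ i j) fun l : Fin N => v (.inr (.inr (i, j, l)))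

/-- the data -/
noncomputable def dat (δ : Fin n → Fin N → Fin (N + 1)) (v : Va n N → KK p) :
    Dat p (Fin n) (Fin N) where
  A i := v (.inl i)
  δ i j := δ i j
  c i j := v (.inr (.inl (i, j)))
  b i j := (fac δ v i j).eval (v (.inr (.inl (i, j))))

theorem good {δ : Fin n → Fin N → Fin (N + 1)} {v : Va n N → KK p}
    (h : ∀ i j, Cert0 (δ i j) (fac δ v i j) (v (.inr (.inl (i, j))))) :
    (dat δ v).Good fun i j y => (fac δ v i j).eval y where
  triv i j y y' h0 := by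
    have h1 := (h i j).1
    have h2 := (h i j).2.1
    have h3 : ((δ i j : ℕ)) = 0 := h0
    rw [h3, h1.natDegree_eq_zero] at h2
    show (fac δ v i j).eval y = (fac δ v i j).eval y'
    rw [h2]
    simp
  near i j y y' hy := cert0_near (h i j) y y' hy
  far i j y hy := cert0_far (h i j) y hy
  close i j y hy := cert0_close (h i j) y hy

/-- the existential condition -/
def Cnd {σ : Type} (M : ℕ) (F : Fin n → (σ → KK p) → (KK p)[X]) (T : (σ → KK p) → KK p → Prop)
    (x : σ → KK p) (δ : Fin n → Fin N → Fin (N + 1)) (v : Va n N → KK p) : Prop :=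
  (∀ i, F i x = C (v (.inl i)) * ∏ j, fac δ v i j) ∧
  (∀ i j, (δ i j : ℕ) = 0 ∨ Cert (δ i j) (fac δ v i j) (v (.inr (.inl (i, j))))) ∧
  ∀ (o : Option (Fin n × Fin N)) (θ : Th (Fin n) (Fin N) (N * N)),
    (dat δ v).Tst (N * N) M (T x) ((dat δ v).ctr o) θ

theorem Cnd.all {σ : Type} {M : ℕ} (hM : 0 < M) {F : Fin n → (σ → KK p) → (KK p)[X]}
    {T : (σ → KK p) → KK p → Prop}
    (hT : ∀ x y y', (∀ i i', ‖(F i x).eval y‖ ≤ ‖(F i' x).eval y‖ ↔
        ‖(F i x).eval y'‖ ≤ ‖(F i' x).eval y'‖) →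
      (∀ i, Req M ((F i x).eval y) ((F i x).eval y')) → (T x y ↔ T x y'))
    {x : σ → KK p} {δ : Fin n → Fin N → Fin (N + 1)} {v : Va n N → KK p} (h : Cnd M F T x δ v)
    (y : KK p) : T x y := by
  obtain ⟨h1, h2, h3⟩ := h
  have hc : ∀ i j, Cert0 (δ i j) (fac δ v i j) (v (.inr (.inl (i, j)))) := fun i j =>
    ⟨gpol_monic _ _, gpol_natDegree _ _, h2 i j⟩
  have hev : ∀ i y, (F i x).eval y = v (.inl i) * ∏ j, (fac δ v i j).eval y := by
    intro i y
    rw [h1, eval_mul, eval_C, eval_prod]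
  have hnrm : ∀ i y, (dat δ v).nrm i y = ‖(F i x).eval y‖ := by
    intro i y
    rw [hev, norm_mul, norm_prod]
    simp only [Dat.nrm, dat]
    congr 1
    exact prod_congr rfl fun j _ => (cert0_norm (hc i j) y).symm
  refine (dat δ v).test (N * N) M hM (fun i => ?_) _ (good hc) (T x) (fun y y' h4 h5 => ?_) h3 y
  · calc ∑ j, (dat δ v).δ i j ≤ ∑ _j : Fin N, N := sum_le_sum fun j _ => by
          have := (δ i j).2
          show (δ i j : ℕ) ≤ N
          omega
      _ = N * N := by simp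
  · refine hT x y y' (fun i i' => ?_) fun i => ?_
    · rw [← hnrm, ← hnrm, ← hnrm, ← hnrm]
      exact h4 i i'
    · rw [hev, hev]
      exact h5 i

theorem exists_w {a b : ℝ} (ha : 0 < a) (hb : 0 < b) {k : ℕ} (hk : 0 < k) (M : ℕ) :
    ∃ w : KK p, w ≠ 0 ∧ ‖tt ^ (M + 1) * w‖ ^ k * b ≤ a ∧ a < ‖tt ^ M * w‖ ^ k * b := by
  obtain ⟨τ, hτ⟩ := exists_tau ha hb hk
  have hτ0 : 0 < τ := by
    by_contra h
    push Not at h
    have h2 := (hτ 0 le_rfl).2.2 h
    rw [zero_pow hk.ne', zero_mul] at h2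
    linarith
  obtain ⟨m, hm1, hm2⟩ := exists_mem_Ico_zpow hτ0 (by norm_num : (1 : ℝ) < 2)
  refine ⟨tt ^ (-(m + 1 + M)), ?_, ?_, ?_⟩
  · rw [tt_zpow]
    exact HahnSeries.single_ne_zero one_ne_zero
  · rw [(hτ _ (norm_nonneg _)).1, ← zpow_natCast, ← zpow_add₀ tt_ne, norm_tzpow]
    have : -(((M + 1 : ℕ) : ℤ) + -(m + 1 + (M : ℤ))) = m := by push_cast; ring
    rw [this]
    exact hm1
  · rw [← not_le, (hτ _ (norm_nonneg _)).1, not_le, ← zpow_natCast, ← zpow_add₀ tt_ne, norm_tzpow]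
    have : -(((M : ℕ) : ℤ) + -(m + 1 + (M : ℤ))) = m + 1 := by ring
    rw [this]
    exact hm2

theorem Cnd.exists {σ : Type} (M : ℕ) {F : Fin n → (σ → KK p) → (KK p)[X]}
    (hN : ∀ i x, (F i x).natDegree ≤ N) {T : (σ → KK p) → KK p → Prop} {x : σ → KK p}
    (h : ∀ y, T x y) : ∃ (δ : Fin n → Fin N → Fin (N + 1)) (v : Va n N → KK p), Cnd M F T x δ v := by
  have h1 : ∀ i, ∃ (A : KK p) (G : Fin N → (KK p)[X]) (c : Fin N → KK p),
      F i x = C A * ∏ j, G j ∧ ∀ j, (G j).natDegree ≤ N ∧ Cert0 (G j).natDegree (G j) (c j) := by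
    intro i
    by_cases h0 : F i x = 0
    · refine ⟨0, fun _ => 1, fun _ => 0, by rw [h0, C_0, zero_mul], fun j => ?_⟩
      rw [natDegree_one]
      exact ⟨Nat.zero_le _, monic_one, natDegree_one, Or.inl rfl⟩
    · exact exists_factors N _ h0 (hN i x)
  choose A G c h2 h3 using h1
  let δ : Fin n → Fin N → Fin (N + 1) := fun i j => ⟨(G i j).natDegree, by
    have := (h3 i j).1
    omega⟩
  let v : Va n N → KK p := Sum.elim A (Sum.elim (fun q => c q.1 q.2)
    fun q => (G q.1 q.2.1).coeff (q.2.2 : ℕ))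
  have hfac : ∀ i j, fac δ v i j = G i j := fun i j =>
    gpol_coeff (G i j) (h3 i j).2.1 (h3 i j).1
  refine ⟨δ, v, fun i => ?_, fun i j => ?_, fun o θ => ?_⟩
  · rw [h2]
    congr 1
    exact prod_congr rfl fun j _ => (hfac i j).symm
  · rw [hfac]
    exact (h3 i j).2.2.2
  · by_cases h4 : (dat δ v).m1 (N * N) ((dat δ v).ctr o) θ = 0
    · exact Or.inl h4
    by_cases h5 : (dat δ v).m2 (N * N) ((dat δ v).ctr o) θ = 0
    · exact Or.inr (Or.inl h5)
    obtain ⟨w, hw0, hw1, hw2⟩ := exists_w (p := p) (norm_pos_iff.2 h4) (norm_pos_iff.2 h5)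
      ((dat δ v).ex_pos (N * N) θ) M
    refine Or.inr (Or.inr ⟨w, hw0, ?_, ?_, fun k a => h _⟩)
    · rw [norm_mul, norm_pow]
      exact hw1
    · rw [norm_mul, norm_pow]
      exact hw2

end

/-! ## definability of the condition -/

section

variable {σ I J : Type} [Fintype J]

theorem IsPo.mon {A : I → (σ → KK p) → KK p} {c b : I → J → (σ → KK p) → KK p}
    (δ : I → J → ℕ) (hA : ∀ i, IsPo (A i)) (hc : ∀ i j, IsPo (c i j)) (hb : ∀ i j, IsPo (b i j))
    {e : (σ → KK p) → KK p} (he : IsPo e) (i : I) (f : J → Fin 3) :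
    IsPo fun x => Dat.mon (⟨fun i => A i x, δ, fun i j => c i j x, fun i j => b i j x⟩ :
      Dat p I J) (e x) i f := by
  refine (hA i).mul (IsPo.prod _ fun j => ?_)
  simp only [pk]
  split_ifs
  · exact IsPo.one
  · exact (he.sub (hc i j)).pow _
  · exact hb i j

theorem IsPo.m1 {A : I → (σ → KK p) → KK p} {c b : I → J → (σ → KK p) → KK p}
    (δ : I → J → ℕ) (hA : ∀ i, IsPo (A i)) (hc : ∀ i j, IsPo (c i j)) (hb : ∀ i j, IsPo (b i j))
    {e : (σ → KK p) → KK p} (he : IsPo e) (B : ℕ) (θ : Th I J B) :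
    IsPo fun x => Dat.m1 (⟨fun i => A i x, δ, fun i j => c i j x, fun i j => b i j x⟩ :
      Dat p I J) B (e x) θ := by
  rcases θ with _ | q | q | q
  · exact IsPo.one
  · exact he.sub (hc _ _)
  · exact hb _ _
  · exact IsPo.mon δ hA hc hb he _ _

theorem IsPo.m2 {A : I → (σ → KK p) → KK p} {c b : I → J → (σ → KK p) → KK p}
    (δ : I → J → ℕ) (hA : ∀ i, IsPo (A i)) (hc : ∀ i j, IsPo (c i j)) (hb : ∀ i j, IsPo (b i j))
    {e : (σ → KK p) → KK p} (he : IsPo e) (B : ℕ) (θ : Th I J B) :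
    IsPo fun x => Dat.m2 (⟨fun i => A i x, δ, fun i j => c i j x, fun i j => b i j x⟩ :
      Dat p I J) B (e x) θ := by
  rcases θ with _ | q | q | q
  · exact IsPo.one
  · exact IsPo.one
  · exact IsPo.one
  · exact IsPo.mon δ hA hc hb he _ _

omit [Fintype J] in
theorem IsPo.ctr {A : I → (σ → KK p) → KK p} {c b : I → J → (σ → KK p) → KK p}
    (δ : I → J → ℕ) (hc : ∀ i j, IsPo (c i j)) (o : Option (I × J)) :
    IsPo fun x => Dat.ctr (⟨fun i => A i x, δ, fun i j => c i j x, fun i j => b i j x⟩ :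
      Dat p I J) o := by
  rcases o with _ | q
  · exact IsPo.zero
  · exact hc _ _

theorem IsPP.gpol {N : ℕ} (d : ℕ) {g : Fin N → (σ → KK p) → KK p} (hg : ∀ l, IsPo (g l)) :
    IsPP fun x => FT.gpol d fun l => g l x := by
  refine (IsPP.X.pow d).add (IsPP.sum _ fun l => ?_)
  split_ifs
  · exact (IsPP.C (hg l)).mul (IsPP.X.pow _)
  · have := IsPP.C (IsPo.zero (σ := σ) (p := p))
    simpa using this

/-- the condition is existential -/
theorem ED.cnd {n N : ℕ} (M : ℕ) {F : Fin n → (σ → KK p) → (KK p)[X]} (hF : ∀ i, IsPP (F i))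
    {T : (σ → KK p) → KK p → Prop}
    (hT : ED {w : σ ⊕ Unit → KK p | T (fun i => w (.inl i)) (w (.inr ()))})
    (δ : Fin n → Fin N → Fin (N + 1)) :
    ED {w : σ ⊕ Va n N → KK p | Cnd M F T (fun i => w (.inl i)) δ (fun i => w (.inr i))} := by
  have hA : ∀ i, IsPo fun w : σ ⊕ Va n N → KK p => w (.inr (.inl i)) := fun i => IsPo.var _
  have hc : ∀ i j, IsPo fun w : σ ⊕ Va n N → KK p => w (.inr (.inr (.inl (i, j)))) :=
    fun i j => IsPo.var _
  have hf : ∀ i j, IsPP fun w : σ ⊕ Va n N → KK p => fac δ (fun i => w (.inr i)) i j :=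
    fun i j => IsPP.gpol _ fun l => IsPo.var _
  have hb : ∀ i j, IsPo fun w : σ ⊕ Va n N → KK p => (fac δ (fun i => w (.inr i)) i j).eval
      (w (.inr (.inr (.inl (i, j))))) := fun i j => (hf i j).eval (hc i j)
  refine ED.and (ED.all fun i => ED.eqP ?_ ?_) (ED.and (ED.all fun i => ED.all fun j =>
    ED.or (ED.const _) (ED.cert _ (hf i j) (hc i j))) (ED.all fun o => ED.all fun θ => ?_))
  · exact (hF i).comp fun i => IsPo.var _
  · exact (IsPP.C (hA i)).mul (IsPP.prod _ fun j => hf i j)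
  · have he : IsPo fun w : σ ⊕ Va n N → KK p => (dat δ fun i => w (.inr i)).ctr o :=
      IsPo.ctr (A := fun i w => w (.inr (.inl i)))
        (b := fun i j w => (fac δ (fun i => w (.inr i)) i j).eval (w (.inr (.inr (.inl (i, j))))))
        (fun i j => δ i j) hc o
    have h1 : IsPo fun w : σ ⊕ Va n N → KK p => (dat δ fun i => w (.inr i)).m1 (N * N)
        ((dat δ fun i => w (.inr i)).ctr o) θ := IsPo.m1 (fun i j => δ i j) hA hc hb he _ θ
    have h2 : IsPo fun w : σ ⊕ Va n N → KK p => (dat δ fun i => w (.inr i)).m2 (N * N)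
        ((dat δ fun i => w (.inr i)).ctr o) θ := IsPo.m2 (fun i j => δ i j) hA hc hb he _ θ
    have hex : ∀ w : σ ⊕ Va n N → KK p, (dat δ fun i => w (.inr i)).ex (N * N) θ =
        (dat δ (0 : Va n N → KK p)).ex (N * N) θ := by
      intro w
      rcases θ with _ | q | q | q <;> rfl
    have hv : ∀ i : σ ⊕ Va n N, IsPo fun w : (σ ⊕ Va n N) ⊕ Unit → KK p => w (.inl i) :=
      fun i => IsPo.var _
    have hw : IsPo fun w : (σ ⊕ Va n N) ⊕ Unit → KK p => w (.inr ()) := IsPo.var _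
    have h1' := IsPo.comp h1 (g := fun i (w : (σ ⊕ Va n N) ⊕ Unit → KK p) => w (.inl i)) hv
    have h2' := IsPo.comp h2 (g := fun i (w : (σ ⊕ Va n N) ⊕ Unit → KK p) => w (.inl i)) hv
    have he' := IsPo.comp he (g := fun i (w : (σ ⊕ Va n N) ⊕ Unit → KK p) => w (.inl i)) hv
    have hT' : ∀ (k a : ℕ), ED {w : (σ ⊕ Va n N) ⊕ Unit → KK p | T (fun i => w (.inl (.inl i)))
        ((dat δ fun i => w (.inl (.inr i))).ctr o + (a : KK p) * (tt ^ k * w (.inr ())))} := by
      intro k a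
      refine hT.comp (f := Sum.elim
        (fun i (w : (σ ⊕ Va n N) ⊕ Unit → KK p) => w (.inl (.inl i)))
        fun _ (w : (σ ⊕ Va n N) ⊕ Unit → KK p) =>
        (dat δ fun i => w (.inl (.inr i))).ctr o + (a : KK p) * (tt ^ k * w (.inr ()))) ?_
      rintro (i | i)
      · exact hv _
      · exact he'.add ((IsPo.const _).mul ((IsPo.tt.pow _).mul hw))
    have h3 : ED {w : (σ ⊕ Va n N) ⊕ Unit → KK p | w (.inr ()) ≠ 0 ∧
        ‖(tt ^ (M + 1) * w (.inr ())) ^ (dat δ (0 : Va n N → KK p)).ex (N * N) θ *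
          (dat δ fun i => w (.inl (.inr i))).m2 (N * N)
            ((dat δ fun i => w (.inl (.inr i))).ctr o) θ‖ ≤
          ‖(dat δ fun i => w (.inl (.inr i))).m1 (N * N)
            ((dat δ fun i => w (.inl (.inr i))).ctr o) θ‖ ∧
        ‖(dat δ fun i => w (.inl (.inr i))).m1 (N * N)
            ((dat δ fun i => w (.inl (.inr i))).ctr o) θ‖ <
          ‖(tt ^ M * w (.inr ())) ^ (dat δ (0 : Va n N → KK p)).ex (N * N) θ *
          (dat δ fun i => w (.inl (.inr i))).m2 (N * N)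
            ((dat δ fun i => w (.inl (.inr i))).ctr o) θ‖ ∧
        ∀ (k : Fin (2 * M + 2)) (a : Fin p), T (fun i => w (.inl (.inl i)))
          ((dat δ fun i => w (.inl (.inr i))).ctr o + ((a : ℕ) : KK p) *
            (tt ^ (k : ℕ) * w (.inr ())))} :=
      ED.and (ED.ne0 hw) (ED.and (ED.norm_le ((((IsPo.tt.pow _).mul hw).pow _).mul h2') h1')
        (ED.and (ED.norm_lt h1' ((((IsPo.tt.pow _).mul hw).pow _).mul h2'))
          (ED.all fun k => ED.all fun a => hT' k a)))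
    have h4 := ED.or (ED.eq0 h1) (ED.or (ED.eq0 h2) (ED.ex (R := fun (w : σ ⊕ Va n N → KK p) z =>
      z ≠ 0 ∧
        ‖(tt ^ (M + 1) * z) ^ (dat δ (0 : Va n N → KK p)).ex (N * N) θ *
          (dat δ fun i => w (.inr i)).m2 (N * N)
            ((dat δ fun i => w (.inr i)).ctr o) θ‖ ≤
          ‖(dat δ fun i => w (.inr i)).m1 (N * N)
            ((dat δ fun i => w (.inr i)).ctr o) θ‖ ∧
        ‖(dat δ fun i => w (.inr i)).m1 (N * N)
            ((dat δ fun i => w (.inr i)).ctr o) θ‖ <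
          ‖(tt ^ M * z) ^ (dat δ (0 : Va n N → KK p)).ex (N * N) θ *
          (dat δ fun i => w (.inr i)).m2 (N * N)
            ((dat δ fun i => w (.inr i)).ctr o) θ‖ ∧
        ∀ (k : Fin (2 * M + 2)) (a : Fin p), T (fun i => w (.inl i))
          ((dat δ fun i => w (.inr i)).ctr o + ((a : ℕ) : KK p) * (tt ^ (k : ℕ) * z))) h3))
    refine h4.congr fun w => ?_
    show (dat δ fun i => w (.inr i)).Tst (N * N) M (T fun i => w (.inl i))
      ((dat δ fun i => w (.inr i)).ctr o) θ ↔ _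
    rw [Dat.Tst, hex w]
    exact Iff.rfl

/-- **One-variable universal quantifiers are existential.** -/
theorem ED.forall_one {n : ℕ} (M : ℕ) (hM : 0 < M) {F : Fin n → (σ → KK p) → (KK p)[X]}
    (hF : ∀ i, IsPP (F i)) {T : (σ → KK p) → KK p → Prop}
    (hT1 : ED {w : σ ⊕ Unit → KK p | T (fun i => w (.inl i)) (w (.inr ()))})
    (hT2 : ∀ x y y', (∀ i i', ‖(F i x).eval y‖ ≤ ‖(F i' x).eval y‖ ↔
        ‖(F i x).eval y'‖ ≤ ‖(F i' x).eval y'‖) →
      (∀ i, Req M ((F i x).eval y) ((F i x).eval y')) → (T x y ↔ T x y')) :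
    ED {x | ∀ y, T x y} := by
  have hN : ∃ N, ∀ i x, (F i x).natDegree ≤ N := by
    choose N hN using fun i => (hF i).natDegree_le
    exact ⟨Finset.univ.sup N, fun i x => (hN i x).trans (Finset.le_sup (mem_univ i))⟩
  obtain ⟨N, hN⟩ := hN
  have h1 : ED {x | ∃ (δ : Fin n → Fin N → Fin (N + 1)) (v : Va n N → KK p), Cnd M F T x δ v} :=
    ED.any fun δ => ED.exs (ED.cnd M hF hT1 δ)
  refine h1.congr fun x => ?_
  constructor
  · intro h
    exact Cnd.exists M hN h
  · rintro ⟨δ, v, h⟩ y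
    exact h.all hM hT2 y

end

end Pool.Agent.Q206.FT
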