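import Pool.Agent.Q206.FT.Dual

/-! # Systems of additive conditions -/

set_option autoImplicit false

open Finset
open scoped Pointwise

namespace Pool.Agent.Q206.FT

/-- A finite system of `r` conditions on `z ∈ K ^ m`, with coefficients which are polynomials in
`x ∈ K ^ σ` (and `t`): the condition with the number `k` is
`c_k(x) - ∑_i ∑_{j < d} a_{k i j}(x) z_i ^ (p ^ j) ∈ e_k(x) O`. -/
structure Sys (p : ℕ) (σ : Type) where
  /-- the number of conditions -/
  r : ℕ
  /-- the number of unknowns -/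
  m : ℕ
  /-- a bound for the exponents -/
  d : ℕ
  /-- the coefficients of the additive polynomials -/
  a : Fin r → Fin m → ℕ → Po p σ
  /-- the right hand sides -/
  c : Fin r → Po p σ
  /-- the precisions (`0` for equations) -/
  e : Fin r → Po p σ

variable {p : ℕ} [hp : Fact p.Prime]

/-- `z` is a solution of the system at the point `x` -/
def Sol {σ : Type} (S : Sys p σ) (x : σ → KK p) (z : Fin S.m → KK p) : Prop :=
  ∀ k, ∃ y : KK p, ‖y‖ ≤ 1 ∧
    ev (S.c k) x - ∑ i, ∑ j ∈ range S.d, ev (S.a k i j) x * z i ^ (p ^ j) = ev (S.e k) x * y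

/-- **Duality for additive systems.** -/
theorem unsolvable_iff {σ : Type} (S : Sys p σ) (x : σ → KK p) :
    (¬ ∃ z, Sol S x z) ↔ ∃ s : Fin S.r → KK p, (∑ k, s k * ev (S.c k) x).coeff 0 = 1 ∧
      (∀ k, ‖s k * ev (S.e k) x‖ ≤ ‖(tt : KK p)‖) ∧
      ∀ i, adj S.d (fun j => ∑ k, s k * ev (S.a k i j) x) = 0 := by
  classical
  let D : Fin S.m → ℕ := fun _ => S.d
  let A : Fin S.m → ℕ → Fin S.r → KK p := fun i j k => ev (S.a k i j) x
  have hFF : ∀ (z : Fin S.m → KK p) (k : Fin S.r),
      FF D A z k = ∑ i, ∑ j ∈ range S.d, ev (S.a k i j) x * z i ^ (p ^ j) := by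
    intro z k
    simp only [FF, Finset.sum_apply, ff]
    rfl
  have hFadd : ∀ z w, FF D A (z + w) = FF D A z + FF D A w := by
    intro z w
    simp only [FF, Pi.add_apply, ff_add, sum_add_distrib]
  have hF0 : FF D A 0 = 0 := by
    have := hFadd 0 0
    rw [add_zero] at this
    exact left_eq_add.1 this
  have hFneg : ∀ z, FF D A (-z) = - FF D A z := by
    intro z
    have := hFadd z (-z)
    rw [add_neg_cancel, hF0] at this
    exact (neg_eq_of_add_eq_zero_right this.symm).symm
  let R : AddSubgroup (Fin S.r → KK p) :=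
    { carrier := {y | ∃ (z : Fin S.m → KK p) (o : Fin S.r → KK p), (∀ k, ‖o k‖ ≤ 1) ∧
        y = FF D A z + fun k => ev (S.e k) x * o k}
      add_mem' := by
        rintro _ _ ⟨z, o, ho, rfl⟩ ⟨z', o', ho', rfl⟩
        refine ⟨z + z', o + o', fun k => ?_, ?_⟩
        · exact (IsUltrametricDist.norm_add_le_max _ _).trans (max_le (ho k) (ho' k))
        · rw [hFadd]
          funext k
          simp only [Pi.add_apply]
          ring
      zero_mem' := by
        refine ⟨0, 0, fun k => by rw [Pi.zero_apply, norm_zero]; exact zero_le_one, ?_⟩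
        rw [hF0]
        funext k
        simp
      neg_mem' := by
        rintro _ ⟨z, o, ho, rfl⟩
        refine ⟨-z, -o, fun k => by rw [Pi.neg_apply, norm_neg]; exact ho k, ?_⟩
        rw [hFneg]
        funext k
        simp only [Pi.add_apply, Pi.neg_apply]
        ring }
  let U : Submodule (ZMod p) (Fin S.r → KK p) := AddSubgroup.toZModSubmodule p R
  have hU : ∀ y, y ∈ U ↔ ∃ (z : Fin S.m → KK p) (o : Fin S.r → KK p), (∀ k, ‖o k‖ ≤ 1) ∧
        y = FF D A z + fun k => ev (S.e k) x * o k := fun y => Iff.rfl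
  have hcl : IsClosed (U : Set (Fin S.r → KK p)) := by
    have h1 : IsClosed (Set.range (FF D A)) := closed_FF _ D A rfl
    have h2 : IsCompact ((fun (o : Fin S.r → KK p) (k : Fin S.r) => ev (S.e k) x * o k) ''
        Metric.closedBall 0 1) := by
      refine (isCompact_closedBall _ _).image ?_
      fun_prop
    have h3 : (U : Set (Fin S.r → KK p)) = Set.range (FF D A) +
        ((fun (o : Fin S.r → KK p) (k : Fin S.r) => ev (S.e k) x * o k) ''
          Metric.closedBall 0 1) := by
      ext y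
      rw [SetLike.mem_coe, hU, Set.mem_add]
      constructor
      · rintro ⟨z, o, ho, rfl⟩
        refine ⟨_, ⟨z, rfl⟩, _, ⟨o, ?_, rfl⟩, rfl⟩
        rw [mem_closedBall_zero_iff, pi_norm_le_iff_of_nonneg zero_le_one]
        exact ho
      · rintro ⟨_, ⟨z, rfl⟩, _, ⟨o, ho, rfl⟩, rfl⟩
        refine ⟨z, o, ?_, rfl⟩
        rwa [mem_closedBall_zero_iff, pi_norm_le_iff_of_nonneg zero_le_one] at ho
    rw [h3]
    exact h1.add_right_of_isCompact h2
  let c : Fin S.r → KK p := fun k => ev (S.c k) x
  have hc : (∃ z, Sol S x z) ↔ c ∈ U := by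
    rw [hU]
    constructor
    · rintro ⟨z, hz⟩
      choose o ho1 ho2 using hz
      refine ⟨z, o, ho1, ?_⟩
      funext k
      rw [Pi.add_apply, hFF, ← ho2 k]
      ring
    · rintro ⟨z, o, ho, h⟩
      refine ⟨z, fun k => ⟨o k, ho k, ?_⟩⟩
      rw [← hFF]
      have := congrFun h k
      rw [Pi.add_apply] at this
      have h2 : ev (S.c k) x = FF D A z k + ev (S.e k) x * o k := this
      rw [h2]
      ring
  -- the annihilator of `U`
  have hann : ∀ s : Fin S.r → KK p, (∀ y ∈ U, (∑ k, s k * y k).coeff 0 = 0) ↔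
      (∀ k, ‖s k * ev (S.e k) x‖ ≤ ‖(tt : KK p)‖) ∧
      ∀ i, adj S.d (fun j => ∑ k, s k * ev (S.a k i j) x) = 0 := by
    intro s
    have hsF : ∀ z, (∑ k, s k * FF D A z k).coeff 0 =
        ∑ i, (adj S.d (fun j => ∑ k, s k * ev (S.a k i j) x) * z i).coeff 0 := by
      intro z
      have h1 : ∑ k, s k * FF D A z k =
          ∑ i, ∑ j ∈ range S.d, (∑ k, s k * ev (S.a k i j) x) * z i ^ (p ^ j) := by
        simp only [hFF, mul_sum, sum_mul]
        rw [sum_comm]
        refine sum_congr rfl fun i _ => ?_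
        rw [sum_comm]
        refine sum_congr rfl fun j _ => sum_congr rfl fun k _ => ?_
        ring
      rw [h1, coeff_sum']
      exact sum_congr rfl fun i _ => adj_spec _ _ _
    constructor
    · intro h
      constructor
      · intro k
        rw [← dual_ball]
        intro o ho
        have h1 := h (fun k' => ev (S.e k') x * (Pi.single k o : Fin S.r → KK p) k')
          ((hU _).2 ⟨0, Pi.single k o, fun k' => ?_, ?_⟩)
        · rw [sum_eq_single k] at h1
          · rw [Pi.single_eq_same, ← mul_assoc] at h1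
            exact h1
          · intro k' _ hk'
            rw [Pi.single_eq_of_ne hk', mul_zero, mul_zero]
          · intro h2
            exact absurd (mem_univ k) h2
        · by_cases hk : k' = k
          · rw [hk, Pi.single_eq_same]
            exact ho
          · rw [Pi.single_eq_of_ne hk, norm_zero]
            exact zero_le_one
        · rw [hF0, zero_add]
      · intro i
        apply eq_zero_of_coeff
        intro z
        have h1 := h (FF D A (Pi.single i z)) ((hU _).2 ⟨Pi.single i z, 0, fun k => by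
          rw [Pi.zero_apply, norm_zero]; exact zero_le_one, by
          funext k
          simp⟩)
        rw [hsF, sum_eq_single i] at h1
        · rwa [Pi.single_eq_same] at h1
        · intro i' _ hi'
          rw [Pi.single_eq_of_ne hi', mul_zero, HahnSeries.coeff_zero]
        · intro h2
          exact absurd (mem_univ i) h2
    · rintro ⟨h1, h2⟩ y hy
      obtain ⟨z, o, ho, rfl⟩ := (hU y).1 hy
      have h3 : ∑ k, s k * (FF D A z + fun k => ev (S.e k) x * o k) k =
          ∑ k, s k * FF D A z k + ∑ k, s k * ev (S.e k) x * o k := by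
        rw [← sum_add_distrib]
        refine sum_congr rfl fun k _ => ?_
        rw [Pi.add_apply]
        ring
      rw [h3, HahnSeries.coeff_add, hsF, coeff_sum']
      have h4 : ∑ i, (adj S.d (fun j => ∑ k, s k * ev (S.a k i j) x) * z i).coeff 0 = 0 :=
        sum_eq_zero fun i _ => by rw [h2 i, zero_mul, HahnSeries.coeff_zero]
      have h5 : ∑ k, (s k * ev (S.e k) x * o k).coeff 0 = 0 :=
        sum_eq_zero fun k _ => (dual_ball _).2 (h1 k) _ (ho k)
      rw [h4, h5, add_zero]
  rw [hc]
  constructor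
  · intro h
    obtain ⟨s, hs1, hs2⟩ := exists_sep U hcl c h
    exact ⟨s, hs2, (hann s).1 hs1⟩
  · rintro ⟨s, hs1, hs2⟩ h
    have := (hann s).2 hs2 c h
    rw [hs1] at this
    exact one_ne_zero this

theorem IsPo.evc {σ τ : Type} (P : Po p τ) {g : τ → (σ → KK p) → KK p} (hg : ∀ i, IsPo (g i)) :
    IsPo fun x => FT.ev P fun i => g i x := IsPo.comp (IsPo.ev P) hg

theorem ED.solvable {σ : Type} (S : Sys p σ) : ED {x | ∃ z, Sol S x z} := by
  refine ED.exs (ED.all fun k => ED.ex (ED.and (ED.norm_le_one (IsPo.var _)) (ED.eq ?_ ?_)))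
  · refine IsPo.sub ?_ (IsPo.sum _ fun i => IsPo.sum _ fun j => IsPo.mul ?_ (IsPo.pow ?_ _))
    · exact IsPo.evc (S.c k) fun i => IsPo.var _
    · exact IsPo.evc (S.a k i j) fun i => IsPo.var _
    · exact IsPo.var _
  · refine IsPo.mul ?_ (IsPo.var _)
    exact IsPo.evc (S.e k) fun i => IsPo.var _

theorem ED.unsolvable {σ : Type} (S : Sys p σ) : ED {x | ¬ ∃ z, Sol S x z} := by
  have h1 : ED {x | ∃ s : Fin S.r → KK p, ((∑ k, s k * ev (S.c k) x) - 1).coeff 0 = 0 ∧
      (∀ k, ‖s k * ev (S.e k) x‖ ≤ ‖(tt : KK p)‖) ∧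
      ∀ i, adj S.d (fun j => ∑ k, s k * ev (S.a k i j) x) = 0} := by
    refine ED.exs (ED.and (ED.coeff0 (IsPo.sub (IsPo.sum _ fun k => IsPo.mul (IsPo.var _) ?_)
      IsPo.one)) (ED.and (ED.all fun k => ED.norm_le (IsPo.mul (IsPo.var _) ?_) IsPo.tt)
      (ED.all fun i => ?_)))
    · exact IsPo.evc (S.c k) fun i => IsPo.var _
    · exact IsPo.evc (S.e k) fun i => IsPo.var _
    · refine ED.adjEq S.d (f := fun j (w : σ ⊕ Fin S.r → KK p) =>
        ∑ k, w (.inr k) * ev (S.a k i j) (fun i => w (.inl i))) (g := fun _ => 0)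
        (fun j => IsPo.sum _ fun k => IsPo.mul (IsPo.var _) ?_) IsPo.zero
      exact IsPo.evc (S.a k i j) fun i => IsPo.var _
  refine h1.congr fun x => ?_
  show (¬ ∃ z, Sol S x z) ↔ _
  rw [unsolvable_iff]
  have h2 : ∀ s : Fin S.r → KK p, (∑ k, s k * ev (S.c k) x).coeff 0 = 1 ↔
      ((∑ k, s k * ev (S.c k) x) - 1).coeff 0 = 0 := by
    intro s
    rw [HahnSeries.coeff_sub, HahnSeries.coeff_one, if_pos rfl, sub_eq_zero]
  simp only [h2]
  rfl

end Pool.Agent.Q206.FT
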