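import Pool.Agent.Q206.FT.Pat
import Pool.Agent.Q206.FT.Sys

/-! # Polynomials in one variable whose coefficients are polynomial functions -/

set_option autoImplicit false

open Polynomial Finset

namespace Pool.Agent.Q206.FT

variable {p : ℕ} [hp : Fact p.Prime]

section

variable {σ τ : Type}

/-- evaluation as a ring homomorphism -/
noncomputable def evh (x : σ → KK p) : Po p σ →+* KK p :=
  (MvPolynomial.aeval x : Po p σ →ₐ[Polynomial (ZMod p)] KK p).toRingHom

theorem evh_apply (x : σ → KK p) (P : Po p σ) : evh x P = ev P x := rfl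

/-- families of polynomials in one variable -/
def IsPP (f : (σ → KK p) → (KK p)[X]) : Prop := ∃ P : (Po p σ)[X], ∀ x, f x = P.map (evh x)

theorem IsPP.add {f g : (σ → KK p) → (KK p)[X]} (hf : IsPP f) (hg : IsPP g) :
    IsPP fun x => f x + g x := by
  obtain ⟨P, hP⟩ := hf
  obtain ⟨Q, hQ⟩ := hg
  exact ⟨P + Q, fun x => by simp only [hP, hQ, Polynomial.map_add]⟩

theorem IsPP.mul {f g : (σ → KK p) → (KK p)[X]} (hf : IsPP f) (hg : IsPP g) :
    IsPP fun x => f x * g x := by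
  obtain ⟨P, hP⟩ := hf
  obtain ⟨Q, hQ⟩ := hg
  exact ⟨P * Q, fun x => by simp only [hP, hQ, Polynomial.map_mul]⟩

theorem IsPP.C {f : (σ → KK p) → KK p} (hf : IsPo f) : IsPP fun x => Polynomial.C (f x) := by
  obtain ⟨P, hP⟩ := hf
  exact ⟨Polynomial.C P, fun x => by simp only [hP, Polynomial.map_C]; rfl⟩

theorem IsPP.X : IsPP fun _ : σ → KK p => (X : (KK p)[X]) :=
  ⟨Polynomial.X, fun x => by rw [Polynomial.map_X]⟩

theorem IsPP.pow {f : (σ → KK p) → (KK p)[X]} (hf : IsPP f) (n : ℕ) : IsPP fun x => f x ^ n := by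
  obtain ⟨P, hP⟩ := hf
  exact ⟨P ^ n, fun x => by simp only [hP, Polynomial.map_pow]⟩

theorem IsPP.sum {ι : Type} (s : Finset ι) {f : ι → (σ → KK p) → (KK p)[X]}
    (hf : ∀ i, IsPP (f i)) : IsPP fun x => ∑ i ∈ s, f i x := by
  choose P hP using hf
  exact ⟨∑ i ∈ s, P i, fun x => by rw [Polynomial.map_sum]; exact sum_congr rfl fun i _ => hP i x⟩

theorem IsPP.prod {ι : Type} (s : Finset ι) {f : ι → (σ → KK p) → (KK p)[X]}
    (hf : ∀ i, IsPP (f i)) : IsPP fun x => ∏ i ∈ s, f i x := by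
  choose P hP using hf
  exact ⟨∏ i ∈ s, P i, fun x => by rw [Polynomial.map_prod]; exact prod_congr rfl fun i _ => hP i x⟩

theorem IsPP.coeff {f : (σ → KK p) → (KK p)[X]} (hf : IsPP f) (n : ℕ) :
    IsPo fun x => (f x).coeff n := by
  obtain ⟨P, hP⟩ := hf
  exact ⟨P.coeff n, fun x => by
    show (f x).coeff n = _
    rw [hP, Polynomial.coeff_map, evh_apply]⟩

theorem IsPP.eval {f : (σ → KK p) → (KK p)[X]} (hf : IsPP f) {h : (σ → KK p) → KK p}
    (hh : IsPo h) : IsPo fun x => (f x).eval (h x) := by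
  obtain ⟨P, hP⟩ := hf
  obtain ⟨Q, hQ⟩ := hh
  refine ⟨P.eval Q, fun x => ?_⟩
  show (f x).eval (h x) = _
  rw [hP, hQ, ← evh_apply, ← evh_apply, Polynomial.eval_map, Polynomial.eval₂_at_apply]

theorem IsPP.taylor {f : (σ → KK p) → (KK p)[X]} (hf : IsPP f) {h : (σ → KK p) → KK p}
    (hh : IsPo h) : IsPP fun x => taylor (h x) (f x) := by
  obtain ⟨P, hP⟩ := hf
  obtain ⟨Q, hQ⟩ := hh
  refine ⟨P.comp (Polynomial.X + Polynomial.C Q), fun x => ?_⟩
  show Polynomial.taylor (h x) (f x) = _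
  rw [hP, hQ, ← evh_apply, Polynomial.map_comp, Polynomial.taylor_apply]
  simp

theorem IsPP.comp {f : (τ → KK p) → (KK p)[X]} (hf : IsPP f) {g : τ → (σ → KK p) → KK p}
    (hg : ∀ i, IsPo (g i)) : IsPP fun x => f fun i => g i x := by
  obtain ⟨P, hP⟩ := hf
  choose Q hQ using hg
  refine ⟨P.map (MvPolynomial.aeval Q : Po p τ →ₐ[Polynomial (ZMod p)] Po p σ).toRingHom,
    fun x => ?_⟩
  show f (fun i => g i x) = _
  rw [hP, Polynomial.map_map]
  refine congrArg (fun h => P.map h) (RingHom.ext fun q => ?_)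
  have h1 : (fun i => g i x) = fun i => MvPolynomial.aeval x (Q i) := funext fun i => hQ i x
  show MvPolynomial.aeval (fun i => g i x) q = _
  rw [h1]
  have h2 : (MvPolynomial.aeval x).comp (MvPolynomial.aeval Q) =
      (MvPolynomial.aeval fun i => MvPolynomial.aeval x (Q i) :
        Po p τ →ₐ[Polynomial (ZMod p)] KK p) := by
    ext i
    simp
  exact (DFunLike.congr_fun h2 q).symm

theorem ED.eqP {f g : (σ → KK p) → (KK p)[X]} (hf : IsPP f) (hg : IsPP g) :
    ED {x | f x = g x} := by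
  obtain ⟨P, hP⟩ := hf
  obtain ⟨Q, hQ⟩ := hg
  have h1 : ED {x | ∀ n : Fin ((P - Q).natDegree + 1), ev ((P - Q).coeff n) x = 0} :=
    ED.all fun n => ED.eq0 (IsPo.ev _)
  refine h1.congr fun x => ?_
  show f x = g x ↔ ∀ n : Fin ((P - Q).natDegree + 1), ev ((P - Q).coeff n) x = 0
  have h2 : f x - g x = (P - Q).map (evh x) := by rw [hP, hQ, Polynomial.map_sub]
  rw [← sub_eq_zero, h2]
  constructor
  · intro h n
    have := congrArg (fun q => Polynomial.coeff q n) h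
    simp only [Polynomial.coeff_map, Polynomial.coeff_zero, evh_apply] at this
    exact this
  · intro h
    ext1 n
    rw [Polynomial.coeff_map, Polynomial.coeff_zero]
    by_cases hn : n < (P - Q).natDegree + 1
    · exact h ⟨n, hn⟩
    · rw [Polynomial.coeff_eq_zero_of_natDegree_lt (by omega), map_zero]

/-- a polynomial in `σ` and one more variable, as a polynomial in the last variable -/
noncomputable def pol (P : Po p (σ ⊕ Unit)) (x : σ → KK p) : (KK p)[X] :=
  MvPolynomial.aeval (Sum.elim (fun i => Polynomial.C (x i)) fun _ => Polynomial.X) P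

theorem eval_pol (P : Po p (σ ⊕ Unit)) (x : σ → KK p) (y : KK p) :
    (pol P x).eval y = ev P (Sum.elim x fun _ => y) := by
  have h2 : ((Polynomial.aeval y : (KK p)[X] →ₐ[KK p] KK p).restrictScalars
      (Polynomial (ZMod p))).comp (MvPolynomial.aeval
        (Sum.elim (fun i => Polynomial.C (x i)) fun _ => Polynomial.X)) =
      (MvPolynomial.aeval (Sum.elim x fun _ => y) :
        Po p (σ ⊕ Unit) →ₐ[Polynomial (ZMod p)] KK p) := by
    ext i
    rcases i with i | i <;> simp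
  have := DFunLike.congr_fun h2 P
  simp only [AlgHom.comp_apply, AlgHom.restrictScalars_apply] at this
  rw [Polynomial.coe_aeval_eq_eval] at this
  exact this

theorem IsPP.pol (P : Po p (σ ⊕ Unit)) : IsPP fun x : σ → KK p => FT.pol P x := by
  refine ⟨MvPolynomial.aeval (Sum.elim (fun i => Polynomial.C (MvPolynomial.X i))
    fun _ => Polynomial.X) P, fun x => ?_⟩
  have h2 : (Polynomial.mapAlgHom (MvPolynomial.aeval x :
      Po p σ →ₐ[Polynomial (ZMod p)] KK p)).comp (MvPolynomial.aeval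
        (Sum.elim (fun i => Polynomial.C (MvPolynomial.X i)) fun _ => Polynomial.X)) =
      (MvPolynomial.aeval (Sum.elim (fun i => Polynomial.C (x i)) fun _ => Polynomial.X) :
        Po p (σ ⊕ Unit) →ₐ[Polynomial (ZMod p)] (KK p)[X]) := by
    apply MvPolynomial.algHom_ext
    intro i
    rcases i with i | i <;> simp
  exact (DFunLike.congr_fun h2 P).symm

/-- degrees are bounded -/
theorem IsPP.natDegree_le {f : (σ → KK p) → (KK p)[X]} (hf : IsPP f) :
    ∃ N, ∀ x, (f x).natDegree ≤ N := by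
  obtain ⟨P, hP⟩ := hf
  exact ⟨P.natDegree, fun x => by rw [hP]; exact natDegree_map_le⟩

theorem ED.cert (d : ℕ) {G : (σ → KK p) → (KK p)[X]} (hG : IsPP G) {c : (σ → KK p) → KK p}
    (hc : IsPo c) : ED {x | Cert d (G x) (c x)} := by
  have h1 : ED {x | (∀ i : Fin (d + 1), ‖(taylor (c x) (G x)).coeff i ^ d‖ ≤
      ‖(G x).eval (c x) ^ (d - (i : ℕ))‖) ∧
      ((∃ j : Fin d, ∃ w : KK p, w ≠ 0 ∧ (1 ≤ (j : ℕ) ∧
        ‖tt ^ (j : ℕ) * w ^ d‖ ≤ ‖(G x).eval (c x)‖ ∧
        ‖(G x).eval (c x)‖ ≤ ‖tt ^ (j : ℕ) * w ^ d‖)) ∨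
      ∃ w : KK p, (‖w ^ d‖ ≤ ‖(G x).eval (c x)‖ ∧ ‖(G x).eval (c x)‖ ≤ ‖w ^ d‖) ∧
        ∀ n : Fin p, ‖(G x).eval (c x + (n : ℕ) * w)‖ ≤ ‖(G x).eval (c x)‖ ∧
          ‖(G x).eval (c x)‖ ≤ ‖(G x).eval (c x + (n : ℕ) * w)‖)} := by
    have hGc : IsPo fun x => (G x).eval (c x) := hG.eval hc
    refine ED.and (ED.all fun i => ED.norm_le ?_ (hGc.pow _)) (ED.or (ED.any fun j => ED.ex
      (ED.and (ED.ne0 (IsPo.var _)) (ED.and (ED.const _) (ED.and (ED.norm_le ?_ ?_)
      (ED.norm_le ?_ ?_))))) (ED.ex (ED.and (ED.and (ED.norm_le ?_ ?_) (ED.norm_le ?_ ?_))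
      (ED.all fun n => ED.and (ED.norm_le ?_ ?_) (ED.norm_le ?_ ?_)))))
    · exact ((hG.taylor hc).coeff _).pow _
    · exact (IsPo.tt.pow _).mul ((IsPo.var _).pow _)
    · exact hGc.comp fun i => IsPo.var _
    · exact hGc.comp fun i => IsPo.var _
    · exact (IsPo.tt.pow _).mul ((IsPo.var _).pow _)
    · exact (IsPo.var _).pow _
    · exact hGc.comp fun i => IsPo.var _
    · exact hGc.comp fun i => IsPo.var _
    · exact (IsPo.var _).pow _
    · exact IsPP.eval (hG.comp fun i => IsPo.var _)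
        ((hc.comp fun i => IsPo.var _).add ((IsPo.const _).mul (IsPo.var _)))
    · exact hGc.comp fun i => IsPo.var _
    · exact hGc.comp fun i => IsPo.var _
    · exact IsPP.eval (hG.comp fun i => IsPo.var _)
        ((hc.comp fun i => IsPo.var _).add ((IsPo.const _).mul (IsPo.var _)))
  refine h1.congr fun x => ?_
  show Cert d (G x) (c x) ↔ _
  simp only [Cert, Set.mem_ofPred_eq, norm_pow]
  refine and_congr ⟨fun h i => h i (by omega), fun h i hi => h ⟨i, by omega⟩⟩ (or_congr ?_ ?_)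
  · constructor
    · rintro ⟨w, j, hj1, hj2, hw, h⟩
      exact ⟨⟨j, hj2⟩, w, hw, hj1, h.le, h.ge⟩
    · rintro ⟨j, w, hw, hj, h2, h3⟩
      exact ⟨w, j, hj, j.2, hw, le_antisymm h2 h3⟩
  · constructor
    · rintro ⟨w, hw, h⟩
      exact ⟨w, ⟨hw.le, hw.ge⟩, fun n => ⟨(h n n.2).le, (h n n.2).ge⟩⟩
    · rintro ⟨w, ⟨hw1, hw2⟩, h⟩
      exact ⟨w, le_antisymm hw1 hw2, fun n hn => le_antisymm (h ⟨n, hn⟩).1 (h ⟨n, hn⟩).2⟩

end

end Pool.Agent.Q206.FT
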