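import Pool.Agent.Q206.FT.Cert3

/-! # Test points for one variable -/

set_option autoImplicit false

open Finset

namespace Pool.Agent.Q206.FT

/-- finitely many thresholds: every radius has a neighbour among the test radii -/
theorem thr {Θ : Type} [Finite Θ] [Nonempty Θ] (N : ℕ) (hN : 0 < N) (τ : Θ → ℝ) (q : Θ → ℤ)
    (h1 : ∀ θ, (2 : ℝ) ^ (q θ - 1) ≤ τ θ) (h2 : ∀ θ, τ θ < 2 ^ (q θ)) (m : ℤ) :
    ∃ θ, ∃ k : ℕ, k < 2 * N + 2 ∧ (N : ℤ) ∣ m - (q θ + N - k) ∧ (m = q θ + N - k ∨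
      ∀ θ', ¬ ((2 : ℝ) ^ (min m (q θ + N - k)) ≤ τ θ' ∧
        τ θ' ≤ 2 ^ (max m (q θ + N - k)))) := by
  have : Fintype Θ := Fintype.ofFinite Θ
  have two : (1 : ℝ) < 2 := by norm_num
  have hN' : (0 : ℤ) < N := by exact_mod_cast hN
  have hlt : ∀ a b : ℤ, (2 : ℝ) ^ a < 2 ^ b → a < b := fun a b h =>
    (zpow_lt_zpow_iff_right₀ two).1 h
  have hle : ∀ a b : ℤ, a ≤ b → (2 : ℝ) ^ a ≤ 2 ^ b := fun a b h =>
    (zpow_le_zpow_iff_right₀ two).2 h
  by_cases hA : ∃ θ, τ θ ≤ 2 ^ m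
  · obtain ⟨θ, hθ, hmax⟩ := exists_max_image (univ.filter fun θ => τ θ ≤ (2 : ℝ) ^ m) τ (by
      obtain ⟨θ, hθ⟩ := hA
      exact ⟨θ, by simp [hθ]⟩)
    have hθ' : τ θ ≤ 2 ^ m := by simpa using hθ
    have h3 : q θ - 1 ≤ m := by
      by_contra h
      push Not at h
      have h4 : (2 : ℝ) ^ m < 2 ^ (q θ - 1) := (zpow_lt_zpow_iff_right₀ two).2 h
      have := h1 θ
      linarith
    rcases le_or_gt m (q θ + N) with h4 | h4
    · have h5 : ((q θ + N - m).toNat : ℤ) = q θ + N - m := Int.toNat_of_nonneg (by omega)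
      refine ⟨θ, (q θ + N - m).toNat, by omega, ?_, Or.inl (by omega)⟩
      rw [h5]
      exact ⟨0, by ring⟩
    · have e1 := Int.emod_nonneg (m - q θ) hN'.ne'
      have e2 := Int.emod_lt_of_pos (m - q θ) hN'
      have e3 := Int.emod_add_mul_ediv (m - q θ) N
      set s := (m - q θ) % N with hs
      have h5 : ((N - s).toNat : ℤ) = N - s := Int.toNat_of_nonneg (by omega)
      refine ⟨θ, (N - s).toNat, by omega, ?_, Or.inr fun θ' h6 => ?_⟩
      · rw [h5]
        exact ⟨(m - q θ) / N, by linarith⟩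
      · rw [h5] at h6
        have h7 : q θ ≤ min m (q θ + N - (N - s)) := by omega
        have h8 : max m (q θ + N - (N - s)) = m := by omega
        rw [h8] at h6
        have h9 := hmax θ' (by simpa using h6.2)
        have := h2 θ
        have := hle _ _ h7
        linarith [h6.1]
  · push Not at hA
    obtain ⟨θ, _, hmin⟩ := exists_min_image univ τ univ_nonempty
    have h3 : m < q θ := hlt _ _ ((hA θ).trans (h2 θ))
    rcases le_or_gt (q θ - 1 - N) m with h4 | h4
    · have h5 : ((q θ + N - m).toNat : ℤ) = q θ + N - m := Int.toNat_of_nonneg (by omega)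
      refine ⟨θ, (q θ + N - m).toNat, by omega, ?_, Or.inl (by omega)⟩
      rw [h5]
      exact ⟨0, by ring⟩
    · have e1 := Int.emod_nonneg (m - q θ + 1 + N) hN'.ne'
      have e2 := Int.emod_lt_of_pos (m - q θ + 1 + N) hN'
      have e3 := Int.emod_add_mul_ediv (m - q θ + 1 + N) N
      set s := (m - q θ + 1 + N) % N with hs
      have h5 : ((2 * N + 1 - s).toNat : ℤ) = 2 * N + 1 - s := Int.toNat_of_nonneg (by omega)
      refine ⟨θ, (2 * N + 1 - s).toNat, by omega, ?_, Or.inr fun θ' h6 => ?_⟩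
      · rw [h5]
        exact ⟨(m - q θ + 1 + N) / N, by linarith⟩
      · rw [h5] at h6
        have h7 : max m (q θ + N - (2 * N + 1 - s)) ≤ q θ - 2 := by omega
        have h8 := hmin θ' (mem_univ _)
        have h9 : (2 : ℝ) ^ (q θ - 2) < 2 ^ (q θ - 1) :=
          (zpow_lt_zpow_iff_right₀ two).2 (by omega)
        have h10 := hle _ _ h7
        have := h1 θ
        linarith [h6.2]

theorem exists_tau {a b : ℝ} (ha : 0 < a) (hb : 0 < b) {n : ℕ} (hn : 0 < n) :
    ∃ τ : ℝ, ∀ s : ℝ, 0 ≤ s → (s ^ n * b ≤ a ↔ s ≤ τ) ∧ (a ≤ s ^ n * b ↔ τ ≤ s) := by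
  obtain ⟨t, h1, h2⟩ : ∃ t : ℝ, 0 ≤ t ∧ t ^ n = a / b := by
    refine ⟨(a / b) ^ (1 / (n : ℝ)), by positivity, ?_⟩
    rw [← Real.rpow_natCast, ← Real.rpow_mul (by positivity)]
    have : (n : ℝ) ≠ 0 := by positivity
    rw [one_div, inv_mul_cancel₀ this, Real.rpow_one]
  refine ⟨t, fun s hs => ?_⟩
  constructor
  · rw [← le_div_iff₀ hb, ← h2]
    exact pow_le_pow_iff_left₀ hs h1 hn.ne'
  · rw [← div_le_iff₀ hb, ← h2]
    exact pow_le_pow_iff_left₀ h1 hs hn.ne'

variable {p : ℕ} [hp : Fact p.Prime]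

/-- the data of certified factorisations -/
structure Dat (p : ℕ) (I J : Type) where
  /-- the leading coefficients -/
  A : I → KK p
  /-- the degrees of the factors -/
  δ : I → J → ℕ
  /-- the centres -/
  c : I → J → KK p
  /-- the values of the factors at the centres -/
  b : I → J → KK p

/-- choice -/
noncomputable def pk (u v : KK p) (f : Fin 3) : KK p := if f = 0 then 1 else if f = 1 then u else v

section

variable {I J : Type} [Fintype J]

/-- the norms of the polynomials -/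
noncomputable def Dat.nrm (D : Dat p I J) (i : I) (y : KK p) : ℝ :=
  ‖D.A i‖ * ∏ j, max (‖y - D.c i j‖ ^ D.δ i j) ‖D.b i j‖

/-- the norms at generic points of distance `s` from `e` -/
noncomputable def Dat.lam (D : Dat p I J) (e : KK p) (i : I) (s : ℝ) : ℝ :=
  ‖D.A i‖ * ∏ j, max (max s ‖e - D.c i j‖ ^ D.δ i j) ‖D.b i j‖

/-- monomials in the data -/
noncomputable def Dat.mon (D : Dat p I J) (e : KK p) (i : I) (f : J → Fin 3) : KK p :=
  D.A i * ∏ j, pk ((e - D.c i j) ^ D.δ i j) (D.b i j) (f j)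

/-- the centres -/
noncomputable def Dat.ctr (D : Dat p I J) : Option (I × J) → KK p
  | none => 0
  | some q => D.c q.1 q.2

/-- the names of the thresholds -/
abbrev Th (I J : Type) (B : ℕ) : Type :=
  Option ((I × J) ⊕ (I × J) ⊕ (I × I × (J → Fin 3) × (J → Fin 3) × Fin B))

/-- numerators -/
noncomputable def Dat.m1 (D : Dat p I J) (B : ℕ) (e : KK p) : Th I J B → KK p
  | none => 1
  | some (.inl q) => e - D.c q.1 q.2
  | some (.inr (.inl q)) => D.b q.1 q.2
  | some (.inr (.inr q)) => D.mon e q.1 q.2.2.1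

/-- denominators -/
noncomputable def Dat.m2 (D : Dat p I J) (B : ℕ) (e : KK p) : Th I J B → KK p
  | none => 1
  | some (.inl _) => 1
  | some (.inr (.inl _)) => 1
  | some (.inr (.inr q)) => D.mon e q.2.1 q.2.2.2.1

/-- exponents -/
def Dat.ex (D : Dat p I J) (B : ℕ) : Th I J B → ℕ
  | none => 1
  | some (.inl _) => 1
  | some (.inr (.inl q)) => max (D.δ q.1 q.2) 1
  | some (.inr (.inr q)) => q.2.2.2.2.1 + 1

omit hp [Fintype J] in
theorem Dat.ex_pos (D : Dat p I J) (B : ℕ) (θ : Th I J B) : 0 < D.ex B θ := by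
  rcases θ with _ | q | q | q <;> simp [Dat.ex]

/-- constancy between thresholds -/
theorem Dat.const (D : Dat p I J) (B : ℕ) (hB : ∀ i, ∑ j, D.δ i j ≤ B) (e : KK p) (r r' : ℝ)
    (hr : 0 < r) (hrr : r ≤ r')
    (h : ∀ θ : Th I J B, D.m1 B e θ ≠ 0 → D.m2 B e θ ≠ 0 →
      ¬ (‖D.m1 B e θ‖ ≤ r' ^ D.ex B θ * ‖D.m2 B e θ‖ ∧
        r ^ D.ex B θ * ‖D.m2 B e θ‖ ≤ ‖D.m1 B e θ‖)) (i i' : I) :
    D.lam e i r ≤ D.lam e i' r ↔ D.lam e i r' ≤ D.lam e i' r' := by
  have hr' : 0 < r' := hr.trans_le hrr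
  -- every factor is a monomial
  have hfac : ∀ i j, ∃ f : Fin 3, ∀ s, (s = r ∨ s = r') →
      max (max s ‖e - D.c i j‖ ^ D.δ i j) ‖D.b i j‖ =
        ‖pk ((e - D.c i j) ^ D.δ i j) (D.b i j) f‖ * s ^ (if f = 0 then D.δ i j else 0) := by
    intro i j
    have hconst : ∀ s : ℝ, max s ‖e - D.c i j‖ = ‖e - D.c i j‖ →
        ∃ f : Fin 3, f ≠ 0 ∧ max (max s ‖e - D.c i j‖ ^ D.δ i j) ‖D.b i j‖ =
          ‖pk ((e - D.c i j) ^ D.δ i j) (D.b i j) f‖ := by
      intro s hs
      rw [hs]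
      rcases le_total (‖D.b i j‖) (‖e - D.c i j‖ ^ D.δ i j) with h1 | h1
      · refine ⟨1, by decide, ?_⟩
        rw [max_eq_left h1]
        simp [pk]
      · refine ⟨2, by decide, ?_⟩
        rw [max_eq_right h1]
        simp [pk]
    have h1 := h (some (.inl (i, j)))
    have h2 := h (some (.inr (.inl (i, j))))
    simp only [Dat.m1, Dat.m2, Dat.ex, norm_one, mul_one, pow_one] at h1 h2
    have hε : ‖e - D.c i j‖ < r ∨ r' < ‖e - D.c i j‖ := by
      by_cases h0 : e - D.c i j = 0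
      · left
        rw [h0, norm_zero]
        exact hr
      · have h3 := h1 h0 one_ne_zero
        by_contra hcon
        push Not at hcon
        exact h3 ⟨hcon.2, hcon.1⟩
    rcases hε with hε | hε
    · have hms : ∀ s, (s = r ∨ s = r') → max s ‖e - D.c i j‖ = s := by
        rintro s (rfl | rfl)
        · exact max_eq_left hε.le
        · exact max_eq_left (hε.le.trans hrr)
      rcases Nat.eq_zero_or_pos (D.δ i j) with hδ | hδ
      · rcases le_total (‖D.b i j‖) 1 with h3 | h3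
        · refine ⟨0, fun s hs => ?_⟩
          rw [hδ]
          simp [pk, h3]
        · refine ⟨2, fun s hs => ?_⟩
          rw [hδ]
          simp [pk, h3]
      · have hmax : max (D.δ i j) 1 = D.δ i j := max_eq_left hδ
        rw [hmax] at h2
        have hb : ‖D.b i j‖ < r ^ D.δ i j ∨ r' ^ D.δ i j < ‖D.b i j‖ := by
          by_cases h0 : D.b i j = 0
          · left
            rw [h0, norm_zero]
            positivity
          · have h3 := h2 h0 one_ne_zero
            by_contra hcon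
            push Not at hcon
            exact h3 ⟨hcon.2, hcon.1⟩
        rcases hb with hb | hb
        · refine ⟨0, fun s hs => ?_⟩
          rw [hms s hs]
          have h3 : ‖D.b i j‖ ≤ s ^ D.δ i j := by
            rcases hs with rfl | rfl
            · exact hb.le
            · exact hb.le.trans (pow_le_pow_left₀ hr.le hrr _)
          rw [max_eq_left h3]
          simp [pk]
        · refine ⟨2, fun s hs => ?_⟩
          rw [hms s hs]
          have h3 : s ^ D.δ i j ≤ ‖D.b i j‖ := by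
            rcases hs with rfl | rfl
            · exact (pow_le_pow_left₀ hr.le hrr _).trans hb.le
            · exact hb.le
          rw [max_eq_right h3]
          simp [pk]
    · obtain ⟨f, hf0, hf⟩ := hconst r (max_eq_right (hrr.trans hε.le))
      refine ⟨f, fun s hs => ?_⟩
      rw [if_neg hf0, pow_zero, mul_one, ← hf]
      rcases hs with rfl | rfl
      · rfl
      · rw [max_eq_right hε.le, max_eq_right (hrr.trans hε.le)]
  choose f hf using hfac
  let N : I → ℕ := fun i => ∑ j, if f i j = 0 then D.δ i j else 0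
  have hN : ∀ i, N i ≤ B := fun i => (sum_le_sum fun j _ => by split_ifs <;> omega).trans (hB i)
  have hlam : ∀ i s, (s = r ∨ s = r') → D.lam e i s = ‖D.mon e i (f i)‖ * s ^ N i := by
    intro i s hs
    simp only [Dat.lam, Dat.mon, N]
    rw [prod_congr rfl fun j _ => hf i j s hs, prod_mul_distrib, prod_pow_eq_pow_sum, norm_mul,
      norm_prod]
    ring
  rw [hlam i r (Or.inl rfl), hlam i' r (Or.inl rfl), hlam i r' (Or.inr rfl),
    hlam i' r' (Or.inr rfl)]
  set M := D.mon e i (f i) with hM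
  set M' := D.mon e i' (f i') with hM'
  by_cases hM0 : M = 0
  · rw [hM0, norm_zero, zero_mul, zero_mul]
    exact ⟨fun _ => by positivity, fun _ => by positivity⟩
  by_cases hM'0 : M' = 0
  · rw [hM'0, norm_zero, zero_mul, zero_mul]
    have h1 : 0 < ‖M‖ := norm_pos_iff.2 hM0
    have h2 : 0 < ‖M‖ * r ^ N i := by positivity
    have h3 : 0 < ‖M‖ * r' ^ N i := by positivity
    exact ⟨fun h => absurd h (not_le.2 h2), fun h => absurd h (not_le.2 h3)⟩
  rcases lt_trichotomy (N i) (N i') with hlt | heq | hgt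
  · -- `‖M‖ ≤ s ^ n ‖M'‖`
    set n := N i' - N i with hn
    have h1 : ∀ s : ℝ, 0 < s → (‖M‖ * s ^ N i ≤ ‖M'‖ * s ^ N i' ↔ ‖M‖ ≤ s ^ n * ‖M'‖) := by
      intro s hs
      have h2 : s ^ N i' = s ^ n * s ^ N i := by rw [← pow_add]; congr 1; omega
      rw [h2, ← mul_assoc, mul_le_mul_iff_left₀ (by positivity), mul_comm (‖M'‖)]
    rw [h1 r hr, h1 r' hr']
    have h2 := h (some (.inr (.inr (i, i', f i, f i', ⟨n - 1, by
      have := hN i'; omega⟩)))) hM0 hM'0
    simp only [Dat.m1, Dat.m2, Dat.ex] at h2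
    have hn1 : n - 1 + 1 = n := by omega
    rw [hn1] at h2
    constructor
    · intro h3
      exact h3.trans (mul_le_mul_of_nonneg_right (pow_le_pow_left₀ hr.le hrr _) (norm_nonneg _))
    · intro h3
      by_contra h4
      push Not at h4
      exact h2 ⟨h3, h4.le⟩
  · rw [heq, mul_le_mul_iff_left₀ (by positivity), mul_le_mul_iff_left₀ (by positivity)]
  · set n := N i - N i' with hn
    have h1 : ∀ s : ℝ, 0 < s → (‖M‖ * s ^ N i ≤ ‖M'‖ * s ^ N i' ↔ s ^ n * ‖M‖ ≤ ‖M'‖) := by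
      intro s hs
      have h2 : s ^ N i = s ^ n * s ^ N i' := by rw [← pow_add]; congr 1; omega
      rw [h2, ← mul_assoc, mul_le_mul_iff_left₀ (by positivity), mul_comm (‖M‖)]
    rw [h1 r hr, h1 r' hr']
    have h2 := h (some (.inr (.inr (i', i, f i', f i, ⟨n - 1, by
      have := hN i; omega⟩)))) hM'0 hM0
    simp only [Dat.m1, Dat.m2, Dat.ex] at h2
    have hn1 : n - 1 + 1 = n := by omega
    rw [hn1] at h2
    constructor
    · intro h3
      by_contra h4
      push Not at h4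
      exact h2 ⟨h4.le, h3⟩
    · intro h3
      exact (mul_le_mul_of_nonneg_right (pow_le_pow_left₀ hr.le hrr _) (norm_nonneg _)).trans h3

theorem tt_ne : (tt : KK p) ≠ 0 := by
  intro h
  have := norm_tt (p := p)
  rw [h, norm_zero] at this
  norm_num at this

theorem norm_eq_zpow {x : KK p} (hx : x ≠ 0) : ∃ m : ℤ, ‖x‖ = 2 ^ m := ⟨_, norm_eq_of_ne hx⟩

theorem norm_add_max {x y : KK p} (h : ‖x‖ ≠ ‖y‖) : ‖x + y‖ = max ‖x‖ ‖y‖ :=
  IsUltrametricDist.norm_add_eq_max_of_norm_ne_norm h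

/-- the condition at the test points of a threshold -/
def Dat.Tst (D : Dat p I J) (B N : ℕ) (T : KK p → Prop) (e : KK p) (θ : Th I J B) : Prop :=
  D.m1 B e θ = 0 ∨ D.m2 B e θ = 0 ∨ ∃ w : KK p, w ≠ 0 ∧
    ‖(tt ^ (N + 1) * w) ^ D.ex B θ * D.m2 B e θ‖ ≤ ‖D.m1 B e θ‖ ∧
    ‖D.m1 B e θ‖ < ‖(tt ^ N * w) ^ D.ex B θ * D.m2 B e θ‖ ∧
    ∀ k : Fin (2 * N + 2), ∀ a : Fin p, T (e + ((a : ℕ) : KK p) * (tt ^ (k : ℕ) * w))

/-- the properties of the factors -/
structure Dat.Good (D : Dat p I J) (g : I → J → KK p → KK p) : Prop where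
  triv : ∀ i j y y', D.δ i j = 0 → g i j y = g i j y'
  near : ∀ i j y y', ‖y - y'‖ < ‖y - D.c i j‖ → ‖g i j y - g i j y'‖ < ‖g i j y‖
  far : ∀ i j y, ‖D.b i j‖ < ‖y - D.c i j‖ ^ D.δ i j →
    ‖g i j y - (y - D.c i j) ^ D.δ i j‖ < ‖y - D.c i j‖ ^ D.δ i j
  close : ∀ i j y, ‖y - D.c i j‖ ^ D.δ i j < ‖D.b i j‖ → ‖g i j y - D.b i j‖ < ‖D.b i j‖

omit [Fintype J] in
/-- leading terms of a factor between thresholds -/
theorem Dat.Good.req {D : Dat p I J} {g : I → J → KK p → KK p} (hg : D.Good g) (N : ℕ) (i : I)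
    (j : J) (e y y' : KK p) (hR : Req N (y - e) (y' - e))
    (h1 : ‖e - D.c i j‖ < min ‖y - e‖ ‖y' - e‖ ∨ max ‖y - e‖ ‖y' - e‖ < ‖e - D.c i j‖)
    (h2 : D.δ i j ≠ 0 → ‖D.b i j‖ < (min ‖y - e‖ ‖y' - e‖) ^ D.δ i j ∨
      (max ‖y - e‖ ‖y' - e‖) ^ D.δ i j < ‖D.b i j‖) :
    Req N (g i j y) (g i j y') := by
  rcases Nat.eq_zero_or_pos (D.δ i j) with hδ | hδ
  · rw [hg.triv i j y y' hδ]
    exact Req.refl _ _
  rcases h1 with h1 | h1
  · have h3 := h1.trans_le (min_le_left _ _)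
    have h4 := h1.trans_le (min_le_right _ _)
    have key : ∀ z, ‖e - D.c i j‖ < ‖z - e‖ → ‖z - D.c i j‖ = ‖z - e‖ ∧
        Req N (z - D.c i j) (z - e) := by
      intro z hz
      have h5 : z - D.c i j = (z - e) + (e - D.c i j) := by ring
      have h6 : ‖z - D.c i j‖ = ‖z - e‖ := by
        rw [h5, norm_add_eq_of_lt hz]
      refine ⟨h6, Req.of_lt N ?_⟩
      rw [h6]
      have h7 : z - D.c i j - (z - e) = e - D.c i j := by ring
      rw [h7]
      exact hz
    obtain ⟨n1, r1⟩ := key y h3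
    obtain ⟨n2, r2⟩ := key y' h4
    rcases h2 hδ.ne' with h5 | h5
    · have h6 : ∀ z, min ‖y - e‖ ‖y' - e‖ ≤ ‖z - D.c i j‖ →
          Req N ((z - D.c i j) ^ D.δ i j) (g i j z) := by
        intro z hz
        have h7 : ‖D.b i j‖ < ‖z - D.c i j‖ ^ D.δ i j :=
          h5.trans_le (pow_le_pow_left₀ (le_min (norm_nonneg _) (norm_nonneg _)) hz _)
        have h8 := hg.far i j z h7
        apply Req.of_lt
        rw [norm_sub_rev, norm_pow]
        exact h8
      have h7 := h6 y (by rw [n1]; exact min_le_left _ _)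
      have h8 := h6 y' (by rw [n2]; exact min_le_right _ _)
      exact h7.symm.trans (((r1.trans (hR.trans r2.symm)).pow _).trans h8)
    · have h6 : ∀ z, ‖z - D.c i j‖ ≤ max ‖y - e‖ ‖y' - e‖ → Req N (D.b i j) (g i j z) := by
        intro z hz
        have h7 : ‖z - D.c i j‖ ^ D.δ i j < ‖D.b i j‖ :=
          (pow_le_pow_left₀ (norm_nonneg _) hz _).trans_lt h5
        have h8 := hg.close i j z h7
        apply Req.of_lt
        rw [norm_sub_rev]
        exact h8
      exact (h6 y (by rw [n1]; exact le_max_left _ _)).symm.trans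
        (h6 y' (by rw [n2]; exact le_max_right _ _))
  · apply Req.of_lt
    apply hg.near
    have h3 : ‖y - D.c i j‖ = ‖e - D.c i j‖ := by
      have h5 : y - D.c i j = (e - D.c i j) + (y - e) := by ring
      rw [h5, norm_add_eq_of_lt ((le_max_left _ _).trans_lt h1)]
    rw [h3]
    have h4 : y - y' = (y - e) + -(y' - e) := by ring
    rw [h4]
    refine (IsUltrametricDist.norm_add_le_max _ _).trans_lt ?_
    rw [norm_neg]
    exact h1

/-- **Test points**: if `T` depends only on the comparisons of the norms of the polynomials, and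
on their leading coefficients and their valuations modulo `N`, and holds at all test points, then
it holds everywhere. -/
theorem Dat.test [Fintype I] (D : Dat p I J) (B N : ℕ) (hN : 0 < N)
    (hB : ∀ i, ∑ j, D.δ i j ≤ B) (g : I → J → KK p → KK p) (hg : D.Good g) (T : KK p → Prop)
    (hT : ∀ y y', (∀ i i', D.nrm i y ≤ D.nrm i' y ↔ D.nrm i y' ≤ D.nrm i' y') →
      (∀ i, Req N (D.A i * ∏ j, g i j y) (D.A i * ∏ j, g i j y')) → (T y ↔ T y'))
    (h : ∀ (o : Option (I × J)) (θ : Th I J B), D.Tst B N T (D.ctr o) θ) (y : KK p) : T y := by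
  classical
  have hp1 : 1 < p := hp.out.one_lt
  -- the nearest centre
  obtain ⟨o, _, ho⟩ := exists_min_image (univ : Finset (Option (I × J)))
    (fun o => ‖y - D.ctr o‖) univ_nonempty
  set e := D.ctr o with he
  have hnear : ∀ i j, ‖y - e‖ ≤ ‖y - D.c i j‖ := fun i j => ho (some (i, j)) (mem_univ _)
  -- the active thresholds
  let Θ : Type := {θ : Th I J B // D.m1 B e θ ≠ 0 ∧ D.m2 B e θ ≠ 0}
  have hne : Nonempty Θ := ⟨⟨none, one_ne_zero, one_ne_zero⟩⟩
  have hw : ∀ θ : Θ, ∃ w : KK p, w ≠ 0 ∧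
      ‖(tt ^ (N + 1) * w) ^ D.ex B θ.1 * D.m2 B e θ.1‖ ≤ ‖D.m1 B e θ.1‖ ∧
      ‖D.m1 B e θ.1‖ < ‖(tt ^ N * w) ^ D.ex B θ.1 * D.m2 B e θ.1‖ ∧
      ∀ k : Fin (2 * N + 2), ∀ a : Fin p, T (e + ((a : ℕ) : KK p) * (tt ^ (k : ℕ) * w)) := by
    intro θ
    rcases h o θ.1 with h1 | h1 | h1
    · exact absurd h1 θ.2.1
    · exact absurd h1 θ.2.2
    · exact h1
  choose w hw0 hw1 hw2 hw3 using hw
  have hq : ∀ θ : Θ, ∃ q : ℤ, ‖w θ‖ = 2 ^ (q + N) := fun θ => by
    obtain ⟨m, hm⟩ := norm_eq_zpow (hw0 θ)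
    exact ⟨m - N, by rw [hm]; congr 1; ring⟩
  choose q hq using hq
  have hqk : ∀ (θ : Θ) (k : ℕ), ‖tt ^ k * w θ‖ = 2 ^ (q θ + N - k) := by
    intro θ k
    rw [norm_mul, norm_pow, norm_tt, hq, zpow_sub₀ (by norm_num), zpow_natCast, one_div,
      inv_pow]
    ring
  have hτ : ∀ θ : Θ, ∃ τ : ℝ, ∀ s : ℝ, 0 ≤ s →
      (s ^ D.ex B θ.1 * ‖D.m2 B e θ.1‖ ≤ ‖D.m1 B e θ.1‖ ↔ s ≤ τ) ∧
      (‖D.m1 B e θ.1‖ ≤ s ^ D.ex B θ.1 * ‖D.m2 B e θ.1‖ ↔ τ ≤ s) := fun θ =>
    exists_tau (norm_pos_iff.2 θ.2.1) (norm_pos_iff.2 θ.2.2) (D.ex_pos B θ.1)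
  choose τ hτ using hτ
  have hτ1 : ∀ θ, (2 : ℝ) ^ (q θ - 1) ≤ τ θ := by
    intro θ
    rw [← (hτ θ _ (by positivity)).1]
    have h1 := hw1 θ
    rw [norm_mul, norm_pow, hqk] at h1
    have h2 : (q θ + N - ((N + 1 : ℕ) : ℤ)) = q θ - 1 := by push_cast; ring
    rw [h2] at h1
    exact h1
  have hτ2 : ∀ θ, τ θ < 2 ^ (q θ) := by
    intro θ
    by_contra h1
    push Not at h1
    rw [← (hτ θ _ (by positivity)).1] at h1
    have h2 := hw2 θ
    rw [norm_mul, norm_pow, hqk] at h2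
    have h3 : (q θ + N - (N : ℤ)) = q θ := by ring
    rw [h3] at h2
    exact absurd h1 (not_le.2 h2)
  by_cases hye : y - e = 0
  · have h1 := hw3 ⟨none, one_ne_zero, one_ne_zero⟩ ⟨0, by omega⟩ ⟨0, by omega⟩
    have h2 : y = e := sub_eq_zero.1 hye
    rw [h2]
    simpa using h1
  obtain ⟨m, hm⟩ := norm_eq_zpow hye
  have hr0 : 0 < ‖y - e‖ := norm_pos_iff.2 hye
  obtain ⟨θ, k, hk, ⟨kk, hkk⟩, hcase⟩ := thr N hN τ q hτ1 hτ2 m
  set v : KK p := tt ^ k * w θ with hv
  have hv0 : v ≠ 0 := mul_ne_zero (pow_ne_zero _ tt_ne) (hw0 θ)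
  have hvn : ‖v‖ = 2 ^ (q θ + N - k) := hqk θ k
  -- the intermediate point
  set y1 : KK p := e + tt ^ ((N : ℤ) * kk) * (y - e) with hy1
  have hy1e : y1 - e = tt ^ ((N : ℤ) * kk) * (y - e) := by rw [hy1]; ring
  have hR1 : Req N (y - e) (y1 - e) := by rw [hy1e]; exact Req.tzpow _ _ _
  have hn1 : ‖y1 - e‖ = ‖v‖ := by
    rw [hy1e, norm_mul, norm_tzpow, hm, hvn, ← zpow_add₀ (by norm_num)]
    congr 1
    linarith
  have hv1 : 0 < ‖v‖ := norm_pos_iff.2 hv0
  -- from `y` to the intermediate point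
  have hA : (∀ i j, ‖y1 - e‖ ≤ ‖y1 - D.c i j‖) ∧ (T y ↔ T y1) := by
    rcases hcase with hcase | hcase
    · -- the radius is a test radius
      have h1 : y1 = y := by
        have h2 : (N : ℤ) * kk = 0 := by rw [← hkk, ← hcase]; ring
        rw [hy1, h2, zpow_zero]
        ring
      rw [h1]
      exact ⟨hnear, Iff.rfl⟩
    · -- there is no threshold between the radius and a test radius
      set r := ‖y - e‖ with hr
      have hmin : (2 : ℝ) ^ (min m (q θ + N - k)) = min r ‖y1 - e‖ := by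
        rw [hm, hn1, hvn]
        have hmono : StrictMono fun n : ℤ => (2 : ℝ) ^ n := zpow_right_strictMono₀ (by norm_num)
        exact hmono.monotone.map_min
      have hmax : (2 : ℝ) ^ (max m (q θ + N - k)) = max r ‖y1 - e‖ := by
        rw [hm, hn1, hvn]
        have hmono : StrictMono fun n : ℤ => (2 : ℝ) ^ n := zpow_right_strictMono₀ (by norm_num)
        exact hmono.monotone.map_max
      rw [hmin, hmax] at hcase
      set r' := ‖y1 - e‖ with hr'
      have hr'0 : 0 < r' := by rw [hn1]; exact hv1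
      have hth : ∀ θ : Th I J B, D.m1 B e θ ≠ 0 → D.m2 B e θ ≠ 0 →
          ¬ (‖D.m1 B e θ‖ ≤ (max r r') ^ D.ex B θ * ‖D.m2 B e θ‖ ∧
            (min r r') ^ D.ex B θ * ‖D.m2 B e θ‖ ≤ ‖D.m1 B e θ‖) := by
        intro θ' h1 h2 h3
        refine hcase ⟨θ', h1, h2⟩ ⟨?_, ?_⟩
        · rw [← (hτ ⟨θ', h1, h2⟩ _ (by positivity)).1]
          exact h3.2
        · rw [← (hτ ⟨θ', h1, h2⟩ _ (by positivity)).2]
          exact h3.1
      have hconst := D.const B hB e (min r r') (max r r') (lt_min hr0 hr'0) min_le_max hth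
      have hlam : ∀ i i', D.lam e i r ≤ D.lam e i' r ↔ D.lam e i r' ≤ D.lam e i' r' := by
        intro i i'
        rcases le_total r r' with h1 | h1
        · have := hconst i i'
          rwa [min_eq_left h1, max_eq_right h1] at this
        · have := hconst i i'
          rw [min_eq_right h1, max_eq_left h1] at this
          exact this.symm
      -- distances to the centres
      have hdist : ∀ i j, ‖e - D.c i j‖ < min r r' ∨ max r r' < ‖e - D.c i j‖ := by
        intro i j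
        by_cases h0 : e - D.c i j = 0
        · rw [h0, norm_zero]
          exact Or.inl (lt_min hr0 hr'0)
        · have h1 := hth (some (.inl (i, j))) h0 one_ne_zero
          simp only [Dat.m1, Dat.m2, Dat.ex, norm_one, mul_one, pow_one] at h1
          by_contra h2
          push Not at h2
          exact h1 ⟨h2.2, h2.1⟩
      have hbb : ∀ i j, D.δ i j ≠ 0 → ‖D.b i j‖ < (min r r') ^ D.δ i j ∨
          (max r r') ^ D.δ i j < ‖D.b i j‖ := by
        intro i j hδ
        by_cases h0 : D.b i j = 0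
        · rw [h0, norm_zero]
          exact Or.inl (pow_pos (lt_min hr0 hr'0) _)
        · have h1 := hth (some (.inr (.inl (i, j)))) h0 one_ne_zero
          have h3 : max (D.δ i j) 1 = D.δ i j := max_eq_left (by omega)
          simp only [Dat.m1, Dat.m2, Dat.ex, norm_one, mul_one, h3] at h1
          by_contra h2
          push Not at h2
          exact h1 ⟨h2.2, h2.1⟩
      have hdist1 : ∀ i j, ‖y - D.c i j‖ = max r ‖e - D.c i j‖ := by
        intro i j
        have h4 : y - D.c i j = (y - e) + (e - D.c i j) := by ring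
        rw [h4]
        apply norm_add_max
        rcases hdist i j with h5 | h5
        · exact (h5.trans_le (min_le_left _ _)).ne'
        · exact ((le_max_left _ _).trans_lt h5).ne
      have hdist2 : ∀ i j, ‖y1 - D.c i j‖ = max r' ‖e - D.c i j‖ := by
        intro i j
        have h4 : y1 - D.c i j = (y1 - e) + (e - D.c i j) := by ring
        rw [h4]
        apply norm_add_max
        rcases hdist i j with h5 | h5
        · exact (h5.trans_le (min_le_right _ _)).ne'
        · exact ((le_max_right _ _).trans_lt h5).ne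
      refine ⟨fun i j => by rw [hdist2]; exact le_max_left _ _, hT _ _ (fun i i' => ?_)
        fun i => ?_⟩
      · have h1 : ∀ i, D.nrm i y = D.lam e i r := fun i => by
          simp only [Dat.nrm, Dat.lam, hdist1]
        have h2 : ∀ i, D.nrm i y1 = D.lam e i r' := fun i => by
          simp only [Dat.nrm, Dat.lam, hdist2]
        rw [h1, h1, h2, h2]
        exact hlam i i'
      · exact (Req.refl _ _).mul (Req.prod _ fun j =>
          hg.req N i j e y y1 hR1 (hdist i j) (hbb i j))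
  rw [hA.2]
  -- from the intermediate point to a test point
  obtain ⟨a, ha, h1⟩ := exists_residue ((y1 - e) / v) (by
    rw [norm_div, hn1, div_self hv1.ne'])
  have h2 : ‖y1 - (e + (a : KK p) * v)‖ < ‖y1 - e‖ := by
    have h3 : y1 - (e + (a : KK p) * v) = ((y1 - e) / v - a) * v := by
      field_simp
      ring
    rw [h3, norm_mul, hn1]
    exact mul_lt_of_lt_one_left hv1 h1
  have h3 : ∀ i j, ‖y1 - (e + (a : KK p) * v)‖ < ‖y1 - D.c i j‖ := fun i j =>
    h2.trans_le (hA.1 i j)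
  refine (hT _ _ (fun i i' => ?_) fun i => ?_).2 (hw3 θ ⟨k, hk⟩ ⟨a, ha⟩)
  · have h4 : ∀ i, D.nrm i y1 = D.nrm i (e + (a : KK p) * v) := by
      intro i
      simp only [Dat.nrm]
      congr 1
      refine prod_congr rfl fun j _ => ?_
      congr 2
      have h4 : e + (a : KK p) * v - D.c i j = (y1 - D.c i j) + -(y1 - (e + (a : KK p) * v)) := by
        ring
      rw [h4]
      symm
      apply norm_add_eq_of_lt
      rw [norm_neg]
      exact h3 i j
    rw [h4 i, h4 i']
  · exact (Req.refl _ _).mul (Req.prod _ fun j => Req.of_lt N (hg.near i j _ _ (h3 i j)))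

end

end Pool.Agent.Q206.FT
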