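import Pool.Agent.Q206.FT.Atoms

/-! # Semilinear conditions on leading terms -/

set_option autoImplicit false

open Finset Pointwise

namespace Pool.Agent.Q206.FT

variable {p : ℕ}

/-- leading coefficient and order -/
abbrev RV (p : ℕ) : Type := ZMod p × ℤ

/-- conditions on leading coefficients and orders which are semilinear in the orders -/
def Pres {D : Type} (Ψ : Set (D → RV p)) : Prop :=
  ∀ α : D → ZMod p, IsSemilinearSet {m : D → ℤ | (fun d => (α d, m d)) ∈ Ψ}

section

variable {D E : Type}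

theorem Pres.congr {Φ Ψ : Set (D → RV p)} (h : Pres Φ) (h2 : ∀ ξ, ξ ∈ Ψ ↔ ξ ∈ Φ) : Pres Ψ := by
  have : Ψ = Φ := Set.ext h2
  rwa [this]

theorem Pres.and {P Q : (D → RV p) → Prop} (hP : Pres {ξ | P ξ}) (hQ : Pres {ξ | Q ξ}) :
    Pres {ξ | P ξ ∧ Q ξ} := fun α => (hP α).inter (hQ α)

theorem Pres.or {P Q : (D → RV p) → Prop} (hP : Pres {ξ | P ξ}) (hQ : Pres {ξ | Q ξ}) :
    Pres {ξ | P ξ ∨ Q ξ} := fun α => (hP α).union (hQ α)

theorem Pres.any {ι : Type} [Finite ι] {P : ι → (D → RV p) → Prop}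
    (hP : ∀ i, Pres {ξ | P i ξ}) : Pres {ξ | ∃ i, P i ξ} := by
  intro α
  have h := IsSemilinearSet.iUnion fun i => hP i α
  have h2 : {m : D → ℤ | (fun d => (α d, m d)) ∈ {ξ : D → RV p | ∃ i, P i ξ}} =
      ⋃ i, {m : D → ℤ | (fun d => (α d, m d)) ∈ {ξ : D → RV p | P i ξ}} := by
    ext m
    simp
  rw [h2]
  exact h

variable [Finite D]

theorem Pres.not {P : (D → RV p) → Prop} (hP : Pres {ξ | P ξ}) : Pres {ξ | ¬ P ξ} :=
  fun α => (hP α).compl

theorem Pres.all {ι : Type} [Finite ι] {P : ι → (D → RV p) → Prop}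
    (hP : ∀ i, Pres {ξ | P i ξ}) : Pres {ξ | ∀ i, P i ξ} := by
  have h := (Pres.any fun i => (hP i).not).not
  refine h.congr fun ξ => ?_
  simp

theorem Pres.imp {P Q : (D → RV p) → Prop} (hP : Pres {ξ | P ξ}) (hQ : Pres {ξ | Q ξ}) :
    Pres {ξ | P ξ → Q ξ} := by
  refine (hP.not.or hQ).congr fun ξ => ?_
  exact imp_iff_not_or

/-- conditions on the leading coefficients -/
theorem Pres.fst (R : (D → ZMod p) → Prop) : Pres {ξ : D → RV p | R fun d => (ξ d).1} := by
  intro α
  by_cases h : R α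
  · have h2 : {m : D → ℤ | (fun d => (α d, m d)) ∈ {ξ : D → RV p | R fun d => (ξ d).1}} =
        Set.univ := by
      ext m
      simp [h]
    rw [h2]
    exact IsSemilinearSet.univ
  · have h2 : {m : D → ℤ | (fun d => (α d, m d)) ∈ {ξ : D → RV p | R fun d => (ξ d).1}} = ∅ := by
      ext m
      simp [h]
    rw [h2]
    exact IsSemilinearSet.empty

theorem Pres.const (P : Prop) : Pres {_ξ : D → RV p | P} := Pres.fst fun _ => P

/-- a change of variables -/
theorem Pres.comap {Φ : Set (E → RV p)} (h : Pres Φ) (f : E → D) :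
    Pres {ξ : D → RV p | (fun e => ξ (f e)) ∈ Φ} := by
  intro α
  have h1 := (h fun e => α (f e)).preimage (LinearMap.funLeft ℕ ℤ f)
  exact h1

omit [Finite D] in
/-- projections -/
theorem Pres.exs [Fact p.Prime] [Finite E] {R : (D → RV p) → (E → RV p) → Prop}
    (h : Pres {w : D ⊕ E → RV p | R (fun i => w (.inl i)) fun i => w (.inr i)}) :
    Pres {ξ | ∃ η, R ξ η} := by
  intro α
  have h1 := IsSemilinearSet.iUnion fun β : E → ZMod p => (h (Sum.elim α β)).proj
  have h2 : {m : D → ℤ | (fun d => (α d, m d)) ∈ {ξ : D → RV p | ∃ η, R ξ η}} =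
      ⋃ β : E → ZMod p, {m : D → ℤ | ∃ n : E → ℤ, Sum.elim m n ∈ {m : D ⊕ E → ℤ |
        (fun d => (Sum.elim α β d, m d)) ∈ {w : D ⊕ E → RV p |
          R (fun i => w (.inl i)) fun i => w (.inr i)}}} := by
    ext m
    simp only [Set.mem_iUnion]
    constructor
    · rintro ⟨η, hη⟩
      exact ⟨fun e => (η e).1, fun e => (η e).2, hη⟩
    · rintro ⟨β, n, hn⟩
      exact ⟨fun e => (β e, n e), hn⟩
  rw [h2]
  exact h1

omit [Finite D] in
theorem Pres.ex [Fact p.Prime] {R : (D → RV p) → RV p → Prop}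
    (h : Pres {w : D ⊕ Unit → RV p | R (fun i => w (.inl i)) (w (.inr ()))}) :
    Pres {ξ | ∃ η, R ξ η} := by
  refine (Pres.exs (E := Unit) (R := fun ξ η => R ξ (η ())) h).congr fun ξ => ?_
  constructor
  · rintro ⟨η, hη⟩
    exact ⟨fun _ => η, hη⟩
  · rintro ⟨η, hη⟩
    exact ⟨η (), hη⟩

end

/-! ## affine functions of the orders -/

section

variable {D E : Type}

/-- affine functions of the orders -/
def IsAf (f : (D → RV p) → ℤ) : Prop :=
  ∃ (L : (D → ℤ) →+ ℤ) (c : ℤ), ∀ ξ, f ξ = L (fun d => (ξ d).2) + c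

theorem IsAf.var (d : D) : IsAf fun ξ : D → RV p => (ξ d).2 :=
  ⟨Pi.evalAddMonoidHom (fun _ => ℤ) d, 0, fun ξ => by simp⟩

theorem IsAf.const (c : ℤ) : IsAf fun _ : D → RV p => c := ⟨0, c, fun ξ => by simp⟩

theorem IsAf.add {f g : (D → RV p) → ℤ} (hf : IsAf f) (hg : IsAf g) : IsAf fun ξ => f ξ + g ξ := by
  obtain ⟨L, c, h⟩ := hf
  obtain ⟨L', c', h'⟩ := hg
  refine ⟨L + L', c + c', fun ξ => ?_⟩
  show f ξ + g ξ = _
  rw [h, h', AddMonoidHom.add_apply]
  ring

theorem IsAf.neg {f : (D → RV p) → ℤ} (hf : IsAf f) : IsAf fun ξ => - f ξ := by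
  obtain ⟨L, c, h⟩ := hf
  refine ⟨-L, -c, fun ξ => ?_⟩
  show - f ξ = _
  rw [h, AddMonoidHom.neg_apply]
  ring

theorem IsAf.sub {f g : (D → RV p) → ℤ} (hf : IsAf f) (hg : IsAf g) : IsAf fun ξ => f ξ - g ξ := by
  simp only [sub_eq_add_neg]
  exact hf.add hg.neg

theorem IsAf.mulc (n : ℕ) {f : (D → RV p) → ℤ} (hf : IsAf f) : IsAf fun ξ => n * f ξ := by
  induction n with
  | zero => simpa using IsAf.const (p := p) (D := D) 0
  | succ n ih =>
    have : ∀ ξ, ((n + 1 : ℕ) : ℤ) * f ξ = n * f ξ + f ξ := fun ξ => by push_cast; ring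
    simp only [this]
    exact ih.add hf

theorem IsAf.sum {ι : Type} (s : Finset ι) {f : ι → (D → RV p) → ℤ} (hf : ∀ i, IsAf (f i)) :
    IsAf fun ξ => ∑ i ∈ s, f i ξ := by
  classical
  induction s using Finset.induction_on with
  | empty => simpa using IsAf.const (p := p) (D := D) 0
  | insert a s ha ih =>
    simp only [sum_insert ha]
    exact (hf a).add ih

theorem semilinear_ge (a : ℤ) : IsSemilinearSet {k : ℤ | a ≤ k} := by
  have h1 : IsSemilinearSet (Set.range (Nat.castAddMonoidHom ℤ)) := by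
    rw [← Set.image_univ]
    exact (IsSemilinearSet.univ (M := ℕ)).image (Nat.castAddMonoidHom ℤ)
  have h2 := h1.vadd a
  have h3 : {k : ℤ | a ≤ k} = a +ᵥ Set.range (Nat.castAddMonoidHom ℤ) := by
    ext k
    rw [Set.mem_vadd_set]
    constructor
    · intro hk
      have hk' : a ≤ k := hk
      refine ⟨k - a, ⟨(k - a).toNat, ?_⟩, ?_⟩
      · show ((k - a).toNat : ℤ) = k - a
        omega
      · show a + (k - a) = k
        ring
    · rintro ⟨_, ⟨n, rfl⟩, hn⟩
      have hn' : a + (n : ℤ) = k := hn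
      show a ≤ k
      omega
  rw [h3]
  exact h2

variable [Finite D]

theorem Pres.le {f g : (D → RV p) → ℤ} (hf : IsAf f) (hg : IsAf g) : Pres {ξ | f ξ ≤ g ξ} := by
  obtain ⟨L, c, h⟩ := hf
  obtain ⟨L', c', h'⟩ := hg
  intro α
  have h1 := (semilinear_ge (c - c')).preimage (L' - L)
  have h2 : {m : D → ℤ | (fun d => (α d, m d)) ∈ {ξ : D → RV p | f ξ ≤ g ξ}} =
      (L' - L) ⁻¹' {k : ℤ | c - c' ≤ k} := by
    ext m
    show f _ ≤ g _ ↔ c - c' ≤ (L' - L) m
    rw [h, h', AddMonoidHom.sub_apply]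
    show L m + c ≤ L' m + c' ↔ _
    constructor <;> intro h3 <;> linarith
  rw [h2]
  exact h1

theorem Pres.lt {f g : (D → RV p) → ℤ} (hf : IsAf f) (hg : IsAf g) : Pres {ξ | f ξ < g ξ} :=
  (Pres.le hg hf).not.congr fun ξ => (not_le (a := g ξ) (b := f ξ)).symm

theorem Pres.eq {f g : (D → RV p) → ℤ} (hf : IsAf f) (hg : IsAf g) : Pres {ξ | f ξ = g ξ} :=
  ((Pres.le hf hg).and (Pres.le hg hf)).congr fun _ => le_antisymm_iff

/-- equality of leading terms -/
theorem Pres.eqv (d e : D) : Pres {ξ : D → RV p | ξ d = ξ e} := by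
  refine ((Pres.fst fun α : D → ZMod p => α d = α e).and
    (Pres.eq (IsAf.var d) (IsAf.var e))).congr fun ξ => ?_
  exact Prod.ext_iff

theorem Pres.dvd [Fact p.Prime] (N : ℕ) {f : (D → RV p) → ℤ} (hf : IsAf f) :
    Pres {ξ | (N : ℤ) ∣ f ξ} := by
  obtain ⟨L, c, h⟩ := hf
  have h1 : Pres {ξ : D → RV p | ∃ η : RV p, L (fun d => (ξ d).2) + c = N * η.2} :=
    Pres.ex (Pres.eq ⟨L.comp (LinearMap.funLeft ℕ ℤ Sum.inl).toAddMonoidHom, c, fun ξ => rfl⟩
      ((IsAf.var _).mulc N))
  refine h1.congr fun ξ => ?_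
  show (N : ℤ) ∣ f ξ ↔ _
  rw [h]
  constructor
  · rintro ⟨k, hk⟩
    exact ⟨(0, k), hk⟩
  · rintro ⟨η, hη⟩
    exact ⟨η.2, hη⟩

end

/-! ## leading terms of elements of the field -/

section

variable [hp : Fact p.Prime]

/-- the leading term -/
noncomputable def rv (u : KK p) : RV p := (u.leadingCoeff, u.order)

theorem rv_ok (u : KK p) (h : (rv u).1 = 0) : (rv u).2 = 0 := by
  have : u = 0 := HahnSeries.leadingCoeff_eq_zero.1 h
  rw [this]
  exact HahnSeries.order_zero

theorem rv_surj (ξ : RV p) (h : ξ.1 = 0 → ξ.2 = 0) : ∃ u : KK p, rv u = ξ := by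
  by_cases h0 : ξ.1 = 0
  · exact ⟨0, Prod.ext (by rw [h0]; exact HahnSeries.leadingCoeff_zero)
      (by rw [h h0]; exact HahnSeries.order_zero)⟩
  · refine ⟨HahnSeries.single ξ.2 ξ.1, Prod.ext ?_ ?_⟩
    · exact HahnSeries.leadingCoeff_of_single
    · exact HahnSeries.order_single h0

theorem rv_zero_iff (u : KK p) : (rv u).1 = 0 ↔ u = 0 := HahnSeries.leadingCoeff_eq_zero

theorem norm_rv {u : KK p} (hu : u ≠ 0) : ‖u‖ = 2 ^ (-(rv u).2) := norm_eq_of_ne hu

theorem rv_eq_of_lt {u v : KK p} (h : ‖u - v‖ < ‖u‖) : rv u = rv v := by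
  have h1 := Req.of_lt 0 h
  refine Prod.ext h1.2.1 ?_
  have h2 := h1.2.2
  rw [Nat.cast_zero, zero_dvd_iff] at h2
  exact sub_eq_zero.1 h2

theorem norm_sub_lt_of_rv {u v : KK p} (hu : u ≠ 0) (h : rv u = rv v) : ‖u - v‖ < ‖u‖ := by
  have hv : v ≠ 0 := by
    rw [Ne, ← rv_zero_iff, ← h, rv_zero_iff]
    exact hu
  have h1 := norm_sub_lead hu
  have h2 := norm_sub_lead hv
  have hl : u.leadingCoeff = v.leadingCoeff := congrArg Prod.fst h
  have ho : u.order = v.order := congrArg Prod.snd h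
  rw [hl, ho] at h1
  have hn : ‖u‖ = ‖v‖ := by rw [norm_eq_of_ne hu, norm_eq_of_ne hv, ho]
  have h3 : u - v = (u - (v.leadingCoeff.val : KK p) * tt ^ v.order) +
      -(v - (v.leadingCoeff.val : KK p) * tt ^ v.order) := by ring
  rw [h3]
  refine (IsUltrametricDist.norm_add_le_max _ _).trans_lt (max_lt h1 ?_)
  rw [norm_neg, hn]
  exact h2

theorem rv_mul {u v : KK p} (hu : u ≠ 0) (hv : v ≠ 0) :
    rv (u * v) = ((rv u).1 * (rv v).1, (rv u).2 + (rv v).2) :=
  Prod.ext (HahnSeries.leadingCoeff_mul u v) (HahnSeries.order_mul hu hv)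

theorem two_zpow_sum {ι : Type} (s : Finset ι) (c : ι → ℤ) :
    (2 : ℝ) ^ (∑ i ∈ s, c i) = ∏ i ∈ s, 2 ^ c i := by
  classical
  induction s using Finset.induction_on with
  | empty => simp
  | insert a s ha ih => rw [sum_insert ha, prod_insert ha, zpow_add₀ (by norm_num), ih]

variable {σ D : Type}

/-- **Semilinear conditions on the leading terms of polynomials are existential.** -/
theorem ED.pres [Finite D] {Ψ : Set (D → RV p)} (hΨ : Pres Ψ) {E : D → (σ → KK p) → KK p}
    (hE : ∀ d, IsPo (E d)) : ED {x | (fun d => rv (E d x)) ∈ Ψ} := by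
  classical
  have key : ∀ α : D → ZMod p, ED {x | (∀ d, (E d x).leadingCoeff = α d) ∧
      (fun d => (α d, (E d x).order)) ∈ Ψ} := by
    intro α
    obtain ⟨S, hS1, hS2, hS3⟩ := hΨ α
    have hlin : ∀ s : Set (D → ℤ), IsLinearSet s →
        ED {x | (∀ d, (E d x).leadingCoeff = α d) ∧ (fun d => (E d x).order) ∈ s} := by
      intro s hs
      obtain ⟨a, n, f, rfl⟩ := isLinearSet_iff_exists_fin_addMonoidHom.1 hs
      let E' : D → (σ → KK p) → KK p := fun d x => if α d = 0 then 1 else E d x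
      have hE' : ∀ d, IsPo (E' d) := by
        intro d
        by_cases h : α d = 0
        · simp only [E', h, if_true]
          exact IsPo.one
        · simp only [E', h, if_false]
          exact hE d
      let b : Fin n → D → ℤ := fun i => f (Pi.single i 1)
      have hf : ∀ (k : Fin n → ℕ) (d : D), f k d = ∑ i, k i * b i d := by
        intro k d
        have h1 : k = ∑ i, k i • Pi.single i 1 := by
          ext j
          simp [Finset.sum_apply, Pi.single_apply]
        conv_lhs => rw [h1, map_sum]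
        rw [Finset.sum_apply]
        refine sum_congr rfl fun i _ => ?_
        rw [map_nsmul, Pi.smul_apply, nsmul_eq_mul]
      have h1 : ED {x | (∀ d, (E d x).leadingCoeff = α d) ∧ ∃ w : Fin n → KK p,
          (∀ i, w i ≠ 0 ∧ ‖w i‖ ≤ 1) ∧ ∀ d, ‖E' d x * (tt ^ (-(a d)).toNat *
            ∏ i, w i ^ (-(b i d)).toNat)‖ = ‖tt ^ (a d).toNat * ∏ i, w i ^ (b i d).toNat‖} := by
        refine ED.and (ED.all fun d => ED.lc _ (hE d)) (ED.exs (ED.and
          (ED.all fun i => ED.and (ED.ne0 (IsPo.var _)) (ED.norm_le_one (IsPo.var _)))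
          (ED.all fun d => ED.norm_eq ?_ ?_)))
        · exact ((hE' d).comp fun i => IsPo.var _).mul ((IsPo.tt.pow _).mul
            (IsPo.prod _ fun i => (IsPo.var _).pow _))
        · exact (IsPo.tt.pow _).mul (IsPo.prod _ fun i => (IsPo.var _).pow _)
      refine h1.congr fun x => and_congr_right fun hx => ?_
      have hne : ∀ d, E' d x ≠ 0 := by
        intro d
        by_cases h : α d = 0
        · simp only [E', h, if_true]
          exact one_ne_zero
        · simp only [E', h, if_false]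
          rw [← HahnSeries.leadingCoeff_ne_zero, hx]
          exact h
      have hord : ∀ d, (E' d x).order = (E d x).order := by
        intro d
        by_cases h : α d = 0
        · simp only [E', h, if_true]
          have h2 : E d x = 0 := by
            rw [← HahnSeries.leadingCoeff_eq_zero, hx, h]
          rw [h2, HahnSeries.order_zero]
          exact HahnSeries.order_single one_ne_zero
        · simp only [E', h, if_false]
      -- the norm equality in terms of orders
      have hkey : ∀ (w : Fin n → KK p) (k : Fin n → ℕ), (∀ i, ‖w i‖ = 2 ^ (-(k i : ℤ))) → ∀ d,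
          (‖E' d x * (tt ^ (-(a d)).toNat * ∏ i, w i ^ (-(b i d)).toNat)‖ =
            ‖tt ^ (a d).toNat * ∏ i, w i ^ (b i d).toNat‖ ↔
          (E d x).order = a d + ∑ i, k i * b i d) := by
        intro w k hw d
        have h2 : ∀ c : Fin n → ℕ, ‖∏ i, w i ^ c i‖ = 2 ^ (-(∑ i, (k i : ℤ) * c i)) := by
          intro c
          rw [norm_prod]
          simp only [norm_pow, hw]
          rw [← Finset.sum_neg_distrib, two_zpow_sum]
          refine prod_congr rfl fun i _ => ?_
          rw [← zpow_natCast, ← zpow_mul]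
          congr 1
          ring
        have h3 : ∀ c : ℕ, ‖(tt : KK p) ^ c‖ = 2 ^ (-(c : ℤ)) := by
          intro c
          rw [← zpow_natCast, norm_tzpow]
        rw [norm_mul, norm_mul, norm_mul, h2, h2, h3, h3, norm_eq_of_ne (hne d), hord,
          ← zpow_add₀ (by norm_num), ← zpow_add₀ (by norm_num), ← zpow_add₀ (by norm_num),
          zpow_right_inj₀ (by norm_num) (by norm_num)]
        have h4 : (((-(a d)).toNat : ℕ) : ℤ) = ((a d).toNat : ℤ) - a d := by omega
        have h5 : ∑ i, (k i : ℤ) * ((-(b i d)).toNat : ℕ) =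
            ∑ i, (k i : ℤ) * ((b i d).toNat : ℕ) - ∑ i, (k i : ℤ) * b i d := by
          rw [← sum_sub_distrib]
          refine sum_congr rfl fun i _ => ?_
          have : (((-(b i d)).toNat : ℕ) : ℤ) = ((b i d).toNat : ℤ) - b i d := by omega
          rw [this]
          ring
        rw [h4, h5]
        constructor <;> intro h6 <;> linarith
      constructor
      · rintro ⟨_, ⟨k, rfl⟩, hk⟩
        refine ⟨fun i => tt ^ k i, fun i => ⟨pow_ne_zero _ tt_ne, ?_⟩, fun d => ?_⟩
        · rw [norm_pow, norm_tt]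
          exact pow_le_one₀ (by norm_num) (by norm_num)
        · rw [hkey _ k (fun i => by rw [← zpow_natCast, norm_tzpow])]
          have h2 := congrFun hk d
          rw [← hf]
          exact h2.symm
      · rintro ⟨w, hw, h2⟩
        have hk : ∀ i, ∃ k : ℕ, ‖w i‖ = 2 ^ (-(k : ℤ)) := by
          intro i
          have h3 := (hw i).2
          have h4 := norm_eq_of_ne (hw i).1
          rw [h4] at h3
          have h5 : (2 : ℝ) ^ (-(w i).order) ≤ 2 ^ (0 : ℤ) := by simpa using h3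
          have h6 := (zpow_le_zpow_iff_right₀ (by norm_num : (1 : ℝ) < 2)).1 h5
          exact ⟨(w i).order.toNat, by rw [h4]; congr 1; omega⟩
        choose k hk using hk
        refine ⟨f k, ⟨k, rfl⟩, ?_⟩
        ext d
        show a d + f k d = (E d x).order
        rw [hf]
        exact ((hkey w k hk d).1 (h2 d)).symm
    have h2 : ED {x | ∃ s : S, (∀ d, (E d x).leadingCoeff = α d) ∧
        (fun d => (E d x).order) ∈ (s : Set (D → ℤ))} := by
      have : Finite S := hS1
      have h3 := Finite.exists_equiv_fin S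
      obtain ⟨n, ⟨e⟩⟩ := h3
      have h4 : ED {x | ∃ j : Fin n, (∀ d, (E d x).leadingCoeff = α d) ∧
        (fun d => (E d x).order) ∈ ((e.symm j : S) : Set (D → ℤ))} :=
        ED.any fun j => hlin _ (hS2 _ (e.symm j).2)
      refine h4.congr fun x => ?_
      constructor
      · rintro ⟨s, hs⟩
        exact ⟨e s, by simpa using hs⟩
      · rintro ⟨j, hj⟩
        exact ⟨e.symm j, hj⟩
    refine h2.congr fun x => ?_
    constructor
    · rintro ⟨h4, h5⟩
      have h6 : (fun d => (E d x).order) ∈ ⋃₀ S := by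
        rw [← hS3]
        exact h5
      obtain ⟨s, hs, h7⟩ := h6
      exact ⟨⟨s, hs⟩, h4, h7⟩
    · rintro ⟨s, h4, h5⟩
      refine ⟨h4, ?_⟩
      have h6 : (fun d => (E d x).order) ∈ ⋃₀ S := ⟨s, s.2, h5⟩
      rw [← hS3] at h6
      exact h6
  have h1 : ED {x | ∃ α : D → ZMod p, (∀ d, (E d x).leadingCoeff = α d) ∧
      (fun d => (α d, (E d x).order)) ∈ Ψ} := ED.any key
  refine h1.congr fun x => ?_
  constructor
  · intro hx
    exact ⟨fun d => (E d x).leadingCoeff, fun d => rfl, hx⟩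
  · rintro ⟨α, h2, h3⟩
    obtain rfl : (fun d => (E d x).leadingCoeff) = α := funext h2
    exact h3

end

end Pool.Agent.Q206.FT
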