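import Pool.Agent.Q206.FT.CoreB

/-! # Closure properties of described relations -/

set_option autoImplicit false

open Polynomial Finset

namespace Pool.Agent.Q206.FT

variable {p : ℕ} [hp : Fact p.Prime]

section

variable {σ σ' ρ ρ' : Type}

theorem ED.comap {C : Set (σ → KK p)} (hC : ED C) (c : σ → σ') :
    ED {w : σ' → KK p | (fun i => w (c i)) ∈ C} :=
  hC.comp (f := fun i (w : σ' → KK p) => w (c i)) fun i => IsPo.var _

theorem IsPo.comap {f : (σ → KK p) → KK p} (hf : IsPo f) (c : σ → σ') :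
    IsPo fun w : σ' → KK p => f fun i => w (c i) :=
  hf.comp (g := fun i (w : σ' → KK p) => w (c i)) fun i => IsPo.var _

theorem IsPP.comap {f : (σ → KK p) → (KK p)[X]} (hf : IsPP f) (c : σ → σ') :
    IsPP fun w : σ' → KK p => f fun i => w (c i) :=
  hf.comp (g := fun i (w : σ' → KK p) => w (c i)) fun i => IsPo.var _

theorem Desc.congr {R S : (σ → KK p) → (ρ → RV p) → Prop} (h : Desc R)
    (h2 : ∀ x ξ, S x ξ ↔ R x ξ) : Desc S := by
  have : S = R := by
    ext x ξ
    exact h2 x ξ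
  rwa [this]

variable [Finite ρ]

theorem Desc.not {R : (σ → KK p) → (ρ → RV p) → Prop} (h : Desc R) :
    Desc fun x ξ => ¬ R x ξ := by
  obtain ⟨m, D, _, _, C, E, Ψ, h1, h2, h3, h4, h5⟩ := h
  refine ⟨m, D, inferInstance, inferInstance, C, E, {ζ | ¬ ζ ∈ Ψ}, h1, h2, Pres.not h3, h4,
    fun x u hu ξ => ?_⟩
  exact not_congr (h5 x u hu ξ)

omit [Finite ρ] in
theorem elim_map_inl {m1 m2 A : Type} (x : σ → A) (u1 : m1 → A) (u2 : m2 → A) :
    (fun i => Sum.elim x (Sum.elim u1 u2) (Sum.map id Sum.inl i : σ ⊕ (m1 ⊕ m2))) =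
      Sum.elim x u1 := by
  ext i
  rcases i with i | i <;> rfl

omit [Finite ρ] in
theorem elim_map_inr {m1 m2 A : Type} (x : σ → A) (u1 : m1 → A) (u2 : m2 → A) :
    (fun i => Sum.elim x (Sum.elim u1 u2) (Sum.map id Sum.inr i : σ ⊕ (m1 ⊕ m2))) =
      Sum.elim x u2 := by
  ext i
  rcases i with i | i <;> rfl

theorem Desc.and {R S : (σ → KK p) → (ρ → RV p) → Prop} (hR : Desc R) (hS : Desc S) :
    Desc fun x ξ => R x ξ ∧ S x ξ := by
  obtain ⟨m, D, _, _, C, E, Ψ, h1, h2, h3, h4, h5⟩ := hR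
  obtain ⟨m', D', _, _, C', E', Ψ', h1', h2', h3', h4', h5'⟩ := hS
  refine ⟨m ⊕ m', D ⊕ D', inferInstance, inferInstance,
    {w | (fun i => w (Sum.map id Sum.inl i)) ∈ C ∧ (fun i => w (Sum.map id Sum.inr i)) ∈ C'},
    Sum.elim (fun d w => E d fun i => w (Sum.map id Sum.inl i))
      (fun d w => E' d fun i => w (Sum.map id Sum.inr i)),
    {ζ | (fun e => ζ (Sum.map Sum.inl id e)) ∈ Ψ ∧ (fun e => ζ (Sum.map Sum.inr id e)) ∈ Ψ'},
    (h1.comap _).and (h1'.comap _), ?_, (h3.comap _).and (h3'.comap _), fun x => ?_,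
    fun x u hu ξ => ?_⟩
  · rintro (d | d)
    · exact (h2 d).comap _
    · exact (h2' d).comap _
  · obtain ⟨u, hu⟩ := h4 x
    obtain ⟨u', hu'⟩ := h4' x
    refine ⟨Sum.elim u u', ?_, ?_⟩
    · rw [elim_map_inl]
      exact hu
    · rw [elim_map_inr]
      exact hu'
  · obtain ⟨hu1, hu2⟩ := hu
    have e1 : (fun i => Sum.elim x u (Sum.map id Sum.inl i : σ ⊕ (m ⊕ m'))) =
        Sum.elim x fun i => u (.inl i) := by
      ext i
      rcases i with i | i <;> rfl
    have e2 : (fun i => Sum.elim x u (Sum.map id Sum.inr i : σ ⊕ (m ⊕ m'))) =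
        Sum.elim x fun i => u (.inr i) := by
      ext i
      rcases i with i | i <;> rfl
    rw [e1] at hu1
    rw [e2] at hu2
    refine and_congr ((h5 x _ hu1 ξ).trans ?_) ((h5' x _ hu2 ξ).trans ?_)
    · have e3 : (Sum.elim (fun d => rv (E d (Sum.elim x fun i => u (.inl i)))) ξ) =
          fun e => Sum.elim (fun d => rv (Sum.elim (fun d w => E d fun i =>
            w (Sum.map id Sum.inl i)) (fun d w => E' d fun i => w (Sum.map id Sum.inr i)) d
              (Sum.elim x u))) ξ (Sum.map Sum.inl id e) := by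
        ext1 e
        rcases e with e | e
        · show rv _ = rv (E e _)
          rw [e1]
        · rfl
      rw [e3]
    · have e3 : (Sum.elim (fun d => rv (E' d (Sum.elim x fun i => u (.inr i)))) ξ) =
          fun e => Sum.elim (fun d => rv (Sum.elim (fun d w => E d fun i =>
            w (Sum.map id Sum.inl i)) (fun d w => E' d fun i => w (Sum.map id Sum.inr i)) d
              (Sum.elim x u))) ξ (Sum.map Sum.inr id e) := by
        ext1 e
        rcases e with e | e
        · show rv _ = rv (E' e _)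
          rw [e2]
        · rfl
      rw [e3]

theorem Desc.or {R S : (σ → KK p) → (ρ → RV p) → Prop} (hR : Desc R) (hS : Desc S) :
    Desc fun x ξ => R x ξ ∨ S x ξ :=
  (hR.not.and hS.not).not.congr fun x ξ => by tauto

/-- leading terms of polynomials in `x` -/
theorem Desc.atom {D : Type} [Finite D] {E : D → (σ → KK p) → KK p} (hE : ∀ d, IsPo (E d))
    {Ψ : Set (D ⊕ ρ → RV p)} (hΨ : Pres Ψ) :
    Desc fun x ξ => Sum.elim (fun d => rv (E d x)) ξ ∈ Ψ := by
  refine ⟨Empty, D, inferInstance, inferInstance, Set.univ, fun d w => E d fun i => w (.inl i),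
    Ψ, ED.univ, fun d => (hE d).comap _, hΨ, fun x => ⟨fun i => i.elim, trivial⟩,
    fun x u _ ξ => Iff.rfl⟩

theorem Desc.eq0 {E : (σ → KK p) → KK p} (hE : IsPo E) :
    Desc fun x (_ : ρ → RV p) => E x = 0 := by
  refine (Desc.atom (D := Unit) (ρ := ρ) (fun _ => hE)
    (Pres.fst fun α => α (.inl ()) = 0)).congr fun x ξ => ?_
  exact (rv_zero_iff _).symm

theorem Desc.const (P : Prop) : Desc fun (_ : σ → KK p) (_ : ρ → RV p) => P := by
  refine (Desc.atom (D := Empty) (ρ := ρ) (E := fun d => d.elim) (fun d => d.elim)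
    (Pres.const P)).congr fun x ξ => Iff.rfl

theorem Desc.any {ι : Type} [Finite ι] {R : ι → (σ → KK p) → (ρ → RV p) → Prop}
    (h : ∀ i, Desc (R i)) : Desc fun x ξ => ∃ i, R i x ξ := by
  classical
  have : Fintype ι := Fintype.ofFinite ι
  have h1 : ∀ s : Finset ι, Desc fun x ξ => ∃ i ∈ s, R i x ξ := by
    intro s
    induction s using Finset.induction_on with
    | empty => exact (Desc.const False).congr fun x ξ => by simp
    | insert a s ha ih => exact ((h a).or ih).congr fun x ξ => by simp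
  exact (h1 univ).congr fun x ξ => by simp

theorem Desc.comap {R : (σ → KK p) → (ρ → RV p) → Prop} (h : Desc R) (f : ρ → ρ') [Finite ρ'] :
    Desc fun x (ξ : ρ' → RV p) => R x fun i => ξ (f i) := by
  obtain ⟨m, D, _, _, C, E, Ψ, h1, h2, h3, h4, h5⟩ := h
  refine ⟨m, D, inferInstance, inferInstance, C, E, {ζ | (fun e => ζ (Sum.map id f e)) ∈ Ψ}, h1, h2,
    h3.comap _, h4, fun x u hu ξ => (h5 x u hu _).trans ?_⟩
  have e1 : (Sum.elim (fun d => rv (E d (Sum.elim x u))) fun i => ξ (f i)) =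
      fun e => Sum.elim (fun d => rv (E d (Sum.elim x u))) ξ (Sum.map id f e) := by
    ext1 e
    rcases e with e | e <;> rfl
  rw [e1]
  exact Iff.rfl

theorem Desc.exs {R : (σ → KK p) → (ρ ⊕ ρ' → RV p) → Prop} (h : Desc R) [Finite ρ'] :
    Desc fun x (ξ : ρ → RV p) => ∃ η, R x (Sum.elim ξ η) := by
  obtain ⟨m, D, _, _, C, E, Ψ, h1, h2, h3, h4, h5⟩ := h
  refine ⟨m, D, inferInstance, inferInstance, C, E,
    {ζ | ∃ η : ρ' → RV p, (Sum.elim (fun d => ζ (.inl d)) (Sum.elim (fun i => ζ (.inr i)) η)) ∈ Ψ},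
    h1, h2, ?_, h4, fun x u hu ξ => exists_congr fun η => h5 x u hu _⟩
  refine Pres.exs ((h3.comap (Equiv.sumAssoc D ρ ρ').symm).congr fun w => ?_)
  have e1 : (Sum.elim (fun d => w (.inl (.inl d))) (Sum.elim (fun i => w (.inl (.inr i)))
      fun i => w (.inr i))) = fun e => w ((Equiv.sumAssoc D ρ ρ').symm e) := by
    ext1 e
    rcases e with e | e | e <;> rfl
  show (Sum.elim (fun d => w (.inl (.inl d))) (Sum.elim (fun i => w (.inl (.inr i)))
      fun i => w (.inr i))) ∈ Ψ ↔ _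
  rw [e1]
  exact Iff.rfl

theorem Desc.subst {R : (σ → KK p) → (ρ → RV p) → Prop} (h : Desc R)
    {g : σ → (σ' → KK p) → KK p} (hg : ∀ i, IsPo (g i)) :
    Desc fun x' ξ => R (fun i => g i x') ξ := by
  obtain ⟨m, D, _, _, C, E, Ψ, h1, h2, h3, h4, h5⟩ := h
  let G : σ ⊕ m → (σ' ⊕ m → KK p) → KK p :=
    Sum.elim (fun i w => g i fun j => w (.inl j)) fun i w => w (.inr i)
  have hG : ∀ i, IsPo (G i) := by
    rintro (i | i)
    · exact (hg i).comap _
    · exact IsPo.var _
  have e1 : ∀ x' (u : m → KK p), (fun i => G i (Sum.elim x' u)) =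
      Sum.elim (fun i => g i x') u := by
    intro x' u
    ext1 i
    rcases i with i | i <;> rfl
  refine ⟨m, D, inferInstance, inferInstance, {w | (fun i => G i w) ∈ C},
    fun d w => E d fun i => G i w, Ψ, h1.comp hG, fun d => (h2 d).comp hG, h3, fun x' => ?_,
    fun x' u hu ξ => ?_⟩
  · obtain ⟨u, hu⟩ := h4 fun i => g i x'
    refine ⟨u, ?_⟩
    show (fun i => G i (Sum.elim x' u)) ∈ C
    rw [e1]
    exact hu
  · have hu' : (fun i => G i (Sum.elim x' u)) ∈ C := hu
    rw [e1] at hu'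
    have h6 := h5 _ u hu' ξ
    simp only [e1]
    exact h6

end

end Pool.Agent.Q206.FT
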