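import Pool.Agent.Q206.FT.SepA

/-! # Separated relations -/

set_option autoImplicit false

open Polynomial Finset

namespace Pool.Agent.Q206.FT

variable {p : ℕ} [hp : Fact p.Prime]

/-- the value of the variable `i`, and `0` if there is none -/
def yo {τ : Type} (y : τ → KK p) : Option τ → KK p
  | none => 0
  | some i => y i

/-- `φ x y` depends only on `x` and on the leading terms of the values of polynomials in one of
the `y i` -/
def Sep {σ τ : Type} (φ : (σ → KK p) → (τ → KK p) → Prop) : Prop :=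
  ∃ (m κ : Type) (_ : Finite m) (_ : Finite κ) (C : Set (σ ⊕ m → KK p))
    (F : κ → (σ ⊕ m → KK p) → (KK p)[X]) (i : κ → Option τ)
    (R : (σ ⊕ m → KK p) → (κ → RV p) → Prop),
    ED C ∧ (∀ x, ∃ u, Sum.elim x u ∈ C) ∧ (∀ k, IsPP (F k)) ∧ Desc R ∧
    ∀ x u, Sum.elim x u ∈ C → ∀ y, φ x y ↔
      R (Sum.elim x u) fun k => rv ((F k (Sum.elim x u)).eval (yo y (i k)))

section

variable {σ τ : Type}

theorem Sep.congr {φ ψ : (σ → KK p) → (τ → KK p) → Prop} (h : Sep φ)
    (h2 : ∀ x y, ψ x y ↔ φ x y) : Sep ψ := by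
  have : ψ = φ := by
    ext x y
    exact h2 x y
  rwa [this]

theorem Sep.not {φ : (σ → KK p) → (τ → KK p) → Prop} (h : Sep φ) : Sep fun x y => ¬ φ x y := by
  obtain ⟨m, κ, _, _, C, F, i, R, h1, h2, h3, h4, h5⟩ := h
  exact ⟨m, κ, inferInstance, inferInstance, C, F, i, _, h1, h2, h3, h4.not,
    fun x u hu y => not_congr (h5 x u hu y)⟩

theorem Sep.and {φ ψ : (σ → KK p) → (τ → KK p) → Prop} (hφ : Sep φ) (hψ : Sep ψ) :
    Sep fun x y => φ x y ∧ ψ x y := by
  obtain ⟨m, κ, _, _, C, F, i, R, h1, h2, h3, h4, h5⟩ := hφ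
  obtain ⟨m', κ', _, _, C', F', i', R', h1', h2', h3', h4', h5'⟩ := hψ
  refine ⟨m ⊕ m', κ ⊕ κ', inferInstance, inferInstance,
    {w | (fun j => w (Sum.map id Sum.inl j)) ∈ C ∧ (fun j => w (Sum.map id Sum.inr j)) ∈ C'},
    Sum.elim (fun k w => F k fun j => w (Sum.map id Sum.inl j))
      (fun k w => F' k fun j => w (Sum.map id Sum.inr j)), Sum.elim i i',
    fun w ξ => (R (fun j => w (Sum.map id Sum.inl j)) fun k => ξ (.inl k)) ∧
      R' (fun j => w (Sum.map id Sum.inr j)) fun k => ξ (.inr k),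
    (h1.comap _).and (h1'.comap _), fun x => ?_, ?_, ?_, fun x u hu y => ?_⟩
  · obtain ⟨u, hu⟩ := h2 x
    obtain ⟨u', hu'⟩ := h2' x
    refine ⟨Sum.elim u u', ?_, ?_⟩
    · rw [elim_map_inl]
      exact hu
    · rw [elim_map_inr]
      exact hu'
  · rintro (k | k)
    · exact (h3 k).comap _
    · exact (h3' k).comap _
  · exact ((h4.subst (g := fun j (w : σ ⊕ (m ⊕ m') → KK p) => w (Sum.map id Sum.inl j))
      fun j => IsPo.var _).comap Sum.inl).and
      ((h4'.subst (g := fun j (w : σ ⊕ (m ⊕ m') → KK p) => w (Sum.map id Sum.inr j))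
      fun j => IsPo.var _).comap Sum.inr)
  · obtain ⟨hu1, hu2⟩ := hu
    have e1 : (fun i => Sum.elim x u (Sum.map id Sum.inl i : σ ⊕ (m ⊕ m'))) =
        Sum.elim x fun i => u (.inl i) := by
      ext i
      rcases i with i | i <;> rfl
    have e2 : (fun i => Sum.elim x u (Sum.map id Sum.inr i : σ ⊕ (m ⊕ m'))) =
        Sum.elim x fun i => u (.inr i) := by
      ext i
      rcases i with i | i <;> rfl
    rw [e1] at hu1
    rw [e2] at hu2
    have h6 := h5 x _ hu1 y
    have h6' := h5' x _ hu2 y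
    rw [← e1] at h6
    rw [← e2] at h6'
    exact and_congr h6 h6'

theorem Sep.or {φ ψ : (σ → KK p) → (τ → KK p) → Prop} (hφ : Sep φ) (hψ : Sep ψ) :
    Sep fun x y => φ x y ∨ ψ x y :=
  (hφ.not.and hψ.not).not.congr fun x y => by tauto

/-- **Separated relations are closed under quantification.** -/
theorem Sep.ex {φ : (σ → KK p) → (τ ⊕ Unit → KK p) → Prop} (h : Sep φ) :
    Sep fun x (y : τ → KK p) => ∃ z, φ x (Sum.elim y fun _ => z) := by
  classical
  obtain ⟨m, κ, _, _, C, F, i, R, h1, h2, h3, h4, h5⟩ := h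
  let c : κ → κ ⊕ κ := fun k => if i k = some (.inr ()) then .inr k else .inl k
  let i' : κ → Option τ := fun k => match i k with
    | some (.inl t) => some t
    | _ => none
  have hcore : Desc fun (w : σ ⊕ m → KK p) (ζ : κ ⊕ κ → RV p) =>
      (∃ z, ∀ k, ζ (.inr k) = rv ((F k w).eval z)) ∧ R w fun k => ζ (c k) :=
    ((Desc.core h3).comap Sum.inr).and (h4.comap c)
  refine ⟨m, κ, inferInstance, inferInstance, C, F, i', _, h1, h2, h3, hcore.exs,
    fun x u hu y => ?_⟩
  have key : ∀ z, (fun k => (Sum.elim (fun k => rv ((F k (Sum.elim x u)).eval (yo y (i' k))))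
      (fun k => rv ((F k (Sum.elim x u)).eval z)) : κ ⊕ κ → RV p) (c k)) =
      fun k => rv ((F k (Sum.elim x u)).eval (yo (Sum.elim y fun _ => z) (i k))) := by
    intro z
    ext1 k
    by_cases hk : i k = some (.inr ())
    · have hc : c k = .inr k := if_pos hk
      rw [hc, hk]
      rfl
    · have hc : c k = .inl k := if_neg hk
      rw [hc]
      show rv _ = rv _
      congr 2
      rcases hi : i k with _ | (t | t)
      · have : i' k = none := by simp only [i', hi]
        rw [this]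
        rfl
      · have : i' k = some t := by simp only [i', hi]
        rw [this]
        rfl
      · exact absurd hi hk
  constructor
  · rintro ⟨z, hz⟩
    refine ⟨fun k => rv ((F k (Sum.elim x u)).eval z), ⟨z, fun k => rfl⟩, ?_⟩
    have h6 := (h5 x u hu _).1 hz
    rw [← key] at h6
    exact h6
  · rintro ⟨η, ⟨z, hz⟩, h6⟩
    refine ⟨z, (h5 x u hu _).2 ?_⟩
    have hη : η = fun k => rv ((F k (Sum.elim x u)).eval z) := funext hz
    rw [hη] at h6
    rw [← key]
    exact h6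

/-- products of polynomials in at most one of the `y i` -/
def SepT (f : (σ → KK p) → (τ → KK p) → KK p) : Prop :=
  ∃ (κ : Type) (_ : Fintype κ) (F : κ → (σ → KK p) → (KK p)[X]) (i : κ → Option τ),
    (∀ k, IsPP (F k)) ∧ ∀ x y, f x y = ∏ k, (F k x).eval (yo y (i k))

theorem SepT.par {f : (σ → KK p) → KK p} (hf : IsPo f) :
    SepT fun x (_ : τ → KK p) => f x :=
  ⟨Unit, inferInstance, fun _ x => C (f x), fun _ => none, fun _ => IsPP.C hf, fun x y => by simp⟩

theorem SepT.bd {F : (σ → KK p) → (KK p)[X]} (hF : IsPP F) (i : τ) :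
    SepT fun x (y : τ → KK p) => (F x).eval (y i) :=
  ⟨Unit, inferInstance, fun _ x => F x, fun _ => some i, fun _ => hF, fun x y => by simp [yo]⟩

theorem SepT.mul {f g : (σ → KK p) → (τ → KK p) → KK p} (hf : SepT f) (hg : SepT g) :
    SepT fun x y => f x y * g x y := by
  obtain ⟨κ, _, F, i, h1, h2⟩ := hf
  obtain ⟨κ', _, F', i', h1', h2'⟩ := hg
  refine ⟨κ ⊕ κ', inferInstance, Sum.elim F F', Sum.elim i i', ?_, fun x y => ?_⟩
  · rintro (k | k)
    · exact h1 k
    · exact h1' k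
  · show f x y * g x y = _
    rw [Fintype.prod_sum_type, h2, h2']
    rfl

/-- conditions on the leading terms of such products -/
theorem Sep.rel {Λ : Type} [Finite Λ] {f : Λ → (σ → KK p) → (τ → KK p) → KK p}
    (hf : ∀ l, SepT (f l)) {Ψ : Set (Λ → RV p)} (hΨ : Pres Ψ) :
    Sep fun x y => (fun l => rv (f l x y)) ∈ Ψ := by
  classical
  have : Fintype Λ := Fintype.ofFinite Λ
  choose κ hκ F i h1 h2 using hf
  have hR : Pres {w : (Λ ⊕ Unit) ⊕ (Σ l, κ l) → RV p | (fun l => w (.inl (.inl l))) ∈ Ψ ∧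
      w (.inl (.inr ())) = (1, 0) ∧ ∀ l, w (.inl (.inl l)) = rprod (w (.inl (.inr ())))
        fun k : κ l => w (.inr ⟨l, k⟩)} := by
    refine (hΨ.comap fun l => Sum.inl (Sum.inl l)).and (Pres.and (Pres.eq_mk
      (a := fun _ => 1) (IsAf.const 0)) (Pres.all fun l => ?_))
    exact Pres.rprod _ _ fun k : κ l => (.inr ⟨l, k⟩ : (Λ ⊕ Unit) ⊕ (Σ l, κ l))
  refine ⟨Empty, Σ l, κ l, inferInstance, inferInstance, Set.univ,
    fun k w => F k.1 k.2 fun j => w (.inl j), fun k => i k.1 k.2,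
    fun _ ξ => ∃ ζ : Λ ⊕ Unit → RV p, (fun l => ζ (.inl l)) ∈ Ψ ∧ ζ (.inr ()) = (1, 0) ∧
      ∀ l, ζ (.inl l) = rprod (ζ (.inr ())) fun k : κ l => ξ ⟨l, k⟩,
    ED.univ, fun x => ⟨fun j => j.elim, trivial⟩, fun k => (h1 _ _).comap _, ?_,
    fun x u _ y => ?_⟩
  · refine (Desc.exs (ρ := Σ l, κ l) (ρ' := Λ ⊕ Unit) (R := fun (_ : σ ⊕ Empty → KK p) ζ =>
      (fun l => ζ (.inr (.inl l))) ∈ Ψ ∧ ζ (.inr (.inr ())) = (1, 0) ∧
      ∀ l, ζ (.inr (.inl l)) = rprod (ζ (.inr (.inr ()))) fun k : κ l => ζ (.inl ⟨l, k⟩)) ?_)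
    refine (Desc.atom (D := Empty) (E := fun d => d.elim) (fun d => d.elim)
      (hR.comap (Sum.elim (fun i => .inr (.inr i)) fun i => .inr (.inl i) :
        (Λ ⊕ Unit) ⊕ (Σ l, κ l) → Empty ⊕ ((Σ l, κ l) ⊕ (Λ ⊕ Unit))))).congr fun x ζ => ?_
    exact Iff.rfl
  · have hrv : ∀ l, rv (f l x y) = rprod (1, 0) fun k : κ l =>
        rv ((F l k x).eval (yo y (i l k))) := by
      intro l
      have h3 : f l x y = 1 * ∏ k, (F l k x).eval (yo y (i l k)) := by rw [h2, one_mul]
      rw [h3, rv_rprod]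
      congr 1
      exact Prod.ext HahnSeries.leadingCoeff_of_single (HahnSeries.order_single one_ne_zero)
    constructor
    · intro h3
      refine ⟨Sum.elim (fun l => rv (f l x y)) fun _ => (1, 0), h3, rfl, fun l => ?_⟩
      exact hrv l
    · rintro ⟨ζ, h3, h4, h5⟩
      have h6 : (fun l => rv (f l x y)) = fun l => ζ (.inl l) := by
        ext1 l
        rw [hrv, h5, h4]
        rfl
      rw [h6]
      exact h3

/-- **Separated relations are closed under quantification over roots.** -/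
theorem Sep.root {P : (σ → KK p) → (KK p)[X]} (hP : IsPP P)
    {φ : (σ ⊕ Unit → KK p) → (τ → KK p) → Prop} (h : Sep φ) :
    Sep fun x y => P x ≠ 0 ∧ ∃ z, (P x).eval z = 0 ∧ φ (Sum.elim x fun _ => z) y := by
  classical
  obtain ⟨m, κ, _, _, C, F, i, R, h1, h2, h3, h4, h5⟩ := h
  obtain ⟨N, hN⟩ := hP.natDegree_le
  -- the point for the root `j`
  let a : Fin N → (σ ⊕ Unit) ⊕ m → σ ⊕ (Vb p Unit N ⊕ (Fin N × m)) := fun j =>
    Sum.elim (Sum.elim (fun i => .inl i) fun _ => .inr (.inl (.inr (((), j), .inl 0))))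
      fun l => .inr (.inr (j, l))
  have ha : ∀ (j : Fin N) (x : σ → KK p) (u : Vb p Unit N ⊕ (Fin N × m) → KK p),
      (fun l => (Sum.elim x u : σ ⊕ (Vb p Unit N ⊕ (Fin N × m)) → KK p) (a j l)) =
        Sum.elim (Sum.elim x fun _ => u (.inl (.inr (((), j), .inl 0))))
          fun l => u (.inr (j, l)) := by
    intro j x u
    ext1 l
    rcases l with (l | l) | l <;> rfl
  have hfd : ED {w : σ ⊕ (Vb p Unit N ⊕ (Fin N × m)) → KK p |
      ∃ (δ : Unit → Fin N → Fin (N + 1)) (v : Unit × Fin N × Fin N → KK p),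
        FD (fun _ => P fun i => w (.inl i)) δ v fun i => w (.inr (.inl i))} := by
    refine ED.any fun δ => ED.exs ?_
    exact (ED.fd (F := fun _ : Unit => P) (fun _ => hP) δ).comap (Sum.map (Sum.map id Sum.inl) id :
      (σ ⊕ Vb p Unit N) ⊕ (Unit × Fin N × Fin N) →
        (σ ⊕ (Vb p Unit N ⊕ (Fin N × m))) ⊕ (Unit × Fin N × Fin N))
  refine ⟨Vb p Unit N ⊕ (Fin N × m), Fin N × κ, inferInstance, inferInstance,
    {w | (∃ (δ : Unit → Fin N → Fin (N + 1)) (v : Unit × Fin N × Fin N → KK p),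
        FD (fun _ => P fun i => w (.inl i)) δ v fun i => w (.inr (.inl i))) ∧
      ∀ j, (fun l => w (a j l)) ∈ C}, fun k w => F k.2 fun l => w (a k.1 l), fun k => i k.2,
    fun w ξ => w (.inr (.inl (.inl ()))) ≠ 0 ∧ ∃ j : Fin N,
      w (.inr (.inl (.inr (((), j), .inl 1)))) = 0 ∧ R (fun l => w (a j l)) fun k => ξ (j, k),
    hfd.and (ED.all fun j => h1.comap (a j)), fun x => ?_, fun k => (h3 _).comap _, ?_,
    fun x u hu y => ?_⟩
  · obtain ⟨δ, v, u, hu⟩ := FD.exists (fun _ : Unit => P x) (fun _ => hN x)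
    choose d hd using fun j : Fin N => h2 (Sum.elim x fun _ => u (.inr (((), j), .inl 0)))
    refine ⟨Sum.elim u fun q => d q.1 q.2, ⟨δ, v, hu⟩, fun j => ?_⟩
    rw [ha]
    exact hd j
  · refine (Desc.eq0 (IsPo.var _)).not.and (Desc.any fun j => (Desc.eq0 (IsPo.var _)).and
      ((h4.subst (g := fun l (w : σ ⊕ (Vb p Unit N ⊕ (Fin N × m)) → KK p) => w (a j l))
        fun l => IsPo.var _).comap fun k => (j, k)))
  · obtain ⟨⟨δ, v, hfd⟩, hC⟩ := hu
    have hfd' : FD (fun _ : Unit => P x) δ v fun i => u (.inl i) := hfd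
    obtain ⟨f1, f2⟩ := hfd'
    have f1' : P x = Polynomial.C (u (.inl (.inl ()))) * ∏ j, gpol (δ () j) fun l : Fin N => v ((), j, l) :=
      f1 ()
    have f2' : ∀ j, (gpol (δ () j) fun l : Fin N => v ((), j, l)).eval
        (u (.inl (.inr (((), j), .inl 0)))) = u (.inl (.inr (((), j), .inl 1))) :=
      fun j => (f2 () j).2.1
    have hC' : ∀ j, Sum.elim (Sum.elim x fun _ => u (.inl (.inr (((), j), .inl 0))))
          (fun l => u (.inr (j, l))) ∈ C := by
      intro j
      have := hC j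
      rw [ha] at this
      exact this
    have hA : P x ≠ 0 ↔ u (.inl (.inl ())) ≠ 0 := by
      rw [f1']
      have h6 : (∏ j, gpol (δ () j) fun l : Fin N => v ((), j, l)) ≠ 0 :=
        prod_ne_zero_iff.2 fun j _ => (gpol_monic _ _).ne_zero
      constructor
      · intro h7 h8
        apply h7
        rw [h8, C_0, zero_mul]
      · intro h7
        exact mul_ne_zero (C_ne_zero.2 h7) h6
    -- the roots are the centres
    have hroot : P x ≠ 0 → ∀ z, (P x).eval z = 0 ↔ ∃ j : Fin N,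
        u (.inl (.inr (((), j), .inl 1))) = 0 ∧ z = u (.inl (.inr (((), j), .inl 0))) := by
      intro h0 z
      have hA' := hA.1 h0
      constructor
      · intro hz
        rw [f1', eval_mul, eval_C, eval_prod] at hz
        obtain ⟨j, _, hj⟩ := prod_eq_zero_iff.1 ((mul_eq_zero.1 hz).resolve_left hA')
        obtain ⟨g1, -⟩ := f2 () j
        have h7 : Cert0 (δ () j) (gpol (δ () j) fun l : Fin N => v ((), j, l))
            (u (.inl (.inr (((), j), .inl 0)))) := ⟨gpol_monic _ _, gpol_natDegree _ _, g1⟩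
        have h8 := cert0_norm h7 z
        rw [hj, norm_zero] at h8
        have h9 : ‖z - u (.inl (.inr (((), j), .inl 0)))‖ ^ (δ () j : ℕ) ≤ 0 := by
          rw [h8]
          exact le_max_left _ _
        have h10 : ‖(gpol (δ () j) fun l : Fin N => v ((), j, l)).eval
            (u (.inl (.inr (((), j), .inl 0))))‖ ≤ 0 := by
          conv_rhs => rw [h8]
          exact le_max_right _ _
        have h11 : (δ () j : ℕ) ≠ 0 := by
          intro h12
          rw [h12, pow_zero] at h9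
          exact absurd h9 (by norm_num)
        refine ⟨j, ?_, ?_⟩
        · rw [← f2']
          exact norm_le_zero_iff.1 h10
        · have h12 : ‖z - u (.inl (.inr (((), j), .inl 0)))‖ = 0 :=
            (pow_eq_zero_iff h11).1 (le_antisymm h9 (by positivity))
          exact sub_eq_zero.1 (norm_eq_zero.1 h12)
      · rintro ⟨j, hj, rfl⟩
        rw [f1', eval_mul, eval_prod, prod_eq_zero (mem_univ j), mul_zero]
        rw [f2']
        exact hj
    have hRR : ∀ j, φ (Sum.elim x fun _ => u (.inl (.inr (((), j), .inl 0)))) y ↔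
        R (fun l => (Sum.elim x u : σ ⊕ (Vb p Unit N ⊕ (Fin N × m)) → KK p) (a j l)) fun k =>
          rv ((F k fun l => (Sum.elim x u : σ ⊕ (Vb p Unit N ⊕ (Fin N × m)) → KK p) (a j l)).eval
            (yo y (i k))) := by
      intro j
      rw [h5 _ _ (hC' j) y, ha]
    constructor
    · rintro ⟨h0, z, hz, hφ⟩
      refine ⟨hA.1 h0, ?_⟩
      obtain ⟨j, hj, rfl⟩ := (hroot h0 z).1 hz
      exact ⟨j, hj, (hRR j).1 hφ⟩
    · rintro ⟨h0, j, hj, hR⟩
      have h0' := hA.2 h0
      exact ⟨h0', _, (hroot h0' _).2 ⟨j, hj, rfl⟩, (hRR j).2 hR⟩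

/-- **Separated relations are existentially definable.** -/
theorem Sep.ed [Finite τ] {φ : (σ → KK p) → (τ → KK p) → Prop} (h : Sep φ) :
    ED {w : σ ⊕ τ → KK p | φ (fun i => w (.inl i)) fun i => w (.inr i)} := by
  obtain ⟨m, κ, _, _, C, F, i, R, h1, h2, h3, h4, h5⟩ := h
  obtain ⟨m', D, _, _, C', E, Ψ, g1, g2, g3, g4, g5⟩ := h4
  -- the points
  let a : σ ⊕ m → (σ ⊕ τ) ⊕ (m ⊕ m') := Sum.elim (fun i => .inl (.inl i)) fun i => .inr (.inl i)
  let b : (σ ⊕ m) ⊕ m' → (σ ⊕ τ) ⊕ (m ⊕ m') := Sum.elim a fun i => .inr (.inr i)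
  have hy : ∀ t : Option τ, IsPo fun w : (σ ⊕ τ) ⊕ (m ⊕ m') → KK p =>
      yo (fun j => w (.inl (.inr j))) t := by
    rintro (_ | t)
    · exact IsPo.zero
    · exact IsPo.var _
  have key : ED {w : (σ ⊕ τ) ⊕ (m ⊕ m') → KK p | (fun j => w (a j)) ∈ C ∧
      (fun j => w (b j)) ∈ C' ∧ (fun e => rv (Sum.elim (fun d (w : (σ ⊕ τ) ⊕ (m ⊕ m') → KK p) =>
        E d fun j => w (b j)) (fun k w => (F k fun j => w (a j)).eval
          (yo (fun j => w (.inl (.inr j))) (i k))) e w)) ∈ Ψ} := by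
    refine (h1.comap a).and ((g1.comap b).and (ED.pres g3 ?_))
    rintro (d | k)
    · exact (g2 d).comap b
    · exact ((h3 k).comap a).eval (hy _)
  refine (ED.exs (τ := m ⊕ m') (R := fun w u => (fun j => (Sum.elim w u : (σ ⊕ τ) ⊕ (m ⊕ m') →
    KK p) (a j)) ∈ C ∧ (fun j => (Sum.elim w u : (σ ⊕ τ) ⊕ (m ⊕ m') → KK p) (b j)) ∈ C' ∧
      (fun e => rv (Sum.elim (fun d (w : (σ ⊕ τ) ⊕ (m ⊕ m') → KK p) =>
        E d fun j => w (b j)) (fun k w => (F k fun j => w (a j)).eval
          (yo (fun j => w (.inl (.inr j))) (i k))) e (Sum.elim w u))) ∈ Ψ)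
      (key.congr fun w => ?_)).congr fun w => ?_
  · have e0 : (Sum.elim (fun i => w (.inl i)) fun i => w (.inr i)) = w := by
      ext1 j
      rcases j with j | j <;> rfl
    show (_ ∧ _ ∧ _) ↔ (_ ∧ _ ∧ _)
    rw [e0]
  · set x : σ → KK p := fun i => w (.inl i) with hx
    set y : τ → KK p := fun i => w (.inr i) with hy
    have ea : ∀ u : m ⊕ m' → KK p, (fun j => (Sum.elim w u : (σ ⊕ τ) ⊕ (m ⊕ m') → KK p) (a j)) =
        Sum.elim x fun j => u (.inl j) := by
      intro u
      ext1 j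
      rcases j with j | j <;> rfl
    have eb : ∀ u : m ⊕ m' → KK p, (fun j => (Sum.elim w u : (σ ⊕ τ) ⊕ (m ⊕ m') → KK p) (b j)) =
        Sum.elim (Sum.elim x fun j => u (.inl j)) fun j => u (.inr j) := by
      intro u
      ext1 j
      rcases j with (j | j) | j <;> rfl
    have ee : ∀ u : m ⊕ m' → KK p, (fun e => rv (Sum.elim (fun d
        (w : (σ ⊕ τ) ⊕ (m ⊕ m') → KK p) => E d fun j => w (b j)) (fun k w =>
          (F k fun j => w (a j)).eval (yo (fun j => w (.inl (.inr j))) (i k))) e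
            (Sum.elim w u))) = Sum.elim (fun d => rv (E d (Sum.elim (Sum.elim x
              fun j => u (.inl j)) fun j => u (.inr j)))) fun k =>
                rv ((F k (Sum.elim x fun j => u (.inl j))).eval (yo y (i k))) := by
      intro u
      ext1 e
      rcases e with d | k
      · show rv (E d _) = rv (E d _)
        rw [eb]
      · show rv ((F k _).eval _) = rv ((F k _).eval _)
        rw [ea]
        rfl
    show φ x y ↔ _
    constructor
    · intro h6
      obtain ⟨u, hu⟩ := h2 x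
      obtain ⟨u', hu'⟩ := g4 (Sum.elim x u)
      refine ⟨Sum.elim u u', ?_, ?_, ?_⟩
      · rw [ea]
        exact hu
      · rw [eb]
        exact hu'
      · rw [ee]
        exact (g5 _ _ hu' _).1 ((h5 x u hu y).1 h6)
    · rintro ⟨u, h6, h7, h8⟩
      rw [ea] at h6
      rw [eb] at h7
      rw [ee] at h8
      exact (h5 x _ h6 y).2 ((g5 _ _ h7 _).2 h8)

end

end Pool.Agent.Q206.FT
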