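import Pool.Agent.Q206.FT.EcC
import Pool.Agent.Q206.FT.Sys

/-! # Transfer between `F_p(t)^h` and `F_p((t))` -/

set_option autoImplicit false

namespace Pool.Agent.Q206.FT

variable {p : ℕ} [hp : Fact p.Prime]

theorem ec_exists {σ τ : Type} [Finite τ] {R : Set (σ ⊕ τ → KK p)} (hR : ED R) (x : σ → KK p)
    (hx : ∀ i, x i ∈ k0 p) (h : ∃ y, Sum.elim x y ∈ R) :
    ∃ y : τ → KK p, (∀ i, y i ∈ k0 p) ∧ Sum.elim x y ∈ R := by
  classical
  obtain ⟨n, ⟨e⟩⟩ := Finite.exists_equiv_fin τ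
  obtain ⟨m, Φ, h1⟩ := hR
  obtain ⟨y, hy⟩ := h
  obtain ⟨z, hz⟩ := (h1 _).1 hy
  let u : (σ ⊕ τ) ⊕ Fin m → σ ⊕ Fin (n + m) :=
    Sum.elim (Sum.elim Sum.inl (fun i => Sum.inr (Fin.castAdd m (e i))))
      (fun j => Sum.inr (Fin.natAdd n j))
  have h2 : ∀ (P : Po p ((σ ⊕ τ) ⊕ Fin m)) (w : Fin (n + m) → KK p),
      ev (MvPolynomial.rename u P) (Sum.elim x w) =
        ev P (Sum.elim (Sum.elim x fun i => w (Fin.castAdd m (e i)))
          fun j => w (Fin.natAdd n j)) := by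
    intro P w
    simp only [FT.ev, MvPolynomial.aeval_rename]
    congr 2
    ext i
    rcases i with (i | i) | i <;> simp [u]
  obtain ⟨w, hw1, hw2⟩ := ec (Φ.image (MvPolynomial.rename u)) x hx
    (Fin.addCases (fun i => y (e.symm i)) z) (by
      intro Q hQ
      obtain ⟨P, hP, rfl⟩ := Finset.mem_image.1 hQ
      rw [h2]
      have := hz P hP
      simpa using this)
  refine ⟨fun i => w (Fin.castAdd m (e i)), fun i => hw1 _, (h1 _).2
    ⟨fun j => w (Fin.natAdd n j), fun P hP => ?_⟩⟩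
  rw [← h2]
  exact hw2 _ (Finset.mem_image_of_mem _ hP)

end Pool.Agent.Q206.FT
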